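import Mathlib
import Pool.Agent.Lib.MP_ae5b4e_an_P3.MonA

/-!
# MP_ae5b4e_an, project PN (theorem P3 for all area preserving fields), definitions

THEOREM (PN).  Let `γ` be a closed convex curve with a smooth foliation by closed curves `L_c` which
induces projective involutions on the tangent lines (arbitrary field).  Suppose that the maps of the
leaves `c < b` preserve a smooth area form on the open collar (nothing is assumed at `γ`).  If on
some leaf `c₁ < b` three steps from one point go around the curve, then `γ` is an ellipse and the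
leaves are conics of one pencil.

Normal form: `det (Γ, Γ', Γ'') = 1`; the area form is `- U_c exp (- 3 φ) dc dt`.  The only property
which is used is `CB`: `δ t (nxt t) = φ (c, nxt t) - φ (c, t)`, where `δ = dl`.  (If the area form
is `N ^ (-3)` in the homogeneous coordinates, then `φ (c, t) = log (N (U c t Γ + Γ'))`.)

With `p c t = φ_c / U_c` (the derivative of `log N (X Γ + Γ')` in `X`), `s = nxt t`:
`BI = δ t s (K t s p t n - K s t p s)`, `n = nt`;  `BB c = ∫ BI`.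
(A) `BB' = ∫ EI ≥ 0`;  (B) `BB → 0` at the curve;  (C) `BI ≤ 0` on a leaf of 3-periodic points.
-/

noncomputable section

namespace Pool.Agent.MP_ae5b4e_an_PN

open Set Filter Topology Real MeasureTheory intervalIntegral
open scoped ContDiff
open Pool.Agent.MP_ae5b4e_an_hopf
open Pool.Agent.MP_ae5b4e_an_hopf.Sys (nt nc)
open Pool.Agent.MP_ae5b4e_an_ALT

/-- The logarithm of the potential on the leaves with the parameters between `0` and `b`. -/
structure CB (T : ℝ) (Γ : ℝ → Fin 3 → ℝ) (U : ℝ → ℝ → ℝ) (b : ℝ) (φ : ℝ × ℝ → ℝ) : Prop where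
  b1 : b ≤ 1
  smooth : ContDiffOn ℝ ∞ φ (Ioo 0 b ×ˢ univ)
  per : ∀ c ∈ Ioo 0 b, ∀ t, φ (c, t + T) = φ (c, t)
  rel : ∀ c ∈ Ioo 0 b, ∀ t, φ (c, nxt Γ T U c t) - φ (c, t) = dl Γ t (nxt Γ T U c t)

/-- the derivative of the potential in the coordinate of the tangent line -/
def pp (U : ℝ → ℝ → ℝ) (φ : ℝ × ℝ → ℝ) (c t : ℝ) : ℝ := P1 φ (c, t) / Uc U (c, t)

/-- the density of the leaf integral -/
def BI (Γ : ℝ → Fin 3 → ℝ) (T : ℝ) (U : ℝ → ℝ → ℝ) (φ : ℝ × ℝ → ℝ) (c t : ℝ) : ℝ :=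
  dl Γ t (nxt Γ T U c t) * (KK Γ t (nxt Γ T U c t) * pp U φ c t * nt Γ T U c t -
    KK Γ (nxt Γ T U c t) t * pp U φ c (nxt Γ T U c t))

/-- the leaf integral -/
def BB (Γ : ℝ → Fin 3 → ℝ) (T : ℝ) (U : ℝ → ℝ → ℝ) (φ : ℝ × ℝ → ℝ) (c : ℝ) : ℝ :=
  ∫ t in (0)..T, BI Γ T U φ c t

/-- the density of the derivative of the leaf integral -/
def EI (Γ : ℝ → Fin 3 → ℝ) (T : ℝ) (U : ℝ → ℝ → ℝ) (φ : ℝ × ℝ → ℝ) (c t : ℝ) : ℝ :=
  nc Γ T U c t * ((KK Γ t (nxt Γ T U c t) * pp U φ c t * nt Γ T U c t -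
    KK Γ (nxt Γ T U c t) t * pp U φ c (nxt Γ T U c t)) ^ 2 / nt Γ T U c t +
    dl Γ t (nxt Γ T U c t) * (KK Γ (nxt Γ T U c t) t - KK Γ t (nxt Γ T U c t)))

end Pool.Agent.MP_ae5b4e_an_PN
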