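import Mathlib
import Pool.Agent.Lib.MP_ae5b4e_an_PN.Defs
import Pool.Agent.Lib.MP_ae5b4e_an_P3.Red
import Pool.Agent.Lib.MP_ae5b4e_an_P3.MonB

/-!
# MP_ae5b4e_an, project PN: the maps of the leaves are conjugate to rotations

The geometric data with an angle function `h`: on the open collar `0 < c < b` the map `t ↦ s` of the
leaf `c` is the rotation `h ↦ h + ρ c`, and `h` is smooth in `c` and `t`.  Equivalently, the map of
the open collar preserves a smooth area form.  Nothing is assumed near the curve, `c → 0`.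
-/

noncomputable section

namespace Pool.Agent.MP_ae5b4e_an_PN

open Set Filter Topology Real MeasureTheory intervalIntegral
open scoped ContDiff
open Pool.Agent.MP_ae5b4e_an_hopf
open Pool.Agent.MP_ae5b4e_an_hopf.Sys (nt nc)
open Pool.Agent.MP_ae5b4e_an_RG
open Pool.Agent.MP_ae5b4e_an_ALT (SSys)
open Pool.Agent.MP_ae5b4e_an_RIG (Sol Normal lift rU)
open Pool.Agent.MP_ae5b4e_an_P3.Mn (comp2 contDiffOn_P1 contDiffOn_P2)

/-! ## The normal form -/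

/-- an angle function in the normal form -/
structure Ang (T : ℝ) (Γ : ℝ → Fin 3 → ℝ) (U : ℝ → ℝ → ℝ) (b : ℝ) (H : ℝ × ℝ → ℝ) (ρ : ℝ → ℝ) :
    Prop where
  b1 : b ≤ 1
  smooth : ContDiffOn ℝ ∞ H (Ioo 0 b ×ˢ univ)
  pos : ∀ c ∈ Ioo 0 b, ∀ t, 0 < P2 H (c, t)
  per : ∀ c ∈ Ioo 0 b, ∀ t, H (c, t + T) = H (c, t) + 1
  rot : ∀ c ∈ Ioo 0 b, ∀ t, H (c, nxt Γ T U c t) = H (c, t) + ρ c

/-- the potential of an angle function -/
def phiH (U : ℝ → ℝ → ℝ) (H : ℝ × ℝ → ℝ) (q : ℝ × ℝ) : ℝ :=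
  (log (-Uc U q) - log (P2 H q)) / 3

section

variable {Γ : ℝ → Fin 3 → ℝ} {T : ℝ} {U : ℝ → ℝ → ℝ} {b : ℝ} {H : ℝ × ℝ → ℝ} {ρ : ℝ → ℝ}

lemma Ang.deriv_t (hH : Ang T Γ U b H ρ) {c : ℝ} (hc : c ∈ Ioo 0 b) (t : ℝ) :
    HasDerivAt (fun t => H (c, t)) (P2 H (c, t)) t := by
  have := comp2 (isOpen_Ioo.prod isOpen_univ) hH.smooth (hasDerivAt_const t c) (hasDerivAt_id t)
    ⟨hc, mem_univ _⟩
  simpa using this

lemma Ang.strictMono (hH : Ang T Γ U b H ρ) {c : ℝ} (hc : c ∈ Ioo 0 b) :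
    StrictMono fun t => H (c, t) :=
  strictMono_of_hasDerivAt_pos (hH.deriv_t hc) (hH.pos c hc)

/-- the density `H_t` is invariant -/
lemma Ang.dens (hH : Ang T Γ U b H ρ) (h : SSys T Γ U) {c : ℝ} (hc : c ∈ Ioo 0 b) (t : ℝ) :
    P2 H (c, nxt Γ T U c t) * nt Γ T U c t = P2 H (c, t) := by
  have hc1 : c ∈ Ioo (0:ℝ) 1 := ⟨hc.1, hc.2.trans_le hH.b1⟩
  have k1 := (hH.deriv_t hc (nxt Γ T U c t)).comp t (h.hasDerivAt_nxt_t hc1 t)
  have k2 := (hH.deriv_t hc t).add_const (ρ c)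
  have e : (fun t => H (c, t)) ∘ nxt Γ T U c = fun t => H (c, t) + ρ c :=
    funext fun t => hH.rot c hc t
  rw [e] at k1
  exact k1.unique k2

/-- **The potential of an angle function.** -/
theorem Ang.cb (hH : Ang T Γ U b H ρ) (h : SSys T Γ U) (hW : ∀ y, Wr Γ y = 1) :
    CB T Γ U b (phiH U H) := by
  have hJ : IsOpen (Ioo 0 b ×ˢ (univ : Set ℝ)) := isOpen_Ioo.prod isOpen_univ
  have hsub : Ioo 0 b ×ˢ (univ : Set ℝ) ⊆ Ioo (0:ℝ) 1 ×ˢ univ :=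
    prod_mono (Ioo_subset_Ioo_right hH.b1) Subset.rfl
  have hUs : ContDiffOn ℝ ∞ (fun q => Uc U q) (Ioo 0 b ×ˢ univ) :=
    (contDiffOn_P1 (isOpen_Ioo.prod isOpen_univ) h.smooth).mono hsub
  refine ⟨hH.b1, ?_, ?_, ?_⟩
  · refine ((hUs.neg.log fun q hq => ?_).sub ((contDiffOn_P2 hJ hH.smooth).log fun q hq => ?_)).div_const
      3
    · have := h.Uc_neg (c := q.1) ⟨hq.1.1, hq.1.2.trans_le hH.b1⟩ q.2
      exact (neg_pos.2 this).ne'
    · exact (hH.pos q.1 hq.1 q.2).ne'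
  · intro c hc t
    have hc1 : c ∈ Ioo (0:ℝ) 1 := ⟨hc.1, hc.2.trans_le hH.b1⟩
    have e : P2 H (c, t + T) = P2 H (c, t) := by
      have k1 := (hH.deriv_t hc (t + T)).comp_add_const t T
      have k2 := (hH.deriv_t hc t).add_const 1
      have e : (fun x => H (c, x + T)) = fun x => H (c, x) + 1 := funext (hH.per c hc)
      rw [e] at k1
      exact k1.unique k2
    unfold phiH
    rw [h.Uc_per hc1, e]
  · intro c hc t
    have hc1 : c ∈ Ioo (0:ℝ) 1 := ⟨hc.1, hc.2.trans_le hH.b1⟩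
    obtain ⟨a1, a2, -⟩ := h.nxt_spec c t
    have hinv := h.invariance hc1 t
    have hd := hH.dens h hc t
    have hA := h.curve.dd_pos_right a1 a2
    have hB := h.curve.dd_pos_left a1 a2
    have hn := h.nt_pos hc1 t
    have w1 := neg_pos.2 (h.Uc_neg hc1 t)
    have w2 := neg_pos.2 (h.Uc_neg hc1 (nxt Γ T U c t))
    have p1 := hH.pos c hc t
    have p2 := hH.pos c hc (nxt Γ T U c t)
    unfold KK at hinv
    rw [hW, hW, one_mul, one_mul] at hinv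
    unfold phiH dl
    set s := nxt Γ T U c t with hs
    set A := dd Γ t s
    set B := dd Γ s t
    have e1 : (-Uc U (c, s)) * nt Γ T U c t * B ^ 3 = A ^ 3 * (-Uc U (c, t)) := by
      field_simp at hinv
      linear_combination -hinv
    have e2 := congrArg log e1
    rw [log_mul (by positivity) (by positivity), log_mul w2.ne' hn.ne',
      log_mul (by positivity) w1.ne', log_pow, log_pow] at e2
    have e3 := congrArg log hd
    rw [log_mul p2.ne' hn.ne'] at e3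
    push_cast at e2
    linarith

/-- the angle function along the orbits -/
lemma Ang.iter (hH : Ang T Γ U b H ρ) {c : ℝ} (hc : c ∈ Ioo 0 b) (m : ℕ) (t : ℝ) :
    H (c, (nxt Γ T U c)^[m] t) = H (c, t) + m * ρ c := by
  induction m with
  | zero => simp
  | succ m ih =>
    rw [Function.iterate_succ_apply', hH.rot c hc, ih]
    push_cast
    ring

/-- if the rotation number is at least `1 / m` then `m` steps go around the curve -/
theorem Ang.reach (hH : Ang T Γ U b H ρ) {c : ℝ} (hc : c ∈ Ioo 0 b) {m : ℕ} (hm : 0 < m)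
    (hρ : 1 / (m : ℝ) ≤ ρ c) (t : ℝ) : t + T ≤ (nxt Γ T U c)^[m] t := by
  have hm' : (0:ℝ) < m := by exact_mod_cast hm
  have k := hH.iter (Γ := Γ) hc m t
  have k2 := hH.per c hc t
  have k3 : 1 ≤ m * ρ c := by
    rw [div_le_iff₀ hm'] at hρ
    linarith
  exact (hH.strictMono hc).le_iff_le.1 (by linarith)

end

/-! ## The geometric data -/

/-- the geometric data: a smooth foliation with projective involutions, and an angle function on the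
open collar `0 < c < b` -/
structure GeoH (γ : ConvexCurve) (U : ℝ → ℝ → ℝ) (κ : ℝ → ℝ) (b : ℝ) (h : ℝ → ℝ → ℝ)
    (ρ : ℝ → ℝ) : Prop where
  smooth : ContDiffOn ℝ ∞ (fun q : ℝ × ℝ => U q.1 q.2) (Ioo 0 1 ×ˢ univ)
  per : ∀ c ∈ Ioo (0:ℝ) 1, ∀ t, U c (t + γ.T) = U c t
  simple : ∀ c ∈ Ioo (0:ℝ) 1, ∀ t t', γ.pt t (U c t) = γ.pt t' (U c t') →
    ∃ n : ℤ, t' = t + n * γ.T
  mono : ∀ c ∈ Ioo (0:ℝ) 1, ∀ t, deriv (fun r => U r t) c < 0
  lim : ∀ t, Tendsto (fun c => U c t) (𝓝[>] 0) atTop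
  proj : ∀ c ∈ Ioo (0:ℝ) 1, ∀ t u v, u ≠ v → γ.pt t u ∈ γ.leaf U c →
    γ.pt t v ∈ γ.leaf U c → u + v = κ t
  b1 : b ≤ 1
  smoothH : ContDiffOn ℝ ∞ (fun q : ℝ × ℝ => h q.1 q.2) (Ioo 0 b ×ˢ univ)
  posH : ∀ c ∈ Ioo 0 b, ∀ t, 0 < deriv (h c) t
  perH : ∀ c ∈ Ioo 0 b, ∀ t, h c (t + γ.T) = h c t + 1
  rotH : ∀ c ∈ Ioo 0 b, ∀ t s v, t < s → s < t + γ.T → γ.pt t (U c t) = γ.pt s v →
    h c s = h c t + ρ c

section

variable {γ : ConvexCurve} {U : ℝ → ℝ → ℝ} {κ : ℝ → ℝ} {b : ℝ} {h : ℝ → ℝ → ℝ} {ρ : ℝ → ℝ}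

theorem GeoH.sol (hG : GeoH γ U κ b h ρ) : Sol γ U κ where
  cont := hG.smooth.continuousOn
  per := hG.per
  simple := hG.simple
  anti := strictAnti_of_deriv hG.smooth hG.mono
  lim := hG.lim
  reg := Or.inr ⟨hG.smooth, hG.mono⟩
  proj := hG.proj

/-- the angle function at the next tangency point -/
lemma GeoH.rot_nxt (hG : GeoH γ U κ b h ρ) {c : ℝ} (hc : c ∈ Ioo 0 b) (t : ℝ) :
    h c (nxt γ.Γ γ.T U c t) = h c t + ρ c := by
  have hc1 : c ∈ Ioo (0:ℝ) 1 := ⟨hc.1, hc.2.trans_le hG.b1⟩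
  obtain ⟨hts, hst, hL⟩ := hG.sol.lsys.nxt_spec c t
  have hC := γ.isCurve
  have n1 := (hC.dd_pos_right hts hst).ne'
  have n2 := (hC.dd_pos_left hts hst).ne'
  exact hG.rotH c hc t _ _ hts hst (γ.pt_inter n1 n2 hL).symm

/-- (E) The angle function in the normal form. -/
theorem GeoH.ang (hG : GeoH γ U κ b h ρ) {σ lam r m : ℝ → ℝ} (hN : Normal γ κ σ lam r m) :
    Ang 1 (lift γ σ lam) (rU κ σ U) b (fun q => h q.1 (σ q.2)) ρ := by
  have hσs := hN.smooth_σ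
  have hsm : ContDiffOn ℝ ∞ (fun q : ℝ × ℝ => h q.1 (σ q.2)) (Ioo 0 b ×ˢ univ) := by
    have k1 : ContDiffOn ℝ ∞ (fun q : ℝ × ℝ => (q.1, σ q.2)) (Ioo 0 b ×ˢ univ) :=
      (contDiff_fst.prodMk (hσs.comp contDiff_snd)).contDiffOn
    exact hG.smoothH.comp k1 fun q hq => ⟨hq.1, mem_univ _⟩
  refine ⟨hG.b1, hsm, ?_, ?_, ?_⟩
  · intro c hc t
    have hd : HasDerivAt (h c) (deriv (h c) (σ t)) (σ t) :=
      (differentiableAt_of_deriv_ne_zero (hG.posH c hc (σ t)).ne').hasDerivAt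
    have k1 : HasDerivAt (fun s => h c (σ s)) (deriv (h c) (σ t) * deriv σ t) t :=
      hd.comp t ((hσs.differentiable (by simp) t).hasDerivAt)
    have k2 := comp2 (isOpen_Ioo.prod isOpen_univ) hsm (hasDerivAt_const t c) (hasDerivAt_id t)
      ⟨hc, mem_univ _⟩
    have k3 := k1.unique (by simpa using k2)
    have k4 := mul_pos (hG.posH c hc (σ t)) (hN.pos_σ t)
    rw [k3] at k4
    exact k4
  · intro c hc t
    show h c (σ (t + 1)) = h c (σ t) + 1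
    rw [hN.per_σ, hG.perH c hc]
  · intro c hc t
    have hc1 : c ∈ Ioo (0:ℝ) 1 := ⟨hc.1, hc.2.trans_le hG.b1⟩
    obtain ⟨g1, g2⟩ := Pool.Agent.MP_ae5b4e_an_RIG.gauge hG.sol.lsys hN.smooth_σ hN.pos_σ hN.per_σ
      hN.smooth_lam hN.pos_lam hN.eq_lam (Pool.Agent.MP_ae5b4e_an_ALM.wr_pos hN)
    show h c (σ (nxt (lift γ σ lam) 1 (rU κ σ U) c t)) = h c (σ t) + ρ c
    have k : σ (nxt (lift γ σ lam) 1 (rU κ σ U) c t) = nxt γ.Γ γ.T U c (σ t) := g2 c hc1 t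
    rw [k, hG.rot_nxt hc]

/-- (E) The normal form. -/
theorem GeoH.norm (hG : GeoH γ U κ b h ρ) :
    ∃ (σ lam r m : ℝ → ℝ), Normal γ κ σ lam r m ∧ SSys 1 (lift γ σ lam) (rU κ σ U) ∧
      (∀ x, Wr (lift γ σ lam) x = 1) ∧
      Ang 1 (lift γ σ lam) (rU κ σ U) b (fun q => h q.1 (σ q.2)) ρ ∧
      CB 1 (lift γ σ lam) (rU κ σ U) b (phiH (rU κ σ U) fun q => h q.1 (σ q.2)) := by
  obtain ⟨σ, lam, r, m, hN⟩ := hG.sol.exists_normal
  have hS := Pool.Agent.MP_ae5b4e_an_ALT.ssys_of_sol hG.sol hG.smooth hG.mono hN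
  exact ⟨σ, lam, r, m, hN, hS, hN.wr, hG.ang hN, (hG.ang hN).cb hS hN.wr⟩

end

end Pool.Agent.MP_ae5b4e_an_PN
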