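import Mathlib
import Pool.Agent.Lib.MP_ae5b4e_an_total.Leaf

/-!
# MP_ae5b4e_an, project PN: the mean along the orbits of a periodic circle map

Let `f` be a circle map all points of which are `q`-periodic with rotation number `1 / q`.  The
integral `∫ φ (φ ∘ f - φ)'` is bounded by the oscillation of `φ` along the orbits of `f` and by the
variation of `φ ∘ f - φ`.
-/

noncomputable section

namespace Pool.Agent.MP_ae5b4e_an_PN

open Set Filter Topology Real MeasureTheory intervalIntegral
open Pool.Agent.MP_ae5b4e_an_total (integral_comp_tau)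

/-- the derivative of the iterates -/
def dk (f f' : ℝ → ℝ) : ℕ → ℝ → ℝ
  | 0, _ => 1
  | k + 1, t => f' (f^[k] t) * dk f f' k t

section

variable {f f' : ℝ → ℝ} {T : ℝ} (hf : ∀ t, HasDerivAt f (f' t) t)
include hf

lemma hasDerivAt_iter (k : ℕ) (t : ℝ) : HasDerivAt (f^[k]) (dk f f' k t) t := by
  induction k with
  | zero => simpa [dk] using hasDerivAt_id t
  | succ k ih =>
    rw [Function.iterate_succ']
    exact (hf _).comp t ih

lemma continuous_iter (k : ℕ) : Continuous (f^[k]) :=
  continuous_iff_continuousAt.2 fun t => (hasDerivAt_iter hf k t).continuousAt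

lemma continuous_dk (hf' : Continuous f') (k : ℕ) : Continuous (dk f f' k) := by
  induction k with
  | zero =>
    have : dk f f' 0 = fun _ => 1 := rfl
    rw [this]
    exact continuous_const
  | succ k ih =>
    have : dk f f' (k + 1) = fun t => f' (f^[k] t) * dk f f' k t := rfl
    rw [this]
    exact (hf'.comp (continuous_iter hf k)).mul ih

omit hf in
lemma dk_pos (hfp : ∀ t, 0 < f' t) (k : ℕ) (t : ℝ) : 0 < dk f f' k t := by
  induction k with
  | zero => exact one_pos
  | succ k ih => exact mul_pos (hfp _) ih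

omit hf in
lemma iter_shift (hfT : ∀ t, f (t + T) = f t + T) (k : ℕ) (t : ℝ) :
    f^[k] (t + T) = f^[k] t + T := by
  induction k with
  | zero => rfl
  | succ k ih => rw [Function.iterate_succ_apply', Function.iterate_succ_apply', ih, hfT]

/-- the change of variables by an iterate -/
lemma integral_comp_iter (hf' : Continuous f') (hfT : ∀ t, f (t + T) = f t + T) {F : ℝ → ℝ}
    (hF : Continuous F) (hFp : ∀ t, F (t + T) = F t) (k : ℕ) :
    ∫ t in (0)..T, F (f^[k] t) * dk f f' k t = ∫ t in (0)..T, F t :=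
  integral_comp_tau (hasDerivAt_iter hf k) (continuous_dk hf hf' k)
    (by simpa using iter_shift hfT k 0) hF hFp

end

/-- **The mean along the orbits.** -/
theorem avg_bound {f f' φ φ' : ℝ → ℝ} {T : ℝ} (hT : 0 < T) (hf : ∀ t, HasDerivAt f (f' t) t)
    (hf' : Continuous f') (hfp : ∀ t, 0 < f' t) (hfT : ∀ t, f (t + T) = f t + T)
    (hφ : ∀ t, HasDerivAt φ (φ' t) t) (hφ' : Continuous φ') (hφp : ∀ t, φ (t + T) = φ t)
    {q : ℕ} (hq : 0 < q) (hper : ∀ t, f^[q] t = t + T) {M : ℝ}
    (hM : ∀ k < q, ∀ t, |φ (f^[k] t) - φ t| ≤ M) :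
    |∫ t in (0)..T, φ t * (φ' (f t) * f' t - φ' t)| ≤
      M * ∫ t in (0)..T, |φ' (f t) * f' t - φ' t| := by
  have cf : Continuous f := continuous_iff_continuousAt.2 fun t => (hf t).continuousAt
  have cφ : Continuous φ := continuous_iff_continuousAt.2 fun t => (hφ t).continuousAt
  set D : ℝ → ℝ := fun t => φ' (f t) * f' t - φ' t with hD
  have cD : Continuous D := ((hφ'.comp cf).mul hf').sub hφ'
  have hf'p : ∀ t, f' (t + T) = f' t := by
    intro t
    have k1 := (hf (t + T)).comp_add_const t T
    have k2 : HasDerivAt (fun x => f (x + T)) (f' t) t := by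
      have e : (fun x => f (x + T)) = fun x => f x + T := funext hfT
      rw [e]
      exact (hf t).add_const T
    exact k1.unique k2
  have hφ'p : ∀ t, φ' (t + T) = φ' t := by
    intro t
    have k1 := (hφ (t + T)).comp_add_const t T
    have k2 : HasDerivAt (fun x => φ (x + T)) (φ' t) t := by
      have e : (fun x => φ (x + T)) = φ := funext hφp
      rw [e]
      exact hφ t
    exact k1.unique k2
  have hDp : ∀ t, D (t + T) = D t := by
    intro t
    simp only [hD]
    rw [hfT, hφ'p, hφ'p, hf'p]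
  -- the telescoping sum
  have hder : ∀ (k : ℕ) (t : ℝ), HasDerivAt (fun t => φ (f^[k + 1] t) - φ (f^[k] t))
      (D (f^[k] t) * dk f f' k t) t := by
    intro k t
    have k1 := hasDerivAt_iter hf (k + 1) t
    have k2 := hasDerivAt_iter hf k t
    refine (((hφ _).comp t k1).sub ((hφ _).comp t k2)).congr_deriv ?_
    simp only [hD, dk]
    rw [Function.iterate_succ_apply']
    ring
  have htel : ∀ t, ∑ k ∈ Finset.range q, D (f^[k] t) * dk f f' k t = 0 := by
    intro t
    have k1 : HasDerivAt (fun t => ∑ k ∈ Finset.range q, (φ (f^[k + 1] t) - φ (f^[k] t)))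
        (∑ k ∈ Finset.range q, D (f^[k] t) * dk f f' k t) t :=
      HasDerivAt.fun_sum fun k _ => hder k t
    have e : (fun t => ∑ k ∈ Finset.range q, (φ (f^[k + 1] t) - φ (f^[k] t))) = fun _ => 0 := by
      funext t
      rw [Finset.sum_range_sub (fun k => φ (f^[k] t)), hper, hφp]
      simp
    rw [e] at k1
    exact k1.unique (hasDerivAt_const t 0)
  -- the terms
  have cI : ∀ k, Continuous (f^[k]) := continuous_iter hf
  have cdk : ∀ k, Continuous (dk f f' k) := continuous_dk hf hf'
  have c1 : ∀ k, Continuous fun t => (φ (f^[k] t) - φ t) * (D (f^[k] t) * dk f f' k t) := fun k =>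
    ((cφ.comp (cI k)).sub cφ).mul ((cD.comp (cI k)).mul (cdk k))
  have c2 : ∀ k, Continuous fun t => φ t * (D (f^[k] t) * dk f f' k t) := fun k =>
    cφ.mul ((cD.comp (cI k)).mul (cdk k))
  have e1 : ∀ k, ∫ t in (0)..T, φ t * D t =
      (∫ t in (0)..T, (φ (f^[k] t) - φ t) * (D (f^[k] t) * dk f f' k t)) +
        ∫ t in (0)..T, φ t * (D (f^[k] t) * dk f f' k t) := by
    intro k
    have k1 := integral_comp_iter hf hf' hfT (F := fun t => φ t * D t) (cφ.mul cD)
      (fun t => by rw [hφp, hDp]) k
    rw [← k1, ← intervalIntegral.integral_add ((c1 k).intervalIntegrable _ _)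
      ((c2 k).intervalIntegrable _ _)]
    refine intervalIntegral.integral_congr fun t _ => ?_
    ring
  have e2 : ∑ k ∈ Finset.range q, ∫ t in (0)..T, φ t * (D (f^[k] t) * dk f f' k t) = 0 := by
    rw [← intervalIntegral.integral_finsetSum fun k _ => (c2 k).intervalIntegrable _ _]
    have : ∀ t, ∑ k ∈ Finset.range q, φ t * (D (f^[k] t) * dk f f' k t) = 0 := fun t => by
      rw [← Finset.mul_sum, htel, mul_zero]
    simp only [this, intervalIntegral.integral_zero]
  have e3 : (q : ℝ) * ∫ t in (0)..T, φ t * D t =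
      ∑ k ∈ Finset.range q, ∫ t in (0)..T, (φ (f^[k] t) - φ t) * (D (f^[k] t) * dk f f' k t) := by
    have k1 : ∑ _k ∈ Finset.range q, ∫ t in (0)..T, φ t * D t =
        (q : ℝ) * ∫ t in (0)..T, φ t * D t := by
      rw [Finset.sum_const, Finset.card_range, nsmul_eq_mul]
    rw [← k1, Finset.sum_congr rfl fun k _ => e1 k, Finset.sum_add_distrib, e2, add_zero]
  -- the bound
  have e4 : ∀ k ∈ Finset.range q,
      |∫ t in (0)..T, (φ (f^[k] t) - φ t) * (D (f^[k] t) * dk f f' k t)| ≤
        M * ∫ t in (0)..T, |D t| := by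
    intro k hk
    rw [Finset.mem_range] at hk
    have k1 := integral_comp_iter hf hf' hfT (F := fun t => |D t|) cD.abs
      (fun t => by rw [hDp]) k
    have c3 : Continuous fun t => M * (|D (f^[k] t)| * dk f f' k t) :=
      continuous_const.mul (((cD.comp (cI k)).abs).mul (cdk k))
    have k2 : ‖∫ t in (0)..T, (φ (f^[k] t) - φ t) * (D (f^[k] t) * dk f f' k t)‖ ≤
        ∫ t in (0)..T, M * (|D (f^[k] t)| * dk f f' k t) := by
      refine intervalIntegral.norm_integral_le_of_norm_le hT.le
        (Eventually.of_forall fun t _ => ?_) (c3.intervalIntegrable _ _)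
      have hd := dk_pos (f := f) hfp k t
      rw [Real.norm_eq_abs, abs_mul, abs_mul, abs_of_pos hd]
      exact mul_le_mul_of_nonneg_right (hM k hk t) (by positivity)
    rw [intervalIntegral.integral_const_mul, k1] at k2
    exact k2
  have e5 : (q : ℝ) * |∫ t in (0)..T, φ t * D t| ≤ (q : ℝ) * (M * ∫ t in (0)..T, |D t|) := by
    have hq0 : (0:ℝ) ≤ q := q.cast_nonneg
    rw [← abs_of_nonneg hq0, ← abs_mul, e3, abs_of_nonneg hq0]
    refine (Finset.abs_sum_le_sum_abs _ _).trans ?_
    refine (Finset.sum_le_sum e4).trans ?_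
    rw [Finset.sum_const, Finset.card_range, nsmul_eq_mul]
  exact le_of_mul_le_mul_left e5 (by exact_mod_cast hq)

end Pool.Agent.MP_ae5b4e_an_PN
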