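import Mathlib
import Pool.Agent.Lib.MP_ae5b4e_an_PN.Defs
import Pool.Agent.Lib.MP_ae5b4e_an_P3.MonB

/-!
# MP_ae5b4e_an, project PN, (A): the leaf integral is monotone
-/

noncomputable section

namespace Pool.Agent.MP_ae5b4e_an_PN

open Set Filter Topology Real MeasureTheory intervalIntegral
open scoped ContDiff
open Pool.Agent.MP_ae5b4e_an_total (integral_comp_tau)
open Pool.Agent.MP_ae5b4e_an_hopf
open Pool.Agent.MP_ae5b4e_an_hopf.Sys (nt nc)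
open Pool.Agent.MP_ae5b4e_an_ALT
open Pool.Agent.MP_ae5b4e_an_P3.Mn (comp2 contDiffOn_P1 contDiffOn_P2 P1_P2_comm contDiffOn_nxt P1_nxt
  P2_nxt hasDerivAt_dl_left hasDerivAt_dl_right)

variable {Γ : ℝ → Fin 3 → ℝ} {T : ℝ} {U : ℝ → ℝ → ℝ} {b : ℝ} {φ : ℝ × ℝ → ℝ}

/-- Partial derivatives of a smooth function on a strip as derivatives of the slices. -/
lemma slice_c {I : Set ℝ} (hI : IsOpen I) {F : ℝ × ℝ → ℝ} (hF : ContDiffOn ℝ ∞ F (I ×ˢ univ))
    {c : ℝ} (hc : c ∈ I) (t : ℝ) : HasDerivAt (fun c => F (c, t)) (P1 F (c, t)) c := by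
  have := comp2 (hI.prod isOpen_univ) hF (hasDerivAt_id c) (hasDerivAt_const c t) ⟨hc, mem_univ _⟩
  simpa using this

lemma slice_t {I : Set ℝ} (hI : IsOpen I) {F : ℝ × ℝ → ℝ} (hF : ContDiffOn ℝ ∞ F (I ×ˢ univ))
    {c : ℝ} (hc : c ∈ I) (t : ℝ) : HasDerivAt (fun t => F (c, t)) (P2 F (c, t)) t := by
  have := comp2 (hI.prod isOpen_univ) hF (hasDerivAt_const t c) (hasDerivAt_id t) ⟨hc, mem_univ _⟩
  simpa using this

/-- The change of the integral over the circle of a smooth function of the parameter. -/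
theorem strip {T : ℝ} (hT : 0 < T) {I : Set ℝ} (hI : IsOpen I) {G A : ℝ × ℝ → ℝ}
    (hG : ContDiffOn ℝ ∞ G (I ×ˢ univ)) (hA : ContDiffOn ℝ ∞ A (I ×ˢ univ))
    (hAp : ∀ c ∈ I, ∀ t, A (c, t + T) = A (c, t)) {c₁ c₂ : ℝ} (h12 : c₁ ≤ c₂)
    (hI12 : Icc c₁ c₂ ⊆ I) :
    (∫ t in (0)..T, G (c₂, t)) - (∫ t in (0)..T, G (c₁, t)) =
    ∫ c in c₁..c₂, ∫ t in (0)..T, (P1 G (c, t) - P2 A (c, t)) := by
  have hJ : IsOpen (I ×ˢ (univ : Set ℝ)) := hI.prod isOpen_univ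
  have cdg := (contDiffOn_P1 hJ hG).continuousOn
  have cda := (contDiffOn_P2 hJ hA).continuousOn
  have slice : ∀ {F : ℝ × ℝ → ℝ}, ContinuousOn F (I ×ˢ univ) → ∀ c ∈ I,
      Continuous fun t => F (c, t) := fun hF c hc =>
    hF.comp_continuous (by fun_prop) fun t => ⟨hc, mem_univ _⟩
  have hleaf : ∀ c ∈ I, ∫ t in (0)..T, P1 G (c, t) =
      ∫ t in (0)..T, (P1 G (c, t) - P2 A (c, t)) := by
    intro c hc
    have i1 : IntervalIntegrable (fun t => P1 G (c, t)) volume 0 T :=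
      (slice cdg c hc).intervalIntegrable _ _
    have i2 : IntervalIntegrable (fun t => P2 A (c, t)) volume 0 T :=
      (slice cda c hc).intervalIntegrable _ _
    have k := intervalIntegral.integral_eq_sub_of_hasDerivAt (fun t _ => slice_t hI hA hc t) i2
    have hp := hAp c hc 0
    rw [zero_add] at hp
    rw [hp, sub_self] at k
    rw [intervalIntegral.integral_sub i1 i2, k, sub_zero]
  -- Fubini
  have hsub : Icc c₁ c₂ ×ˢ Icc 0 T ⊆ I ×ˢ (univ : Set ℝ) :=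
    fun q hq => ⟨hI12 hq.1, mem_univ _⟩
  have hint : IntegrableOn (Function.uncurry fun c t => P1 G (c, t)) (uIoc c₁ c₂ ×ˢ uIoc 0 T) := by
    have h3 : IntegrableOn (Function.uncurry fun c t => P1 G (c, t)) (Icc c₁ c₂ ×ˢ Icc 0 T) :=
      ContinuousOn.integrableOn_compact (isCompact_Icc.prod isCompact_Icc) (cdg.mono hsub)
    refine h3.mono_set ?_
    rw [uIoc_of_le h12, uIoc_of_le hT.le]
    exact prod_mono Ioc_subset_Icc_self Ioc_subset_Icc_self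
  have e1 := MeasureTheory.intervalIntegral_intervalIntegral_swap hint
  have hc1 : c₁ ∈ I := hI12 (left_mem_Icc.2 h12)
  have hc2 : c₂ ∈ I := hI12 (right_mem_Icc.2 h12)
  have e2 : ∫ t in (0)..T, (∫ c in c₁..c₂, P1 G (c, t)) =
      ∫ t in (0)..T, (G (c₂, t) - G (c₁, t)) := by
    refine intervalIntegral.integral_congr fun t _ => ?_
    have hcc : ContinuousOn (fun c => P1 G (c, t)) (uIcc c₁ c₂) := by
      rw [uIcc_of_le h12]
      exact cdg.comp (f := fun c : ℝ => (c, t)) (by fun_prop) fun c hc => ⟨hI12 hc, mem_univ _⟩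
    exact intervalIntegral.integral_eq_sub_of_hasDerivAt
      (fun c hc => slice_c hI hG (hI12 (by rwa [uIcc_of_le h12] at hc)) t) hcc.intervalIntegrable
  have e3 : ∫ c in c₁..c₂, (∫ t in (0)..T, P1 G (c, t)) =
      ∫ c in c₁..c₂, ∫ t in (0)..T, (P1 G (c, t) - P2 A (c, t)) := by
    refine intervalIntegral.integral_congr fun c hc => ?_
    rw [uIcc_of_le h12] at hc
    exact hleaf c (hI12 hc)
  have j1 : IntervalIntegrable (fun t => G (c₁, t)) volume 0 T :=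
    (slice hG.continuousOn c₁ hc1).intervalIntegrable _ _
  have j2 : IntervalIntegrable (fun t => G (c₂, t)) volume 0 T :=
    (slice hG.continuousOn c₂ hc2).intervalIntegrable _ _
  rw [← e3, e1, e2, intervalIntegral.integral_sub j2 j1]

/-! ### The functions on the strip -/

/-- `δ t (nxt t)` as a function of the leaf and the point -/
def DD (Γ : ℝ → Fin 3 → ℝ) (T : ℝ) (U : ℝ → ℝ → ℝ) (q : ℝ × ℝ) : ℝ :=
  dl Γ q.2 (nxt Γ T U q.1 q.2)

/-- the derivative of `δ` in the first variable -/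
def XX (Γ : ℝ → Fin 3 → ℝ) (T : ℝ) (U : ℝ → ℝ → ℝ) (q : ℝ × ℝ) : ℝ :=
  L1 Γ q.2 (nxt Γ T U q.1 q.2) - L2 Γ (nxt Γ T U q.1 q.2) q.2

section

variable (h : SSys T Γ U)
include h

/-- A smooth function on the region `t < s < t + T` along the leaves. -/
lemma leaf_smooth {g : ℝ × ℝ → ℝ} (hg : ∀ p ∈ Rg T, ContDiffAt ℝ ∞ g p) :
    ContDiffOn ℝ ∞ (fun q : ℝ × ℝ => g (q.2, nxt Γ T U q.1 q.2)) (Ioo 0 1 ×ˢ univ) := by
  intro q hq
  have k1 : ContDiffWithinAt ℝ ∞ (fun q : ℝ × ℝ => (q.2, nxt Γ T U q.1 q.2))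
      (Ioo 0 1 ×ˢ univ) q := contDiffWithinAt_snd.prodMk (contDiffOn_nxt h q hq)
  exact (hg _ ⟨(h.nxt_spec q.1 q.2).1, (h.nxt_spec q.1 q.2).2.1⟩).comp_contDiffWithinAt q k1

lemma smooth_DD : ContDiffOn ℝ ∞ (DD Γ T U) (Ioo 0 1 ×ˢ univ) := by
  refine leaf_smooth h (g := fun p => dl Γ p.1 p.2) fun p hp => ?_
  exact (h.curve.contDiff_dd.contDiffAt.log (h.curve.ne_right hp)).sub
    (h.curve.contDiff_dd'.contDiffAt.log (h.curve.ne_left hp))

lemma smooth_XX : ContDiffOn ℝ ∞ (XX Γ T U) (Ioo 0 1 ×ˢ univ) := by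
  refine leaf_smooth h (g := fun p => L1 Γ p.1 p.2 - L2 Γ p.2 p.1) fun p hp => ?_
  have n1 := h.curve.ne_right hp
  have n2 := h.curve.ne_left hp
  have e4 : ContDiffAt ℝ ∞ (fun p : ℝ × ℝ => L2 Γ p.2 p.1) p :=
    ContDiffAt.comp (f := fun p : ℝ × ℝ => (p.2, p.1)) (g := fun p : ℝ × ℝ => L2 Γ p.1 p.2) p
      (h.curve.contDiffAt_L2 (p := (p.2, p.1)) n2) (contDiff_snd.prodMk contDiff_fst).contDiffAt
  exact (h.curve.contDiffAt_L1 (p := p) n1).sub e4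

lemma P1_DD {c : ℝ} (hc : c ∈ Ioo (0:ℝ) 1) (t : ℝ) :
    P1 (DD Γ T U) (c, t) =
      (L2 Γ t (nxt Γ T U c t) - L1 Γ (nxt Γ T U c t) t) * nc Γ T U c t := by
  obtain ⟨a1, a2, -⟩ := h.nxt_spec c t
  have n1 := (h.curve.dd_pos_right a1 a2).ne'
  have n2 := (h.curve.dd_pos_left a1 a2).ne'
  have k4 := h.hasDerivAt_nxt_c hc t
  have k5 := (h.curve.hasDerivAt_log_comp (hasDerivAt_const c t) k4 n1).sub
    (h.curve.hasDerivAt_log_comp k4 (hasDerivAt_const c t) n2)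
  have k6 := (slice_c isOpen_Ioo (smooth_DD h) hc t).unique k5
  rw [k6]
  ring

lemma P2_DD {c : ℝ} (hc : c ∈ Ioo (0:ℝ) 1) (t : ℝ) :
    P2 (DD Γ T U) (c, t) = XX Γ T U (c, t) +
      (L2 Γ t (nxt Γ T U c t) - L1 Γ (nxt Γ T U c t) t) * nt Γ T U c t := by
  obtain ⟨a1, a2, -⟩ := h.nxt_spec c t
  have n1 := (h.curve.dd_pos_right a1 a2).ne'
  have n2 := (h.curve.dd_pos_left a1 a2).ne'
  have k4 := h.hasDerivAt_nxt_t hc t
  have k5 := (h.curve.hasDerivAt_log_comp (hasDerivAt_id t) k4 n1).sub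
    (h.curve.hasDerivAt_log_comp k4 (hasDerivAt_id t) n2)
  have k6 := (slice_t isOpen_Ioo (smooth_DD h) hc t).unique k5
  rw [k6]
  simp only [XX, id]
  ring

lemma P1_XX {c : ℝ} (hc : c ∈ Ioo (0:ℝ) 1) (t : ℝ) :
    P1 (XX Γ T U) (c, t) =
      (KK Γ t (nxt Γ T U c t) - KK Γ (nxt Γ T U c t) t) * nc Γ T U c t := by
  obtain ⟨a1, a2, -⟩ := h.nxt_spec c t
  have n1 := (h.curve.dd_pos_right a1 a2).ne'
  have n2 := (h.curve.dd_pos_left a1 a2).ne'
  have k4 := h.hasDerivAt_nxt_c hc t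
  have k5 := (((h.curve.hasDerivAt_L1_right n1).sub (h.curve.hasDerivAt_L2_left n2))).comp c k4
  exact (slice_c isOpen_Ioo (smooth_XX h) hc t).unique k5

lemma DD_per {c : ℝ} (hc : c ∈ Ioo (0:ℝ) 1) (t : ℝ) : DD Γ T U (c, t + T) = DD Γ T U (c, t) := by
  unfold DD
  simp only
  rw [h.nxt_per hc, h.curve.dl_per_left, h.curve.dl_per_right]

/-- the potential at the next point -/
lemma smooth_next (hφ : CB T Γ U b φ) :
    ContDiffOn ℝ ∞ (fun q : ℝ × ℝ => φ (q.1, nxt Γ T U q.1 q.2)) (Ioo 0 b ×ˢ univ) := by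
  have k1 : ContDiffOn ℝ ∞ (fun q : ℝ × ℝ => (q.1, nxt Γ T U q.1 q.2)) (Ioo 0 b ×ˢ univ) :=
    contDiffOn_fst.prodMk ((contDiffOn_nxt h).mono
      (prod_mono (Ioo_subset_Ioo_right hφ.b1) Subset.rfl))
  exact hφ.smooth.comp k1 fun q hq => ⟨hq.1, mem_univ _⟩

end

/-- the derivatives of the relation: in the parameter of the leaf and along the leaf
(`δ_x = L1 t s - L2 s t`, `δ_y = L2 t s - L1 s t`) -/
theorem CB.rel_c (hφ : CB T Γ U b φ) (h : SSys T Γ U) {c : ℝ} (hc : c ∈ Ioo 0 b) (t : ℝ) :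
    P1 φ (c, nxt Γ T U c t) + P2 φ (c, nxt Γ T U c t) * nc Γ T U c t - P1 φ (c, t) =
      (L2 Γ t (nxt Γ T U c t) - L1 Γ (nxt Γ T U c t) t) * nc Γ T U c t := by
  have hc1 : c ∈ Ioo (0:ℝ) 1 := ⟨hc.1, hc.2.trans_le hφ.b1⟩
  have k1 := comp2 (isOpen_Ioo.prod isOpen_univ) hφ.smooth (hasDerivAt_id c)
    (h.hasDerivAt_nxt_c hc1 t) ⟨hc, mem_univ _⟩
  have k2 := k1.sub (slice_c isOpen_Ioo hφ.smooth hc t)
  have k3 := slice_c isOpen_Ioo (smooth_DD h) hc1 t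
  rw [P1_DD h hc1] at k3
  have k4 := k3.congr_of_eventuallyEq (f₁ := fun c => φ (c, nxt Γ T U c t) - φ (c, t)) (by
    filter_upwards [Ioo_mem_nhds hc.1 hc.2] with r hr
    exact hφ.rel r hr t)
  have k5 := k2.unique k4
  simpa using k5

theorem CB.rel_t (hφ : CB T Γ U b φ) (h : SSys T Γ U) {c : ℝ} (hc : c ∈ Ioo 0 b) (t : ℝ) :
    P2 φ (c, nxt Γ T U c t) * nt Γ T U c t - P2 φ (c, t) =
      (L1 Γ t (nxt Γ T U c t) - L2 Γ (nxt Γ T U c t) t) +
      (L2 Γ t (nxt Γ T U c t) - L1 Γ (nxt Γ T U c t) t) * nt Γ T U c t := by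
  have hc1 : c ∈ Ioo (0:ℝ) 1 := ⟨hc.1, hc.2.trans_le hφ.b1⟩
  have k1 := comp2 (isOpen_Ioo.prod isOpen_univ) hφ.smooth (hasDerivAt_const t c)
    (h.hasDerivAt_nxt_t hc1 t) ⟨hc, mem_univ _⟩
  have k2 := k1.sub (slice_t isOpen_Ioo hφ.smooth hc t)
  have k3 := slice_t isOpen_Ioo (smooth_DD h) hc1 t
  rw [P2_DD h hc1] at k3
  have k4 := k3.congr_of_eventuallyEq (f₁ := fun t => φ (c, nxt Γ T U c t) - φ (c, t))
    (Eventually.of_forall fun r => hφ.rel c hc r)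
  have k5 := k2.unique k4
  simp only [mul_zero, zero_add] at k5
  exact k5

/-- The bracket of `BI` and `EI`. -/
lemma CB.bracket (hφ : CB T Γ U b φ) (h : SSys T Γ U) {c : ℝ} (hc : c ∈ Ioo 0 b) (t : ℝ) :
    KK Γ t (nxt Γ T U c t) * pp U φ c t * nt Γ T U c t -
      KK Γ (nxt Γ T U c t) t * pp U φ c (nxt Γ T U c t) =
    nt Γ T U c t * (P1 φ (c, nxt Γ T U c t) - P1 φ (c, t)) / nc Γ T U c t := by
  have hc1 : c ∈ Ioo (0:ℝ) 1 := ⟨hc.1, hc.2.trans_le hφ.b1⟩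
  obtain ⟨a1, a2, a3⟩ := h.nxt_spec c t
  have hK := (h.curve.KK_pos_right a1 a2).ne'
  have hK' := (h.curve.KK_pos_left a1 a2).ne'
  have hn := (h.nt_pos hc1 t).ne'
  have hm := (h.nc_pos hc1 t).ne'
  have e1 := h.eq_t hc1 t
  have e2 := h.eq_c hc1 t
  have e4 : nc Γ T U c t * KK Γ t (nxt Γ T U c t) = -Uc U (c, t) := by
    unfold nc; field_simp
  unfold pp
  set s := nxt Γ T U c t
  set n := nt Γ T U c t
  set m := nc Γ T U c t
  set K := KK Γ t s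
  set K' := KK Γ s t
  set w := Uc U (c, t)
  set v := Uc U (c, s)
  set q := Ut U (c, s)
  have f2 : L11 Γ s t = q - K' / n := by
    field_simp
    linarith
  have f3 : w = -(m * K) := by linarith
  have f4 : v = -((q - L11 Γ s t) * m) := by linarith
  have f5 : v = -(K' / n * m) := by rw [f4, f2]; ring
  rw [f3, f5]
  field_simp
  ring

/-- The integrand of the leaf integral up to a total derivative. -/
def GG (Γ : ℝ → Fin 3 → ℝ) (T : ℝ) (U : ℝ → ℝ → ℝ) (φ : ℝ × ℝ → ℝ) (q : ℝ × ℝ) : ℝ :=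
  φ q * P2 (DD Γ T U) q - DD Γ T U q * XX Γ T U q

section

variable (h : SSys T Γ U) (hφ : CB T Γ U b φ)
include h hφ

lemma sub1 : Ioo 0 b ×ˢ (univ : Set ℝ) ⊆ Ioo (0:ℝ) 1 ×ˢ univ :=
  prod_mono (Ioo_subset_Ioo_right hφ.b1) Subset.rfl

lemma smooth_GG : ContDiffOn ℝ ∞ (GG Γ T U φ) (Ioo 0 b ×ˢ univ) :=
  (hφ.smooth.mul ((contDiffOn_P2 (isOpen_Ioo.prod isOpen_univ) (smooth_DD h)).mono
    (sub1 h hφ))).sub (((smooth_DD h).mono (sub1 h hφ)).mul ((smooth_XX h).mono (sub1 h hφ)))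

/-- the derivative of the integrand -/
lemma pointwise {c : ℝ} (hc : c ∈ Ioo 0 b) (t : ℝ) :
    P1 (GG Γ T U φ) (c, t) - P2 (fun q => φ q * P1 (DD Γ T U) q) (c, t) =
      -(P1 φ (c, t) * P2 φ (c, t)) + P1 φ (c, nxt Γ T U c t) * P2 φ (c, nxt Γ T U c t) *
        nt Γ T U c t + EI Γ T U φ c t := by
  have hc1 : c ∈ Ioo (0:ℝ) 1 := ⟨hc.1, hc.2.trans_le hφ.b1⟩
  have hJ : IsOpen (Ioo (0:ℝ) 1 ×ˢ (univ : Set ℝ)) := isOpen_Ioo.prod isOpen_univ
  have hm : (c, t) ∈ Ioo (0:ℝ) 1 ×ˢ (univ : Set ℝ) := ⟨hc1, mem_univ _⟩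
  have g2 := contDiffOn_P2 hJ (smooth_DD h)
  have g1 := contDiffOn_P1 hJ (smooth_DD h)
  have k1 : P1 (GG Γ T U φ) (c, t) = (P1 φ (c, t) * P2 (DD Γ T U) (c, t) +
      φ (c, t) * P1 (P2 (DD Γ T U)) (c, t)) -
      (P1 (DD Γ T U) (c, t) * XX Γ T U (c, t) + DD Γ T U (c, t) * P1 (XX Γ T U) (c, t)) := by
    refine (slice_c isOpen_Ioo (smooth_GG h hφ) hc t).unique ?_
    exact ((slice_c isOpen_Ioo hφ.smooth hc t).mul (slice_c isOpen_Ioo g2 hc1 t)).sub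
      ((slice_c isOpen_Ioo (smooth_DD h) hc1 t).mul (slice_c isOpen_Ioo (smooth_XX h) hc1 t))
  have k2 : P2 (fun q => φ q * P1 (DD Γ T U) q) (c, t) = P2 φ (c, t) * P1 (DD Γ T U) (c, t) +
      φ (c, t) * P2 (P1 (DD Γ T U)) (c, t) := by
    have hs : ContDiffOn ℝ ∞ (fun q => φ q * P1 (DD Γ T U) q) (Ioo 0 b ×ˢ univ) :=
      hφ.smooth.mul (g1.mono (sub1 h hφ))
    refine (slice_t isOpen_Ioo hs hc t).unique ?_
    exact (slice_t isOpen_Ioo hφ.smooth hc t).mul (slice_t isOpen_Ioo g1 hc1 t)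
  have hcomm := P1_P2_comm hJ (smooth_DD h) hm
  rw [k1, k2, hcomm, P1_XX h hc1, P2_DD h hc1, P1_DD h hc1]
  have r1 := hφ.rel_c h hc t
  have r2 := hφ.rel_t h hc t
  have hb := hφ.bracket h hc t
  have hn := (h.nt_pos hc1 t).ne'
  have hmn := (h.nc_pos hc1 t).ne'
  unfold EI
  rw [hb]
  have hX : XX Γ T U (c, t) = L1 Γ t (nxt Γ T U c t) - L2 Γ (nxt Γ T U c t) t := rfl
  have hD : DD Γ T U (c, t) = dl Γ t (nxt Γ T U c t) := rfl
  rw [hX, hD]
  set s := nxt Γ T U c t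
  set n := nt Γ T U c t
  set m := nc Γ T U c t
  set δy := L2 Γ t s - L1 Γ s t
  set δx := L1 Γ t s - L2 Γ s t
  set y := P2 φ (c, s)
  set x := P2 φ (c, t)
  set q := P1 φ (c, s)
  set p := P1 φ (c, t)
  have f1 : δy = (q - p) / m + y := by
    field_simp
    linarith
  have f2 : δx = y * n - x - δy * n := by linarith
  rw [f2, f1]
  field_simp
  ring

/-- the line integral is the leaf integral -/
lemma line_eq {c : ℝ} (hc : c ∈ Ioo 0 b) :
    ∫ t in (0)..T, GG Γ T U φ (c, t) = BB Γ T U φ c := by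
  have hc1 : c ∈ Ioo (0:ℝ) 1 := ⟨hc.1, hc.2.trans_le hφ.b1⟩
  have hs : ContDiffOn ℝ ∞ (fun q => φ q * DD Γ T U q) (Ioo 0 b ×ˢ univ) :=
    hφ.smooth.mul ((smooth_DD h).mono (sub1 h hφ))
  have hd : ∀ t, HasDerivAt (fun t => φ (c, t) * DD Γ T U (c, t))
      (GG Γ T U φ (c, t) - BI Γ T U φ c t) t := by
    intro t
    refine ((slice_t isOpen_Ioo hφ.smooth hc t).mul
      (slice_t isOpen_Ioo (smooth_DD h) hc1 t)).congr_deriv ?_
    have r1 := hφ.rel_c h hc t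
    have r2 := hφ.rel_t h hc t
    have hb := hφ.bracket h hc t
    have hn := (h.nt_pos hc1 t).ne'
    have hmn := (h.nc_pos hc1 t).ne'
    unfold BI GG
    rw [hb, P2_DD h hc1]
    have hX : XX Γ T U (c, t) = L1 Γ t (nxt Γ T U c t) - L2 Γ (nxt Γ T U c t) t := rfl
    have hD : DD Γ T U (c, t) = dl Γ t (nxt Γ T U c t) := rfl
    rw [hX, hD]
    set s := nxt Γ T U c t
    set n := nt Γ T U c t
    set m := nc Γ T U c t
    set δy := L2 Γ t s - L1 Γ s t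
    set δx := L1 Γ t s - L2 Γ s t
    set y := P2 φ (c, s)
    set x := P2 φ (c, t)
    set q := P1 φ (c, s)
    set p := P1 φ (c, t)
    have f1 : δy = (q - p) / m + y := by
      field_simp
      linarith
    have f2 : δx = y * n - x - δy * n := by linarith
    rw [f2, f1]
    field_simp
    ring
  have sl : ∀ {F : ℝ × ℝ → ℝ}, ContinuousOn F (Ioo 0 b ×ˢ univ) →
      Continuous fun t => F (c, t) := fun hF =>
    hF.comp_continuous (by fun_prop) fun t => ⟨hc, mem_univ _⟩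
  have cG : Continuous fun t => GG Γ T U φ (c, t) := sl (smooth_GG h hφ).continuousOn
  have cd : Continuous fun t => GG Γ T U φ (c, t) - BI Γ T U φ c t := by
    have e : (fun t => GG Γ T U φ (c, t) - BI Γ T U φ c t) =
        fun t => P2 (fun q => φ q * DD Γ T U q) (c, t) :=
      funext fun t => (hd t).unique (slice_t isOpen_Ioo hs hc t)
    rw [e]
    exact sl (contDiffOn_P2 (isOpen_Ioo.prod isOpen_univ) hs).continuousOn
  have cB : Continuous fun t => BI Γ T U φ c t := by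
    have e : (fun t => BI Γ T U φ c t) =
        fun t => GG Γ T U φ (c, t) - (GG Γ T U φ (c, t) - BI Γ T U φ c t) := by
      funext t; ring
    rw [e]
    exact cG.sub cd
  have i1 : IntervalIntegrable (fun t => GG Γ T U φ (c, t)) volume 0 T := cG.intervalIntegrable _ _
  have i2 : IntervalIntegrable (fun t => BI Γ T U φ c t) volume 0 T := cB.intervalIntegrable _ _
  have k := intervalIntegral.integral_eq_sub_of_hasDerivAt (fun t _ => hd t) (i1.sub i2)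
  rw [intervalIntegral.integral_sub i1 i2] at k
  have e1 := hφ.per c hc 0
  have e2 := DD_per h hc1 0
  rw [zero_add] at e1 e2
  rw [e1, e2, sub_self] at k
  unfold BB
  linarith

lemma continuousOn_EI : ContinuousOn (fun q : ℝ × ℝ => EI Γ T U φ q.1 q.2) (Ioo 0 b ×ˢ univ) := by
  have hJ : IsOpen (Ioo 0 b ×ˢ (univ : Set ℝ)) := isOpen_Ioo.prod isOpen_univ
  have hs : ContDiffOn ℝ ∞ (fun q => φ q * P1 (DD Γ T U) q) (Ioo 0 b ×ˢ univ) :=
    hφ.smooth.mul ((contDiffOn_P1 (isOpen_Ioo.prod isOpen_univ) (smooth_DD h)).mono (sub1 h hφ))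
  have c1 := (contDiffOn_P1 hJ (smooth_GG h hφ)).continuousOn
  have c2 := (contDiffOn_P2 hJ hs).continuousOn
  have c3 := (contDiffOn_P1 hJ hφ.smooth).continuousOn
  have c4 := (contDiffOn_P2 hJ hφ.smooth).continuousOn
  have k6 : ContinuousOn (fun q : ℝ × ℝ => (q.1, nxt Γ T U q.1 q.2)) (Ioo 0 b ×ˢ univ) :=
    continuousOn_fst.prodMk ((contDiffOn_nxt h).continuousOn.mono (sub1 h hφ))
  have m6 : MapsTo (fun q : ℝ × ℝ => (q.1, nxt Γ T U q.1 q.2)) (Ioo 0 b ×ˢ univ)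
      (Ioo 0 b ×ˢ univ) := fun q hq => ⟨hq.1, mem_univ _⟩
  have k5 := Pool.Agent.MP_ae5b4e_an_P3.Mn.continuousOn_nt h hφ.b1
  refine (((c1.sub c2).add (c3.mul c4)).sub
    (((c3.comp k6 m6).mul (c4.comp k6 m6)).mul k5)).congr ?_
  rintro ⟨c, t⟩ ⟨hc, -⟩
  have k := pointwise h hφ hc t
  simp only [Pi.add_apply, Pi.sub_apply, Pi.mul_apply, Function.comp]
  linarith

end

/-- (A) **The monotonicity formula.**

Proof.  Up to the derivative of `φ (c, t) * δ t s` along the leaf, `BI` is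
`G c t = φ (c, t) (δ_x + δ_y n) - δ δ_x`.  `∂_c G = EI + ∂_t (φ δ_y nc) + (H (c, s) n - H (c, t))`
with `H = φ_c φ_t` (`δ_x = - Δ n / nc - φ_t (t)`, `δ_y = Δ / nc + φ_t (s)`,
`Δ = φ_c (s) - φ_c (t)`, and `K t s p t n - K s t p s = n Δ / nc`). -/
theorem BB_sub (h : SSys T Γ U) (hφ : CB T Γ U b φ) {c₁ c₂ : ℝ} (h1 : 0 < c₁) (h12 : c₁ ≤ c₂)
    (h2 : c₂ < b) : BB Γ T U φ c₂ - BB Γ T U φ c₁ =
      ∫ c in c₁..c₂, ∫ t in (0)..T, EI Γ T U φ c t := by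
  have hs : Icc c₁ c₂ ⊆ Ioo 0 b := fun c hc => ⟨h1.trans_le hc.1, hc.2.trans_lt h2⟩
  have hsm : ContDiffOn ℝ ∞ (fun q => φ q * P1 (DD Γ T U) q) (Ioo 0 b ×ˢ univ) :=
    hφ.smooth.mul ((contDiffOn_P1 (isOpen_Ioo.prod isOpen_univ) (smooth_DD h)).mono (sub1 h hφ))
  have hper : ∀ c ∈ Ioo 0 b, ∀ t, φ (c, t + T) * P1 (DD Γ T U) (c, t + T) =
      φ (c, t) * P1 (DD Γ T U) (c, t) := by
    intro c hc t
    have hc1 : c ∈ Ioo (0:ℝ) 1 := ⟨hc.1, hc.2.trans_le hφ.b1⟩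
    rw [hφ.per c hc, P1_DD h hc1, P1_DD h hc1, h.nxt_per hc1,
      Pool.Agent.MP_ae5b4e_an_P3.Mn.nc_per h hc1, h.curve.L2_per_left, h.curve.L2_per_right,
      h.curve.L1_per_left, h.curve.L1_per_right]
  have k := strip h.T_pos isOpen_Ioo (smooth_GG h hφ) hsm hper h12 hs
  rw [line_eq h hφ (hs (left_mem_Icc.2 h12)), line_eq h hφ (hs (right_mem_Icc.2 h12))] at k
  rw [k]
  refine intervalIntegral.integral_congr fun c hc => ?_
  rw [uIcc_of_le h12] at hc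
  have hcb := hs hc
  have hc1 : c ∈ Ioo (0:ℝ) 1 := ⟨hcb.1, hcb.2.trans_le hφ.b1⟩
  have hJ : IsOpen (Ioo 0 b ×ˢ (univ : Set ℝ)) := isOpen_Ioo.prod isOpen_univ
  have sl : ∀ {F : ℝ × ℝ → ℝ}, ContinuousOn F (Ioo 0 b ×ˢ univ) →
      Continuous fun t => F (c, t) := fun hF =>
    hF.comp_continuous (by fun_prop) fun t => ⟨hcb, mem_univ _⟩
  have cF : Continuous fun t => P1 φ (c, t) * P2 φ (c, t) :=
    (sl (contDiffOn_P1 hJ hφ.smooth).continuousOn).mul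
      (sl (contDiffOn_P2 hJ hφ.smooth).continuousOn)
  have cG : Continuous fun t => P1 φ (c, nxt Γ T U c t) * P2 φ (c, nxt Γ T U c t) *
      nt Γ T U c t := (cF.comp (h.continuous_nxt hc1)).mul (h.continuous_nt hc1)
  have cE : Continuous fun t => EI Γ T U φ c t := sl (continuousOn_EI h hφ)
  have hp1 : ∀ t, P1 φ (c, t + T) = P1 φ (c, t) := by
    intro t
    refine (slice_c isOpen_Ioo hφ.smooth hcb (t + T)).unique ?_
    refine (slice_c isOpen_Ioo hφ.smooth hcb t).congr_of_eventuallyEq ?_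
    filter_upwards [Ioo_mem_nhds hcb.1 hcb.2] with r hr
    exact hφ.per r hr t
  have hp2 : ∀ t, P2 φ (c, t + T) = P2 φ (c, t) := by
    intro t
    have k1 := (slice_t isOpen_Ioo hφ.smooth hcb (t + T)).comp_add_const t T
    refine k1.unique ?_
    refine (slice_t isOpen_Ioo hφ.smooth hcb t).congr_of_eventuallyEq ?_
    exact Eventually.of_forall fun r => hφ.per c hcb r
  have k1 := integral_comp_tau (F := fun t => P1 φ (c, t) * P2 φ (c, t))
    (h.hasDerivAt_nxt_t hc1) (h.continuous_nt hc1) (h.nxt_T hc1) cF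
    (fun t => by simp only [hp1, hp2])
  have e : ∀ t, P1 (GG Γ T U φ) (c, t) - P2 (fun q => φ q * P1 (DD Γ T U) q) (c, t) =
      (-(P1 φ (c, t) * P2 φ (c, t)) + P1 φ (c, nxt Γ T U c t) * P2 φ (c, nxt Γ T U c t) *
        nt Γ T U c t) + EI Γ T U φ c t := fun t => pointwise h hφ hcb t
  show (∫ t in (0)..T, (P1 (GG Γ T U φ) (c, t) - P2 (fun q => φ q * P1 (DD Γ T U) q) (c, t))) =
    ∫ t in (0)..T, EI Γ T U φ c t
  rw [intervalIntegral.integral_congr (fun t _ => e t)]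
  have i1 : IntervalIntegrable (fun t => -(P1 φ (c, t) * P2 φ (c, t))) volume 0 T :=
    cF.neg.intervalIntegrable _ _
  have i2 : IntervalIntegrable (fun t => P1 φ (c, nxt Γ T U c t) * P2 φ (c, nxt Γ T U c t) *
      nt Γ T U c t) volume 0 T := cG.intervalIntegrable _ _
  have i3 : IntervalIntegrable (fun t => EI Γ T U φ c t) volume 0 T := cE.intervalIntegrable _ _
  rw [intervalIntegral.integral_add (i1.add i2) i3, intervalIntegral.integral_add i1 i2,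
    intervalIntegral.integral_neg, k1]
  ring

end Pool.Agent.MP_ae5b4e_an_PN
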