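import Mathlib
import Pool.Agent.Lib.MP_ae5b4e_an_PN.Defs
import Pool.Agent.Lib.MP_ae5b4e_an_P3.Reach

/-!
# MP_ae5b4e_an, project PN, (P): the leaf of the 3-periodic points
-/

noncomputable section

namespace Pool.Agent.MP_ae5b4e_an_PN

open Set Filter Topology Real MeasureTheory intervalIntegral
open scoped ContDiff
open Pool.Agent.MP_ae5b4e_an_hopf
open Pool.Agent.MP_ae5b4e_an_hopf.Sys (nt nc)
open Pool.Agent.MP_ae5b4e_an_ALT

variable {Γ : ℝ → Fin 3 → ℝ} {T : ℝ} {U : ℝ → ℝ → ℝ} {b : ℝ} {φ : ℝ × ℝ → ℝ}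

/-- the invariant density on a leaf -/
def dens (U : ℝ → ℝ → ℝ) (φ : ℝ × ℝ → ℝ) (c t : ℝ) : ℝ :=
  -Uc U (c, t) * exp (-(3 * φ (c, t)))

lemma dens_pos (h : SSys T Γ U) {c : ℝ} (hc : c ∈ Ioo (0:ℝ) 1) (t : ℝ) : 0 < dens U φ c t := by
  have k := h.Uc_neg hc t
  exact mul_pos (by linarith) (exp_pos _)

/-- the density is invariant -/
theorem dens_inv (h : SSys T Γ U) (hφ : CB T Γ U b φ) (hW : ∀ y, Wr Γ y = 1) {c : ℝ}
    (hc : c ∈ Ioo 0 b) (t : ℝ) :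
    dens U φ c (nxt Γ T U c t) * nt Γ T U c t = dens U φ c t := by
  have hc1 : c ∈ Ioo (0:ℝ) 1 := ⟨hc.1, hc.2.trans_le hφ.b1⟩
  obtain ⟨a1, a2, a3⟩ := h.nxt_spec c t
  have hinv := h.invariance hc1 t
  have hA := h.curve.dd_pos_right a1 a2
  have hB := h.curve.dd_pos_left a1 a2
  have hrel := hφ.rel c hc t
  unfold dens
  set s := nxt Γ T U c t with hs
  have hexp : exp (φ (c, s)) * dd Γ s t = exp (φ (c, t)) * dd Γ t s := by
    have k : exp (φ (c, s) - φ (c, t)) = dd Γ t s / dd Γ s t := by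
      rw [hrel]
      unfold dl
      rw [exp_sub, exp_log hA, exp_log hB]
    rw [exp_sub] at k
    field_simp at k
    linarith
  have p1 := exp_pos (φ (c, s))
  have p2 := exp_pos (φ (c, t))
  have x1 : exp (-(3 * φ (c, s))) = (exp (φ (c, s)) ^ 3)⁻¹ := by
    rw [exp_neg, ← exp_nat_mul]
    push_cast
    rfl
  have x2 : exp (-(3 * φ (c, t))) = (exp (φ (c, t)) ^ 3)⁻¹ := by
    rw [exp_neg, ← exp_nat_mul]
    push_cast
    rfl
  rw [x1, x2]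
  unfold KK at hinv
  rw [hW, hW, one_mul, one_mul] at hinv
  set P := exp (φ (c, s))
  set R := exp (φ (c, t))
  set A := dd Γ t s
  set B := dd Γ s t
  field_simp at hinv ⊢
  have k : (Uc U (c, s) * nt Γ T U c t * R ^ 3 - P ^ 3 * Uc U (c, t)) * (B ^ 3) = 0 := by
    have e : P ^ 3 * B ^ 3 = R ^ 3 * A ^ 3 := by
      rw [← mul_pow, ← mul_pow, hexp]
    linear_combination R ^ 3 * hinv - Uc U (c, t) * e
  have k' := (mul_eq_zero.1 k).resolve_right (by positivity)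
  linarith

lemma continuous_dens (h : SSys T Γ U) (hφ : CB T Γ U b φ) {c : ℝ} (hc : c ∈ Ioo 0 b) :
    Continuous (dens U φ c) := by
  have hc1 : c ∈ Ioo (0:ℝ) 1 := ⟨hc.1, hc.2.trans_le hφ.b1⟩
  have k : Continuous fun t => φ (c, t) :=
    hφ.smooth.continuousOn.comp_continuous (by fun_prop) fun t => ⟨hc, mem_univ _⟩
  exact (h.continuous_Uc hc1).neg.mul (Real.continuous_exp.comp (k.const_mul 3).neg)

/-- (P) The density `- U_c exp (-3 φ)` is invariant; if three steps from one point of the leaf `c₁`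
go around the curve, then some leaf is 3-periodic (compare `P3.exists_leaf_three`). -/
theorem exists_leaf_three (h : SSys T Γ U) (hφ : CB T Γ U b φ) (hW : ∀ y, Wr Γ y = 1) {c₁ : ℝ}
    (hc₁ : c₁ ∈ Ioo 0 b) {t₀ : ℝ}
    (h3 : t₀ + T ≤ nxt Γ T U c₁ (nxt Γ T U c₁ (nxt Γ T U c₁ t₀))) :
    ∃ c ∈ Ioc 0 c₁, ∀ t, nxt Γ T U c (nxt Γ T U c (nxt Γ T U c t)) = t + T := by
  have hc₁1 : c₁ ∈ Ioo (0:ℝ) 1 := ⟨hc₁.1, hc₁.2.trans_le hφ.b1⟩
  obtain ⟨c, hc, he⟩ := Pool.Agent.MP_ae5b4e_an_P3.exists_three (f := nxt Γ T U) h.T_pos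
    h.continuousOn_nxt.snd (fun c hc =>
      (strictMono_of_hasDerivAt_pos (h.hasDerivAt_nxt_t hc) (h.nt_pos hc)).monotone)
    h.tendsto_nxt_zero hc₁1 h3
  have hc' : c ∈ Ioo 0 b := ⟨hc.1, hc.2.trans_lt hc₁.2⟩
  have hc'1 : c ∈ Ioo (0:ℝ) 1 := ⟨hc.1, hc.2.trans_lt hc₁1.2⟩
  refine ⟨c, hc, fun t => ?_⟩
  refine Pool.Agent.MP_ae5b4e_an_P3.three_periodic (w := dens U φ c) (h.hasDerivAt_nxt_t hc'1)
    (continuous_dens h hφ hc') (fun t => dens_pos h hc'1 t) (fun t => ?_)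
    (fun t => dens_inv h hφ hW hc' t) he t
  unfold dens
  rw [h.Uc_per hc'1, hφ.per c hc']

end Pool.Agent.MP_ae5b4e_an_PN
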