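import Mathlib
import Pool.Agent.Lib.MP_ae5b4e_an_PN.Avg
import Pool.Agent.Lib.MP_ae5b4e_an_PN.Mon
import Pool.Agent.Lib.MP_ae5b4e_an_PN.Per
import Pool.Agent.Lib.MP_ae5b4e_an_P3.ReachN
import Pool.Agent.Lib.MP_ae5b4e_an_P3.Lim

/-!
# MP_ae5b4e_an, project PN: the leaf integral is small on the leaves of periodic points near the
curve

Only the relation `δ = φ ∘ f - φ` is used: there is no bound for `φ` near the curve.
-/

noncomputable section

namespace Pool.Agent.MP_ae5b4e_an_PN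

open Set Filter Topology Real MeasureTheory intervalIntegral
open scoped ContDiff
open Pool.Agent.MP_ae5b4e_an_hopf
open Pool.Agent.MP_ae5b4e_an_hopf.Sys (nt nc)
open Pool.Agent.MP_ae5b4e_an_ALT
open Pool.Agent.MP_ae5b4e_an_P3.Mn (near_dl exists_close nxt_strictMono contDiffOn_P2)

variable {Γ : ℝ → Fin 3 → ℝ} {T : ℝ} {U : ℝ → ℝ → ℝ} {b : ℝ} {φ : ℝ × ℝ → ℝ}

/-- the derivatives of `δ` are bounded near the diagonal -/
lemma near_dl' (hC : Curve T Γ) : ∃ C, 0 ≤ C ∧ ∀ t s : ℝ, t < s → s ≤ t + T / 2 →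
    |L1 Γ t s - L2 Γ s t| ≤ C ∧ |L2 Γ t s - L1 Γ s t| ≤ C := by
  have hT := hC.T_pos
  obtain ⟨C1, hC1, b1⟩ := hC.nice_el.P1.bounded hT
  obtain ⟨C2, hC2, b2⟩ := hC.nice_el.P2.bounded hT
  refine ⟨C1 + C2, by positivity, fun t s h1 h2 => ?_⟩
  have a1 : |t - s| = s - t := by rw [abs_sub_comm, abs_of_pos (by linarith)]
  have a2 : |s - t| = s - t := abs_of_pos (by linarith)
  have l1 : |t - s| < T := by rw [a1]; linarith
  have l2 : |s - t| < T := by rw [a2]; linarith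
  have e1 := hC.L1_eq h1.ne l1
  have e2 := hC.L2_eq h1.ne' l2
  have e3 := hC.L2_eq h1.ne l1
  have e4 := hC.L1_eq h1.ne' l2
  have g1 := abs_le.1 (b1 (t, s) (by show |t - s| ≤ T / 2; rw [a1]; linarith))
  have g2 := abs_le.1 (b2 (s, t) (by show |s - t| ≤ T / 2; rw [a2]; linarith))
  have g3 := abs_le.1 (b2 (t, s) (by show |t - s| ≤ T / 2; rw [a1]; linarith))
  have g4 := abs_le.1 (b1 (s, t) (by show |s - t| ≤ T / 2; rw [a2]; linarith))
  have e5 : 2 / (t - s) = -(2 / (s - t)) := by rw [← neg_sub s t, div_neg]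
  constructor
  · rw [e1, e2, e5, abs_le]
    constructor <;> linarith [g1.1, g1.2, g2.1, g2.2]
  · rw [e3, e4, e5, abs_le]
    constructor <;> linarith [g3.1, g3.2, g4.1, g4.2]

section

variable (h : SSys T Γ U) (hφ : CB T Γ U b φ)
include h hφ

/-- If one point of a leaf is `q`-periodic then all points of this leaf are. -/
theorem leaf_iter (hW : ∀ y, Wr Γ y = 1) {c : ℝ} (hc : c ∈ Ioo 0 b) {q : ℕ} {t₀ : ℝ}
    (h3 : (nxt Γ T U c)^[q] t₀ = t₀ + T) (t : ℝ) : (nxt Γ T U c)^[q] t = t + T := by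
  have hc1 : c ∈ Ioo (0:ℝ) 1 := ⟨hc.1, hc.2.trans_le hφ.b1⟩
  refine Pool.Agent.MP_ae5b4e_an_P3.n_periodic (w := dens U φ c) (h.hasDerivAt_nxt_t hc1)
    (continuous_dens h hφ hc) (fun t => dens_pos h hc1 t) (fun t => ?_)
    (fun t => dens_inv h hφ hW hc t) h3 t
  unfold dens
  rw [h.Uc_per hc1, hφ.per c hc]

/-- Arbitrarily close to the curve there are leaves of periodic points. -/
theorem exists_leaf_per (hW : ∀ y, Wr Γ y = 1) {c₁ : ℝ} (hc₁ : c₁ ∈ Ioo 0 b) :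
    ∃ c ∈ Ioc 0 c₁, ∃ q : ℕ, 0 < q ∧ ∀ t, (nxt Γ T U c)^[q] t = t + T := by
  have hT := h.T_pos
  have hc₁1 : c₁ ∈ Ioo (0:ℝ) 1 := ⟨hc₁.1, hc₁.2.trans_le hφ.b1⟩
  -- the steps of the leaf `c₁` are bounded below
  obtain ⟨m, hm, hstep⟩ : ∃ m, 0 < m ∧ ∀ t, t + m ≤ nxt Γ T U c₁ t := by
    have hcont : Continuous fun t => nxt Γ T U c₁ t - t := (h.continuous_nxt hc₁1).sub continuous_id
    obtain ⟨z, hz, hz'⟩ := (isCompact_Icc (a := (0:ℝ)) (b := T)).exists_isMinOn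
      (nonempty_Icc.2 hT.le) hcont.continuousOn
    refine ⟨nxt Γ T U c₁ z - z, by have := (h.nxt_spec c₁ z).1; linarith, fun t => ?_⟩
    have hper : Function.Periodic (fun t => nxt Γ T U c₁ t - t) T := fun t => by
      simp only
      rw [h.nxt_per hc₁1]
      ring
    obtain ⟨y, hy, hy'⟩ := hper.exists_mem_Ico₀ hT t
    have k : nxt Γ T U c₁ z - z ≤ nxt Γ T U c₁ y - y := hz' ⟨hy.1, hy.2.le⟩
    linarith
  have hiter : ∀ k : ℕ, (k : ℝ) * m ≤ (nxt Γ T U c₁)^[k] 0 := by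
    intro k
    induction k with
    | zero => simp
    | succ k ih =>
      rw [Function.iterate_succ_apply']
      have := hstep ((nxt Γ T U c₁)^[k] 0)
      push_cast
      linarith
  obtain ⟨q, hq⟩ := exists_nat_gt (T / m)
  have hqm : T < q * m := by rwa [div_lt_iff₀ hm] at hq
  have hq0 : 0 < q := by
    rcases Nat.eq_zero_or_pos q with h0 | h0
    · rw [h0] at hqm
      simp only [Nat.cast_zero, zero_mul] at hqm
      linarith
    · exact h0
  obtain ⟨c, hc, he⟩ := Pool.Agent.MP_ae5b4e_an_P3.exists_iter (f := nxt Γ T U) hT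
    h.continuousOn_nxt.snd (fun c hc =>
      (strictMono_of_hasDerivAt_pos (h.hasDerivAt_nxt_t hc) (h.nt_pos hc)).monotone)
    h.tendsto_nxt_zero q (x := 0) hc₁1 (by linarith [hiter q])
  exact ⟨c, hc, q, hq0, fun t => leaf_iter h hφ hW ⟨hc.1, hc.2.trans_lt hc₁.2⟩ he t⟩

/-- **The leaf integral is small on a leaf of periodic points near the curve.** -/
theorem BB_small_per (hW : ∀ y, Wr Γ y = 1) :
    ∃ C, 0 ≤ C ∧ ∀ c ∈ Ioo 0 b, ∀ ε ≤ min (T / 2) 1, (∀ t, nxt Γ T U c t < t + ε) → ∀ q : ℕ, 0 < q →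
      (∀ t, (nxt Γ T U c)^[q] t = t + T) → |BB Γ T U φ c| ≤ C * ε := by
  have hT := h.T_pos
  obtain ⟨C1, hC1, b1⟩ := near_dl h.curve hW
  obtain ⟨C2, hC2, b2⟩ := near_dl' h.curve
  refine ⟨C1 * T * (2 * C2 * T) + C1 * C2 * T, by positivity, fun c hc ε hε hcl q hq hper => ?_⟩
  have hc1 : c ∈ Ioo (0:ℝ) 1 := ⟨hc.1, hc.2.trans_le hφ.b1⟩
  have hε2 : ε ≤ T / 2 := hε.trans (min_le_left _ _)
  have hε3 : ε ≤ 1 := hε.trans (min_le_right _ _)
  have hε0 : 0 < ε := by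
    have h1 := hcl 0
    have h2 := (h.nxt_spec c 0).1
    linarith
  -- bounds on the leaf
  have hstep : ∀ t, t < nxt Γ T U c t := fun t => (h.nxt_spec c t).1
  have hd : ∀ t, |dl Γ t (nxt Γ T U c t)| ≤ C1 * ε * (nxt Γ T U c t - t) := by
    intro t
    have h1 := hstep t
    have h2 := hcl t
    have a1 : |t - nxt Γ T U c t| = nxt Γ T U c t - t := by
      rw [abs_sub_comm, abs_of_pos (by linarith)]
    refine (b1 t _ h1.ne (by rw [a1]; linarith)).trans ?_
    have : (t - nxt Γ T U c t) ^ 2 = (nxt Γ T U c t - t) * (nxt Γ T U c t - t) := by ring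
    rw [this, ← mul_assoc, mul_assoc C1 ε]
    refine mul_le_mul_of_nonneg_right ?_ (by linarith) |>.trans (le_of_eq (mul_assoc _ _ _))
    exact mul_le_mul_of_nonneg_left (by linarith) hC1
  -- the potential along the orbits
  have hmonoit : ∀ k (t : ℝ), (nxt Γ T U c)^[k] t ≤ (nxt Γ T U c)^[k + 1] t := by
    intro k t
    rw [Function.iterate_succ_apply']
    exact (hstep _).le
  have hle : ∀ k ≤ q, ∀ t, (nxt Γ T U c)^[k] t ≤ t + T := by
    intro k hk t
    have : Monotone fun k => (nxt Γ T U c)^[k] t := monotone_nat_of_le_succ fun k => hmonoit k t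
    exact (this hk).trans (hper t).le
  have hS : ∀ k (t : ℝ), |φ (c, (nxt Γ T U c)^[k] t) - φ (c, t)| ≤
      C1 * ε * ((nxt Γ T U c)^[k] t - t) := by
    intro k t
    induction k with
    | zero => simp
    | succ k ih =>
      rw [Function.iterate_succ_apply']
      set y := (nxt Γ T U c)^[k] t
      have k1 := hφ.rel c hc y
      have k2 := hd y
      rw [← k1] at k2
      have k3 := abs_add_le (φ (c, nxt Γ T U c y) - φ (c, y)) (φ (c, y) - φ (c, t))
      have e : φ (c, nxt Γ T U c y) - φ (c, y) + (φ (c, y) - φ (c, t)) =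
          φ (c, nxt Γ T U c y) - φ (c, t) := by ring
      rw [e] at k3
      nlinarith
  have hM : ∀ k < q, ∀ t, |φ (c, (nxt Γ T U c)^[k] t) - φ (c, t)| ≤ C1 * ε * T := by
    intro k hk t
    refine (hS k t).trans (mul_le_mul_of_nonneg_left ?_ (by positivity))
    linarith [hle k hk.le t]
  -- the two integrals
  have hJ : IsOpen (Ioo 0 b ×ˢ (univ : Set ℝ)) := isOpen_Ioo.prod isOpen_univ
  have sl : ∀ {F : ℝ × ℝ → ℝ}, ContinuousOn F (Ioo 0 b ×ˢ univ) →
      Continuous fun t => F (c, t) := fun hF =>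
    hF.comp_continuous (by fun_prop) fun t => ⟨hc, mem_univ _⟩
  have cφ' : Continuous fun t => P2 φ (c, t) := sl (contDiffOn_P2 hJ hφ.smooth).continuousOn
  have cφ : Continuous fun t => φ (c, t) := sl hφ.smooth.continuousOn
  have hD : ∀ t, P2 (DD Γ T U) (c, t) = P2 φ (c, nxt Γ T U c t) * nt Γ T U c t - P2 φ (c, t) := by
    intro t
    rw [P2_DD h hc1, hφ.rel_t h hc t]
    rfl
  have cnx := h.continuous_nxt hc1
  have cn := h.continuous_nt hc1
  have cD : Continuous fun t => P2 φ (c, nxt Γ T U c t) * nt Γ T U c t - P2 φ (c, t) :=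
    ((cφ'.comp cnx).mul cn).sub cφ'
  have cX : Continuous fun t => XX Γ T U (c, t) :=
    (smooth_XX h).continuousOn.comp_continuous (by fun_prop) fun t => ⟨hc1, mem_univ _⟩
  have cDD : Continuous fun t => DD Γ T U (c, t) :=
    (smooth_DD h).continuousOn.comp_continuous (by fun_prop) fun t => ⟨hc1, mem_univ _⟩
  have k1 := avg_bound (f := nxt Γ T U c) (f' := nt Γ T U c) (φ := fun t => φ (c, t))
    (φ' := fun t => P2 φ (c, t)) hT (h.hasDerivAt_nxt_t hc1) cn (h.nt_pos hc1)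
    (fun t => h.nxt_per hc1 t) (fun t => slice_t isOpen_Ioo hφ.smooth hc t) cφ' (hφ.per c hc) hq
    hper hM
  -- the variation of `δ`
  have hX : ∀ t, |XX Γ T U (c, t)| ≤ C2 ∧
      |L2 Γ t (nxt Γ T U c t) - L1 Γ (nxt Γ T U c t) t| ≤ C2 := fun t =>
    b2 t _ (hstep t) (by linarith [hcl t])
  have hvar : ∀ t, |P2 φ (c, nxt Γ T U c t) * nt Γ T U c t - P2 φ (c, t)| ≤
      C2 * (1 + nt Γ T U c t) := by
    intro t
    rw [← hD t, P2_DD h hc1]
    refine (abs_add_le _ _).trans ?_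
    have hn := h.nt_pos hc1 t
    rw [abs_mul, abs_of_pos hn]
    have := mul_le_mul_of_nonneg_right (hX t).2 hn.le
    linarith [(hX t).1]
  have hnt : ∫ t in (0)..T, nt Γ T U c t = T := by
    rw [intervalIntegral.integral_eq_sub_of_hasDerivAt (fun t _ => h.hasDerivAt_nxt_t hc1 t)
      (cn.intervalIntegrable _ _), h.nxt_T hc1]
    ring
  have k2 : ∫ t in (0)..T, |P2 φ (c, nxt Γ T U c t) * nt Γ T U c t - P2 φ (c, t)| ≤
      2 * C2 * T := by
    have k3 : ∫ t in (0)..T, |P2 φ (c, nxt Γ T U c t) * nt Γ T U c t - P2 φ (c, t)| ≤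
        ∫ t in (0)..T, C2 * (1 + nt Γ T U c t) :=
      intervalIntegral.integral_mono_on hT.le (cD.abs.intervalIntegrable _ _)
        ((continuous_const.mul (continuous_const.add cn)).intervalIntegrable _ _)
        fun t _ => hvar t
    have k4 : ∫ t in (0)..T, C2 * (1 + nt Γ T U c t) = 2 * C2 * T := by
      rw [intervalIntegral.integral_const_mul, intervalIntegral.integral_add
        intervalIntegrable_const (cn.intervalIntegrable _ _), hnt]
      simp
      ring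
    linarith
  have k5 : |∫ t in (0)..T, DD Γ T U (c, t) * XX Γ T U (c, t)| ≤ C1 * C2 * T * ε := by
    have k6 : ‖∫ t in (0)..T, DD Γ T U (c, t) * XX Γ T U (c, t)‖ ≤ (C1 * ε * C2) * |T - 0| := by
      refine intervalIntegral.norm_integral_le_of_norm_le_const fun t _ => ?_
      rw [Real.norm_eq_abs, abs_mul]
      refine mul_le_mul ?_ (hX t).1 (abs_nonneg _) (by positivity)
      refine (hd t).trans ?_
      have h1 := hcl t
      have : C1 * ε * (nxt Γ T U c t - t) ≤ C1 * ε * 1 :=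
        mul_le_mul_of_nonneg_left (by linarith) (by positivity)
      linarith
    rw [sub_zero, abs_of_pos hT, Real.norm_eq_abs] at k6
    refine k6.trans (le_of_eq ?_)
    ring
  -- the leaf integral
  have k7 := line_eq h hφ hc
  have k8 : ∫ t in (0)..T, GG Γ T U φ (c, t) =
      (∫ t in (0)..T, φ (c, t) * (P2 φ (c, nxt Γ T U c t) * nt Γ T U c t - P2 φ (c, t))) -
        ∫ t in (0)..T, DD Γ T U (c, t) * XX Γ T U (c, t) := by
    have i1 : IntervalIntegrable (fun t => φ (c, t) * (P2 φ (c, nxt Γ T U c t) * nt Γ T U c t -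
        P2 φ (c, t))) volume 0 T := (cφ.mul cD).intervalIntegrable _ _
    have i2 : IntervalIntegrable (fun t => DD Γ T U (c, t) * XX Γ T U (c, t)) volume 0 T :=
      (cDD.mul cX).intervalIntegrable _ _
    rw [← intervalIntegral.integral_sub i1 i2]
    refine intervalIntegral.integral_congr fun t _ => ?_
    show φ (c, t) * P2 (DD Γ T U) (c, t) - DD Γ T U (c, t) * XX Γ T U (c, t) = _
    rw [hD t]
  rw [← k7, k8]
  refine (abs_sub _ _).trans ?_
  have k9 : C1 * ε * T *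
      ∫ t in (0)..T, |P2 φ (c, nxt Γ T U c t) * nt Γ T U c t - P2 φ (c, t)| ≤
      C1 * ε * T * (2 * C2 * T) := mul_le_mul_of_nonneg_left k2 (by positivity)
  have k10 := k1.trans k9
  have e : (C1 * T * (2 * C2 * T) + C1 * C2 * T) * ε =
      C1 * ε * T * (2 * C2 * T) + C1 * C2 * T * ε := by ring
  rw [e]
  exact add_le_add k10 k5

/-- There are leaves with an arbitrarily small leaf integral. -/
theorem exists_BB_small (hW : ∀ y, Wr Γ y = 1) {c : ℝ} (hc : c ∈ Ioo 0 b) {e : ℝ} (he : 0 < e) :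
    ∃ c' ∈ Ioc 0 c, |BB Γ T U φ c'| < e := by
  have hT := h.T_pos
  have hc1 : c ∈ Ioo (0:ℝ) 1 := ⟨hc.1, hc.2.trans_le hφ.b1⟩
  obtain ⟨C, hC, hs⟩ := BB_small_per h hφ hW
  set ε : ℝ := min (min (T / 2) 1) (e / (2 * (C + 1))) with hε
  have hε0 : 0 < ε := lt_min (lt_min (by positivity) one_pos) (by positivity)
  have hε1 : ε ≤ min (T / 2) 1 := min_le_left _ _
  have hε2 : ε ≤ T / 2 := hε1.trans (min_le_left _ _)
  have hε3 : ε * (2 * (C + 1)) ≤ e := by
    have := min_le_right (min (T / 2) 1) (e / (2 * (C + 1)))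
    rwa [← hε, le_div_iff₀ (by positivity)] at this
  obtain ⟨c₁, hc₁, hcl⟩ := exists_close h hε0 (by linarith)
  have hm0 : min c c₁ ∈ Ioo 0 b := ⟨lt_min hc.1 hc₁.1, (min_le_left _ _).trans_lt hc.2⟩
  obtain ⟨c₂, hc₂, q, hq, hper⟩ := exists_leaf_per h hφ hW hm0
  have hc₂b : c₂ ∈ Ioo 0 b := ⟨hc₂.1, hc₂.2.trans_lt hm0.2⟩
  have hc₂1 : c₂ ∈ Ioo (0:ℝ) 1 := ⟨hc₂.1, hc₂b.2.trans_le hφ.b1⟩
  have hcl' : ∀ t, nxt Γ T U c₂ t < t + ε := by
    intro t
    rcases (hc₂.2.trans (min_le_right _ _)).eq_or_lt with h1 | h1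
    · rw [h1]; exact hcl t
    · exact (nxt_strictMono h hc₂1 hc₁ h1 t).trans (hcl t)
  refine ⟨c₂, ⟨hc₂.1, hc₂.2.trans (min_le_left _ _)⟩, ?_⟩
  have k := hs c₂ hc₂b ε hε1 hcl' q hq hper
  nlinarith

/-- (B) The leaf integral is nonnegative. -/
theorem BB_nonneg' (hmono : ∀ c₁ c₂ : ℝ, 0 < c₁ → c₁ ≤ c₂ → c₂ < b →
    BB Γ T U φ c₁ ≤ BB Γ T U φ c₂) (hW : ∀ y, Wr Γ y = 1) {c : ℝ} (hc : c ∈ Ioo 0 b) :
    0 ≤ BB Γ T U φ c := by
  by_contra hneg
  push Not at hneg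
  obtain ⟨c', hc', hs⟩ := exists_BB_small h hφ hW hc (e := -BB Γ T U φ c) (by linarith)
  have k := hmono c' c hc'.1 hc'.2 hc.2
  have := (abs_lt.1 hs).1
  linarith

end

end Pool.Agent.MP_ae5b4e_an_PN
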