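import Mathlib
import Pool.Agent.Lib.MP_ae5b4e_an_PN.Mon
import Pool.Agent.Lib.MP_ae5b4e_an_PN.Small
import Pool.Agent.Lib.MP_ae5b4e_an_P3.Concl

/-!
# MP_ae5b4e_an, project PN, (B) and the conclusion
-/

noncomputable section

namespace Pool.Agent.MP_ae5b4e_an_PN

open Set Filter Topology Real MeasureTheory intervalIntegral
open scoped ContDiff
open Pool.Agent.MP_ae5b4e_an_hopf
open Pool.Agent.MP_ae5b4e_an_hopf.Sys (nt nc)
open Pool.Agent.MP_ae5b4e_an_ALT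
open Pool.Agent.MP_ae5b4e_an_P3.Mn (dl_KK nt_per nc_per contDiffOn_P1)

variable {Γ : ℝ → Fin 3 → ℝ} {T : ℝ} {U : ℝ → ℝ → ℝ} {b : ℝ} {φ : ℝ × ℝ → ℝ}

section

variable (h : SSys T Γ U) (hφ : CB T Γ U b φ)
include h hφ

/-- the density of the leaf integral is continuous -/
lemma continuous_BI {c : ℝ} (hc : c ∈ Ioo 0 b) : Continuous fun t => BI Γ T U φ c t := by
  have hc1 : c ∈ Ioo (0:ℝ) 1 := ⟨hc.1, hc.2.trans_le hφ.b1⟩
  have hJ : IsOpen (Ioo 0 b ×ˢ (univ : Set ℝ)) := isOpen_Ioo.prod isOpen_univ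
  have sl : ∀ {F : ℝ × ℝ → ℝ}, ContinuousOn F (Ioo 0 b ×ˢ univ) →
      Continuous fun t => F (c, t) := fun hF =>
    hF.comp_continuous (by fun_prop) fun t => ⟨hc, mem_univ _⟩
  have c1 : Continuous fun t => P1 φ (c, t) := sl (contDiffOn_P1 hJ hφ.smooth).continuousOn
  have c2 : Continuous fun t => DD Γ T U (c, t) :=
    (smooth_DD h).continuousOn.comp_continuous (by fun_prop) fun t => ⟨hc1, mem_univ _⟩
  have c3 : Continuous fun t => nc Γ T U c t :=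
    (Pool.Agent.MP_ae5b4e_an_P3.Mn.continuousOn_nc h le_rfl).comp_continuous
      (f := fun t : ℝ => (c, t)) (by fun_prop) fun t => ⟨hc1, mem_univ _⟩
  have e : (fun t => BI Γ T U φ c t) = fun t => DD Γ T U (c, t) *
      (nt Γ T U c t * (P1 φ (c, nxt Γ T U c t) - P1 φ (c, t)) / nc Γ T U c t) := by
    funext t
    unfold BI
    rw [hφ.bracket h hc t]
    rfl
  rw [e]
  refine c2.mul ((((h.continuous_nt hc1).mul ((c1.comp (h.continuous_nxt hc1)).sub c1))).div c3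
    fun t => (h.nc_pos hc1 t).ne')

lemma EI_per {c : ℝ} (hc : c ∈ Ioo 0 b) (t : ℝ) : EI Γ T U φ c (t + T) = EI Γ T U φ c t := by
  have hc1 : c ∈ Ioo (0:ℝ) 1 := ⟨hc.1, hc.2.trans_le hφ.b1⟩
  have hp1 : ∀ t, P1 φ (c, t + T) = P1 φ (c, t) := by
    intro t
    refine (slice_c isOpen_Ioo hφ.smooth hc (t + T)).unique ?_
    refine (slice_c isOpen_Ioo hφ.smooth hc t).congr_of_eventuallyEq ?_
    filter_upwards [Ioo_mem_nhds hc.1 hc.2] with r hr
    exact hφ.per r hr t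
  unfold EI
  rw [hφ.bracket h hc, hφ.bracket h hc, nt_per h hc1, nc_per h hc1, h.nxt_per hc1, hp1, hp1,
    h.curve.KK_per_left, h.curve.KK_per_right, h.curve.KK_per_left, h.curve.KK_per_right,
    h.curve.dl_per_left, h.curve.dl_per_right]

lemma EI_nonneg (hW : ∀ y, Wr Γ y = 1) {c : ℝ} (hc : c ∈ Ioo 0 b) (t : ℝ) :
    0 ≤ EI Γ T U φ c t := by
  have hc1 : c ∈ Ioo (0:ℝ) 1 := ⟨hc.1, hc.2.trans_le hφ.b1⟩
  obtain ⟨a1, a2, -⟩ := h.nxt_spec c t
  have h1 := h.nc_pos hc1 t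
  have h2 := h.nt_pos hc1 t
  have h3 := (dl_KK h.curve hW a1 a2).1
  unfold EI
  positivity

lemma BB_mono (hW : ∀ y, Wr Γ y = 1) {c₁ c₂ : ℝ} (h1 : 0 < c₁) (h12 : c₁ ≤ c₂)
    (h2 : c₂ < b) : BB Γ T U φ c₁ ≤ BB Γ T U φ c₂ := by
  have k := BB_sub h hφ h1 h12 h2
  have k2 : 0 ≤ ∫ c in c₁..c₂, ∫ t in (0)..T, EI Γ T U φ c t := by
    refine intervalIntegral.integral_nonneg h12 fun c hc => ?_
    exact intervalIntegral.integral_nonneg h.T_pos.le fun t _ =>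
      EI_nonneg h hφ hW ⟨h1.trans_le hc.1, hc.2.trans_lt h2⟩ t
  linarith

end

/-- (B) The leaf integral is nonnegative: it is monotone, and it is small on the leaves of periodic
points near the curve. -/
theorem BB_nonneg (h : SSys T Γ U) (hφ : CB T Γ U b φ) (hW : ∀ y, Wr Γ y = 1) {c : ℝ}
    (hc : c ∈ Ioo 0 b) : 0 ≤ BB Γ T U φ c :=
  BB_nonneg' h hφ (fun _ _ h1 h12 h2 => BB_mono h hφ hW h1 h12 h2) hW hc

/-- If the leaf integral of one leaf is not positive, then all smaller leaves are as in the case of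
conics. -/
theorem leaf_rigid (h : SSys T Γ U) (hφ : CB T Γ U b φ) (hW : ∀ y, Wr Γ y = 1) {c₀ : ℝ}
    (hc₀ : c₀ ∈ Ioo 0 b) (hB : BB Γ T U φ c₀ ≤ 0) {c : ℝ} (hc : c ∈ Ioo 0 c₀) (t : ℝ) :
    dd Γ t (nxt Γ T U c t) = dd Γ (nxt Γ T U c t) t ∧
      P1 φ (c, nxt Γ T U c t) = P1 φ (c, t) := by
  have hT := h.T_pos
  have hcb : c ∈ Ioo 0 b := ⟨hc.1, hc.2.trans hc₀.2⟩
  have hc1 : c ∈ Ioo (0:ℝ) 1 := ⟨hc.1, hcb.2.trans_le hφ.b1⟩
  have h2c : 0 < c / 2 := half_pos hc.1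
  have h2c0 : c / 2 < c₀ := by linarith [hc.1, hc.2]
  have hcE := continuousOn_EI h hφ
  -- the inner integral
  have hφ0 : ∀ c' ∈ Icc (c / 2) c₀, 0 ≤ ∫ t in (0)..T, EI Γ T U φ c' t := fun c' hc' =>
    intervalIntegral.integral_nonneg hT.le fun t _ =>
      EI_nonneg h hφ hW ⟨h2c.trans_le hc'.1, hc'.2.trans_lt hc₀.2⟩ t
  have hφc : ContinuousOn (fun c' => ∫ t in (0)..T, EI Γ T U φ c' t) (Icc (c / 2) c₀) := by
    set pr : ℝ → ℝ := fun x => max (c / 2) (min x c₀) with hpr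
    have hprc : Continuous pr := by simp only [hpr]; fun_prop
    have hprm : ∀ x, pr x ∈ Ioo 0 b := by
      intro x
      simp only [hpr]
      exact ⟨lt_max_of_lt_left h2c, max_lt (h2c0.trans hc₀.2) ((min_le_right _ _).trans_lt hc₀.2)⟩
    have k : Continuous fun x => ∫ t in (0)..T, EI Γ T U φ (pr x) t := by
      refine intervalIntegral.continuous_parametric_intervalIntegral_of_continuous' ?_ 0 T
      refine hcE.comp_continuous (f := fun q : ℝ × ℝ => (pr q.1, q.2)) ?_ ?_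
      · exact (hprc.comp continuous_fst).prodMk continuous_snd
      · intro q
        exact ⟨hprm _, mem_univ _⟩
    refine k.continuousOn.congr ?_
    intro x hx
    have : pr x = x := by
      simp only [hpr]
      rw [min_eq_left hx.2, max_eq_right hx.1]
    simp only [this]
  have hzero : ∫ c' in (c / 2)..c₀, ∫ t in (0)..T, EI Γ T U φ c' t = 0 := by
    have k1 := BB_sub h hφ h2c h2c0.le hc₀.2
    have k2 := BB_nonneg h hφ hW (c := c / 2) ⟨h2c, h2c0.trans hc₀.2⟩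
    have k3 := intervalIntegral.integral_nonneg (μ := volume) h2c0.le hφ0
    linarith
  have hφz : ∫ t in (0)..T, EI Γ T U φ c t = 0 := by
    by_contra hne
    have hcc : c ∈ Icc (c / 2) c₀ := ⟨by linarith [hc.1], hc.2.le⟩
    have hpos : 0 < ∫ t in (0)..T, EI Γ T U φ c t := lt_of_le_of_ne (hφ0 c hcc) (Ne.symm hne)
    have := intervalIntegral.integral_pos h2c0 hφc
      (fun x hx => hφ0 x (Ioc_subset_Icc_self hx)) ⟨c, hcc, hpos⟩
    linarith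
  have cE : Continuous fun t => EI Γ T U φ c t :=
    hcE.comp_continuous (f := fun t : ℝ => (c, t)) (by fun_prop) fun t => ⟨hcb, mem_univ _⟩
  have hE0 : ∀ x ∈ Icc 0 T, EI Γ T U φ c x = 0 := by
    intro x hx
    by_contra hne
    have hpos : 0 < EI Γ T U φ c x := lt_of_le_of_ne (EI_nonneg h hφ hW hcb x) (Ne.symm hne)
    have := intervalIntegral.integral_pos hT cE.continuousOn
      (fun x _ => EI_nonneg h hφ hW hcb x) ⟨x, hx, hpos⟩
    linarith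
  have hE : EI Γ T U φ c t = 0 := by
    have hper : Function.Periodic (fun t => EI Γ T U φ c t) T := fun t => EI_per h hφ hcb t
    obtain ⟨z, hz, hz'⟩ := hper.exists_mem_Ico₀ hT t
    have hz'' : EI Γ T U φ c t = EI Γ T U φ c z := hz'
    rw [hz'']
    exact hE0 z ⟨hz.1, hz.2.le⟩
  obtain ⟨a1, a2, -⟩ := h.nxt_spec c t
  have h1 := h.nc_pos hc1 t
  have h2 := h.nt_pos hc1 t
  obtain ⟨h3, h4⟩ := dl_KK h.curve hW a1 a2
  unfold EI at hE
  rw [hφ.bracket h hcb t] at hE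
  have h5 := (mul_eq_zero.1 hE).resolve_left h1.ne'
  set br := nt Γ T U c t * (P1 φ (c, nxt Γ T U c t) - P1 φ (c, t)) / nc Γ T U c t with hbr
  have h6 : 0 ≤ br ^ 2 / nt Γ T U c t := by positivity
  have h7 : br ^ 2 / nt Γ T U c t = 0 := by linarith
  have h8 : br = 0 := by
    rcases div_eq_zero_iff.1 h7 with h9 | h9
    · exact pow_eq_zero_iff (two_ne_zero) |>.1 h9
    · exact absurd h9 h2.ne'
  refine ⟨h4 (by linarith), ?_⟩
  rw [hbr] at h8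
  rcases div_eq_zero_iff.1 h8 with h9 | h9
  · have h10 := (mul_eq_zero.1 h9).resolve_left h2.ne'
    linarith
  · exact absurd h9 h1.ne'

/-- every point below a leaf lies on a smaller leaf -/
lemma exists_leaf (h : SSys T Γ U) {c₀ : ℝ} (hc₀ : c₀ ∈ Ioo (0:ℝ) 1) {t s : ℝ} (h1 : t < s)
    (h2 : s < nxt Γ T U c₀ t) : ∃ c ∈ Ioo 0 c₀, nxt Γ T U c t = s := by
  have k1 : ∀ᶠ c in 𝓝[>] (0:ℝ), nxt Γ T U c t < s :=
    (h.tendsto_nxt_zero t).eventually (gt_mem_nhds h1)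
  have k2 : ∀ᶠ c in 𝓝[>] (0:ℝ), c ∈ Ioo (0:ℝ) c₀ := Ioo_mem_nhdsGT hc₀.1
  obtain ⟨a, ha1, ha2⟩ := (k1.and k2).exists
  have hsub : Icc a c₀ ⊆ Ioo (0:ℝ) 1 := fun c hc => ⟨ha2.1.trans_le hc.1, hc.2.trans_lt hc₀.2⟩
  have hcont : ContinuousOn (fun c => nxt Γ T U c t) (Icc a c₀) := fun c hc =>
    (h.hasDerivAt_nxt_c (hsub hc) t).continuousAt.continuousWithinAt
  obtain ⟨c, hc, hc'⟩ := intermediate_value_Icc ha2.2.le hcont ⟨ha1.le, h2.le⟩
  refine ⟨c, ⟨ha2.1.trans_le hc.1, lt_of_le_of_ne hc.2 ?_⟩, hc'⟩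
  rintro rfl
  exact absurd hc' h2.ne'

/-- **The curve is symmetric below a leaf whose leaf integral is not positive.** -/
theorem dd_symm (h : SSys T Γ U) (hφ : CB T Γ U b φ) (hW : ∀ y, Wr Γ y = 1) {c₀ : ℝ}
    (hc₀ : c₀ ∈ Ioo 0 b) (hB : BB Γ T U φ c₀ ≤ 0) {t s : ℝ} (h1 : t < s)
    (h2 : s < nxt Γ T U c₀ t) : dd Γ t s = dd Γ s t := by
  obtain ⟨c, hc, rfl⟩ := exists_leaf h ⟨hc₀.1, hc₀.2.trans_le hφ.b1⟩ h1 h2
  exact (leaf_rigid h hφ hW hc₀ hB hc t).1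

end Pool.Agent.MP_ae5b4e_an_PN
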