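import Mathlib
import Pool.Agent.Lib.MP_ae5b4e_an_PN.Defs
import Pool.Agent.Lib.MP_ae5b4e_an_P3.Red
import Pool.Agent.Lib.MP_ae5b4e_an_P3.Tri

/-!
# MP_ae5b4e_an, project PN, (E): from the geometric data to the normal form
-/

noncomputable section

namespace Pool.Agent.MP_ae5b4e_an_PN

open Set Filter Topology Real MeasureTheory intervalIntegral
open scoped ContDiff
open Pool.Agent.MP_ae5b4e_an_hopf
open Pool.Agent.MP_ae5b4e_an_RG
open Pool.Agent.MP_ae5b4e_an_ALT (SSys)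
open Pool.Agent.MP_ae5b4e_an_RIG (Sol Normal lift rU)
open Pool.Agent.MP_ae5b4e_an_P3 (Reach3)

/-- the geometric data: a smooth foliation with projective involutions which preserve the area form
`N ^ (-3)` on the cone `V` -/
structure GeoN (γ : ConvexCurve) (U : ℝ → ℝ → ℝ) (κ : ℝ → ℝ) (V : Set (Fin 3 → ℝ))
    (N : (Fin 3 → ℝ) → ℝ) : Prop where
  smooth : ContDiffOn ℝ ∞ (fun q : ℝ × ℝ => U q.1 q.2) (Ioo 0 1 ×ˢ univ)
  per : ∀ c ∈ Ioo (0:ℝ) 1, ∀ t, U c (t + γ.T) = U c t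
  simple : ∀ c ∈ Ioo (0:ℝ) 1, ∀ t t', γ.pt t (U c t) = γ.pt t' (U c t') →
    ∃ n : ℤ, t' = t + n * γ.T
  mono : ∀ c ∈ Ioo (0:ℝ) 1, ∀ t, deriv (fun r => U r t) c < 0
  lim : ∀ t, Tendsto (fun c => U c t) (𝓝[>] 0) atTop
  proj : ∀ c ∈ Ioo (0:ℝ) 1, ∀ t u v, u ≠ v → γ.pt t u ∈ γ.leaf U c →
    γ.pt t v ∈ γ.leaf U c → u + v = κ t
  isOpen : IsOpen V
  smoothN : ContDiffOn ℝ ∞ N V
  pos : ∀ v ∈ V, 0 < N v
  cone : ∀ r : ℝ, r ≠ 0 → ∀ v ∈ V, r • v ∈ V ∧ N (r • v) = |r| * N v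
  curve : ∀ t, γ.Γ t ∈ V
  inv : ∀ c ∈ Ioo (0:ℝ) 1, ∀ t u v, u ≠ v → γ.pt t u ∈ γ.leaf U c → γ.pt t v ∈ γ.leaf U c →
    γ.hvec t u ∈ V → γ.hvec t v ∈ V ∧ N (γ.hvec t u) = N (γ.hvec t v)

theorem GeoN.sol {γ : ConvexCurve} {U : ℝ → ℝ → ℝ} {κ : ℝ → ℝ} {V : Set (Fin 3 → ℝ)}
    {N : (Fin 3 → ℝ) → ℝ} (h : GeoN γ U κ V N) : Sol γ U κ where
  cont := h.smooth.continuousOn
  per := h.per
  simple := h.simple
  anti := strictAnti_of_deriv h.smooth h.mono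
  lim := h.lim
  reg := Or.inr ⟨h.smooth, h.mono⟩
  proj := h.proj

/-! ## The two points of a leaf on a tangent line -/

/-- the potential at the second point of the leaf on a tangent line -/
lemma GeoN.even {γ : ConvexCurve} {U : ℝ → ℝ → ℝ} {κ : ℝ → ℝ} {V : Set (Fin 3 → ℝ)}
    {N : (Fin 3 → ℝ) → ℝ} (h : GeoN γ U κ V N) {c : ℝ} (hc : c ∈ Ioo (0:ℝ) 1) (y : ℝ)
    (hm : γ.hvec y (U c y) ∈ V) :
    γ.hvec y (κ y - U c y) ∈ V ∧ N (γ.hvec y (U c y)) = N (γ.hvec y (κ y - U c y)) := by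
  obtain ⟨t, rfl⟩ := h.sol.lsys.surj_nxt hc y
  obtain ⟨hts, hst, hL⟩ := h.sol.lsys.nxt_spec c t
  have hC := γ.isCurve
  have n1 := (hC.dd_pos_right hts hst).ne'
  have n2 := (hC.dd_pos_left hts hst).ne'
  have h1 := γ.pt_inter n1 n2 hL
  have h2 := h.sol.lsys.feq' hc t
  have h5 := Pool.Agent.MP_ae5b4e_an_ALT.sol_two h.sol hc (nxt γ.Γ γ.T U c t)
  set s := nxt γ.Γ γ.T U c t
  have h3 : κ s - U c s = -L1 γ.Γ s t := by linarith
  refine h.inv c hc s (U c s) (κ s - U c s) (fun he => h5 (by linarith)) ⟨s, rfl⟩ ?_ hm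
  rw [h3, h1]
  exact ⟨t, rfl⟩

section
variable {γ : ConvexCurve} {κ σ lam r m : ℝ → ℝ}

/-- the derivative of the normalized lift -/
lemma deriv_lift (hN : Normal γ κ σ lam r m) (x : ℝ) :
    deriv (lift γ σ lam) x = (lam x * deriv σ x) •
      ((κ (σ x) / 2) • γ.Γ (σ x) + deriv γ.Γ (σ x)) := by
  have hC := γ.isCurve
  have hσd : HasDerivAt σ (deriv σ x) x := (hN.smooth_σ.differentiable (by simp) x).hasDerivAt
  have hld : HasDerivAt lam (lam x * (κ (σ x) / 2) * deriv σ x) x := by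
    rw [← hN.eq_lam x]
    exact (hN.smooth_lam.differentiable (by simp) x).hasDerivAt
  apply HasDerivAt.deriv
  have k2 := (hC.hd0 (σ x)).scomp x hσd
  refine (hld.smul k2).congr_deriv ?_
  funext i
  simp only [Function.comp, Pi.add_apply, Pi.smul_apply, smul_eq_mul]
  ring

/-- the points of the tangent lines in the normal form -/
lemma lift_vec (hN : Normal γ κ σ lam r m) (x u : ℝ) :
    (deriv σ x * (u - κ (σ x) / 2)) • lift γ σ lam x + deriv (lift γ σ lam) x =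
      (lam x * deriv σ x) • γ.hvec (σ x) u := by
  rw [deriv_lift hN, γ.hvec_eq]
  unfold lift
  funext i
  simp only [Pi.add_apply, Pi.smul_apply, smul_eq_mul]
  ring

end

/-- A continuous map which takes values in an open set for the parameters up to `c₁` takes values in
this set a bit further. -/
lemma exists_larger_mem {g : ℝ × ℝ → Fin 3 → ℝ} {V : Set (Fin 3 → ℝ)} (hV : IsOpen V)
    (hg : ContinuousOn g (Ioo 0 1 ×ˢ univ)) (hper : ∀ c ∈ Ioo (0:ℝ) 1, ∀ t, g (c, t + 1) = g (c, t))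
    {c₁ : ℝ} (hc₁ : c₁ ∈ Ioo (0:ℝ) 1) (hmem : ∀ c ∈ Ioc 0 c₁, ∀ t, g (c, t) ∈ V) :
    ∃ b ∈ Ioc c₁ 1, ∀ c ∈ Ioo 0 b, ∀ t, g (c, t) ∈ V := by
  have hO : IsOpen ((Ioo (0:ℝ) 1 ×ˢ (univ : Set ℝ)) ∩ g ⁻¹' V) :=
    hg.isOpen_inter_preimage (isOpen_Ioo.prod isOpen_univ) hV
  have hsub : ({c₁} : Set ℝ) ×ˢ Icc (0:ℝ) 1 ⊆ (Ioo (0:ℝ) 1 ×ˢ (univ : Set ℝ)) ∩ g ⁻¹' V := by
    rintro ⟨c, t⟩ ⟨hc, -⟩
    rw [mem_singleton_iff] at hc
    subst hc
    exact ⟨⟨hc₁, mem_univ _⟩, hmem c ⟨hc₁.1, le_rfl⟩ t⟩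
  obtain ⟨u, v, hu, hv, hu1, hv1, huv⟩ :=
    generalized_tube_lemma isCompact_singleton isCompact_Icc hO hsub
  have hc₁u : c₁ ∈ u := hu1 rfl
  obtain ⟨b', hb1, hb2⟩ : ∃ b' > c₁, Ico c₁ b' ⊆ u :=
    exists_Ico_subset_of_mem_nhds (hu.mem_nhds hc₁u) ⟨c₁ + 1, by simp⟩
  refine ⟨min b' 1, ⟨lt_min hb1 hc₁.2, min_le_right _ _⟩, fun c hc t => ?_⟩
  rcases le_or_gt c c₁ with h1 | h1
  · exact hmem c ⟨hc.1, h1⟩ t
  · have hc1 : c ∈ Ioo (0:ℝ) 1 := ⟨hc.1, hc.2.trans_le (min_le_right _ _)⟩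
    have hcu : c ∈ u := hb2 ⟨h1.le, hc.2.trans_le (min_le_left _ _)⟩
    have hp : Function.Periodic (fun t => g (c, t)) 1 := fun t => hper c hc1 t
    obtain ⟨y, hy, hy'⟩ := hp.exists_mem_Ico₀ one_pos t
    rw [show g (c, t) = g (c, y) from hy']
    exact (huv (show (c, y) ∈ u ×ˢ v from ⟨hcu, hv1 ⟨hy.1, hy.2.le⟩⟩)).2

/-- the coordinate near the curve -/
lemma near_L1 {T : ℝ} {Γ : ℝ → Fin 3 → ℝ} (hC : Curve T Γ) :
    ∃ η, 0 < η ∧ η ≤ 1 ∧ ∀ t s : ℝ, t < s → s < t + η → 1 / (s - t) ≤ -L1 Γ t s := by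
  have hT := hC.T_pos
  obtain ⟨C1, hC1, b1⟩ := hC.nice_el.P1.bounded hT
  refine ⟨min (min (T / 2) 1) (1 / (1 + C1)), lt_min (lt_min (by positivity) one_pos)
    (by positivity), (min_le_left _ _).trans (min_le_right _ _), fun t s hts hst => ?_⟩
  have h1 : s - t < T / 2 := by
    have := (min_le_left (min (T / 2) 1) (1 / (1 + C1))).trans (min_le_left _ _)
    linarith
  have h2 : s - t < 1 / (1 + C1) := by
    have := min_le_right (min (T / 2) 1) (1 / (1 + C1))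
    linarith
  have h3 : (s - t) * (1 + C1) < 1 := by
    rwa [lt_div_iff₀ (by positivity)] at h2
  have hz : 0 < s - t := by linarith
  have habs : |t - s| = s - t := by rw [abs_sub_comm, abs_of_pos hz]
  have e := hC.L1_eq (x := t) (y := s) hts.ne (by rw [habs]; linarith)
  have k := b1 (t, s) (by show |t - s| ≤ T / 2; rw [habs]; linarith)
  have k' := (abs_le.1 k).2
  rw [e]
  have e2 : 2 / (t - s) = -(2 / (s - t)) := by
    rw [← neg_sub s t, div_neg]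
  rw [e2]
  have h4 : C1 ≤ 1 / (s - t) := by
    rw [le_div_iff₀ hz]
    nlinarith
  have h5 : 2 / (s - t) = 1 / (s - t) + 1 / (s - t) := by ring
  linarith

/-! ## The potential near the curve -/

section near

variable {G : ℝ → Fin 3 → ℝ} {V : Set (Fin 3 → ℝ)} {N : (Fin 3 → ℝ) → ℝ}

/-- the potential near the curve, in the coordinate `z = 1 / X` -/
def gg (G : ℝ → Fin 3 → ℝ) (N : (Fin 3 → ℝ) → ℝ) (q : ℝ × ℝ) : ℝ :=
  log (N (G q.1 + q.2 • deriv G q.1))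

/-- its domain -/
def Om (G : ℝ → Fin 3 → ℝ) (V : Set (Fin 3 → ℝ)) : Set (ℝ × ℝ) :=
  {q | G q.1 + q.2 • deriv G q.1 ∈ V}

variable (hC : Curve 1 G) (hV : IsOpen V) (hNs : ContDiffOn ℝ ∞ N V) (hpos : ∀ v ∈ V, 0 < N v)
  (hG : ∀ x, G x ∈ V)
include hC

lemma contDiff_line : ContDiff ℝ ∞ fun q : ℝ × ℝ => G q.1 + q.2 • deriv G q.1 :=
  (hC.smooth.comp contDiff_fst).add (contDiff_snd.smul (hC.smooth1.comp contDiff_fst))

include hV in
lemma isOpen_Om : IsOpen (Om G V) := hV.preimage (contDiff_line hC).continuous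

include hNs hpos in
lemma contDiffOn_gg : ContDiffOn ℝ ∞ (gg G N) (Om G V) :=
  (hNs.comp (contDiff_line hC).contDiffOn fun _ hq => hq).log fun _ hq => (hpos _ hq).ne'

include hV hNs hpos hG in
/-- the bound for its derivative -/
lemma bound_gg : ∃ z₀ C : ℝ, 0 < z₀ ∧ 0 ≤ C ∧ ∀ x z, |z| ≤ z₀ →
    (x, z) ∈ Om G V ∧ |P2 (gg G N) (x, z)| ≤ C := by
  have hO := isOpen_Om hC hV
  have hg := contDiffOn_gg hC hNs hpos
  have hsub : Icc (0:ℝ) 1 ×ˢ ({0} : Set ℝ) ⊆ Om G V := by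
    rintro ⟨x, z⟩ ⟨-, hz⟩
    rw [mem_singleton_iff] at hz
    subst hz
    show G x + (0:ℝ) • deriv G x ∈ V
    rw [zero_smul, add_zero]
    exact hG x
  obtain ⟨u, v, hu, hv, hu1, hv1, huv⟩ :=
    generalized_tube_lemma isCompact_Icc isCompact_singleton hO hsub
  obtain ⟨ε, hε, hεv⟩ := Metric.isOpen_iff.1 hv 0 (hv1 rfl)
  have hin : ∀ x ∈ Icc (0:ℝ) 1, ∀ z, |z| ≤ ε / 2 → (x, z) ∈ Om G V := by
    intro x hx z hz
    refine huv ⟨hu1 hx, hεv ?_⟩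
    rw [Metric.mem_ball, Real.dist_eq, sub_zero]
    linarith
  have hK : IsCompact (Icc (0:ℝ) 1 ×ˢ Icc (-(ε / 2)) (ε / 2)) := isCompact_Icc.prod isCompact_Icc
  obtain ⟨C, hCb⟩ := hK.exists_bound_of_continuousOn
    ((Pool.Agent.MP_ae5b4e_an_P3.Mn.contDiffOn_P2 hO hg).continuousOn.mono
      (fun q hq => hin q.1 hq.1 q.2 (abs_le.2 hq.2)))
  have hC0 : 0 ≤ C := (norm_nonneg _).trans (hCb (0, 0)
    ⟨⟨le_rfl, zero_le_one⟩, ⟨by linarith, by linarith⟩⟩)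
  have hperΩ : ∀ x z, (x + 1, z) ∈ Om G V ↔ (x, z) ∈ Om G V := by
    intro x z
    show G (x + 1) + z • deriv G (x + 1) ∈ V ↔ G x + z • deriv G x ∈ V
    rw [hC.per, hC.per1]
  have hz : ∀ x z, (x, z) ∈ Om G V → HasDerivAt (fun z => gg G N (x, z)) (P2 (gg G N) (x, z)) z := by
    intro x z hq
    have k := Pool.Agent.MP_ae5b4e_an_P3.Mn.comp2 hO hg (hasDerivAt_const z x) (hasDerivAt_id z) hq
    simpa using k
  refine ⟨ε / 2, C, half_pos hε, hC0, fun x z hzb => ?_⟩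
  set P : ℝ → Prop := fun x => (x, z) ∈ Om G V ∧ |P2 (gg G N) (x, z)| ≤ C with hP
  have hper : ∀ x, P (x + 1) ↔ P x := by
    intro x
    have e : (x, z) ∈ Om G V → P2 (gg G N) (x + 1, z) = P2 (gg G N) (x, z) := by
      intro hq
      have k1 := hz (x + 1) z ((hperΩ x z).2 hq)
      have e1 : (fun z => gg G N (x + 1, z)) = fun z => gg G N (x, z) := by
        funext z
        show log (N (G (x + 1) + z • deriv G (x + 1))) = log (N (G x + z • deriv G x))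
        rw [hC.per, hC.per1]
      rw [e1] at k1
      exact k1.unique (hz x z hq)
    constructor
    · rintro ⟨k1, k2⟩
      have k3 := (hperΩ x z).1 k1
      exact ⟨k3, by rwa [e k3] at k2⟩
    · rintro ⟨k1, k2⟩
      exact ⟨(hperΩ x z).2 k1, by rwa [e k1]⟩
  have hbase : ∀ x ∈ Icc (0:ℝ) 1, P x := fun x hx =>
    ⟨hin x hx z hzb, by
      have := hCb (x, z) ⟨hx, abs_le.1 hzb⟩
      rwa [Real.norm_eq_abs] at this⟩
  have hp : Function.Periodic P 1 := fun x => propext (hper x)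
  obtain ⟨y, hy, hy'⟩ := hp.exists_mem_Ico₀ one_pos x
  rw [show ((x, z) ∈ Om G V ∧ |P2 (gg G N) (x, z)| ≤ C) = P y from hy']
  exact hbase y ⟨hy.1, hy.2.le⟩

end near

/-- (E) The normal form. -/
theorem GeoN.norm {γ : ConvexCurve} {U : ℝ → ℝ → ℝ} {κ : ℝ → ℝ} {V : Set (Fin 3 → ℝ)}
    {N : (Fin 3 → ℝ) → ℝ} (h : GeoN γ U κ V N) {c₁ : ℝ} (hc₁ : c₁ ∈ Ioo (0:ℝ) 1)
    (hV : ∀ c ∈ Ioc 0 c₁, ∀ t, γ.hvec t (U c t) ∈ V) :
    ∃ (σ lam r m : ℝ → ℝ) (b : ℝ) (φ : ℝ × ℝ → ℝ), Normal γ κ σ lam r m ∧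
      SSys 1 (lift γ σ lam) (rU κ σ U) ∧ (∀ x, Wr (lift γ σ lam) x = 1) ∧ c₁ < b ∧
      CB 1 (lift γ σ lam) (rU κ σ U) b φ := by
  obtain ⟨σ, lam, r, m, hN⟩ := h.sol.exists_normal
  have hS := Pool.Agent.MP_ae5b4e_an_ALT.ssys_of_sol h.sol h.smooth h.mono hN
  have hC := hS.curve
  set G := lift γ σ lam with hGdef
  set X := rU κ σ U with hXdef
  have hls : ∀ x, 0 < lam x * deriv σ x := fun x => mul_pos (hN.pos_lam x) (hN.pos_σ x)
  have hXpos : ∀ c ∈ Ioo (0:ℝ) 1, ∀ x, 0 < X c x := fun c hc x =>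
    Pool.Agent.MP_ae5b4e_an_ALT.rU_pos h.sol hN hc x
  -- the points of the leaves
  set W : ℝ × ℝ → Fin 3 → ℝ := fun q => X q.1 q.2 • G q.2 + deriv G q.2 with hW
  have hWe : ∀ c x, W (c, x) = (lam x * deriv σ x) • γ.hvec (σ x) (U c (σ x)) := fun c x =>
    lift_vec hN x (U c (σ x))
  have hWs : ContDiffOn ℝ ∞ W (Ioo 0 1 ×ˢ univ) :=
    (hS.smooth.smul (hC.smooth.comp contDiff_snd).contDiffOn).add
      (hC.smooth1.comp contDiff_snd).contDiffOn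
  have hWper : ∀ c ∈ Ioo (0:ℝ) 1, ∀ t, W (c, t + 1) = W (c, t) := by
    intro c hc t
    show X c (t + 1) • G (t + 1) + deriv G (t + 1) = X c t • G t + deriv G t
    rw [hS.per c hc, hC.per, hC.per1]
  have hWV : ∀ c x, γ.hvec (σ x) (U c (σ x)) ∈ V → W (c, x) ∈ V := fun c x hv => by
    rw [hWe]
    exact (h.cone _ (hls x).ne' _ hv).1
  have hVW : ∀ c x, W (c, x) ∈ V → γ.hvec (σ x) (U c (σ x)) ∈ V := fun c x hv => by
    have k := (h.cone (lam x * deriv σ x)⁻¹ (inv_ne_zero (hls x).ne') _ hv).1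
    rwa [hWe, smul_smul, inv_mul_cancel₀ (hls x).ne', one_smul] at k
  obtain ⟨b, hb, hbV⟩ := exists_larger_mem h.isOpen hWs.continuousOn hWper hc₁
    fun c hc t => hWV c t (hV c hc (σ t))
  have hb1 : ∀ c ∈ Ioo 0 b, c ∈ Ioo (0:ℝ) 1 := fun c hc => ⟨hc.1, hc.2.trans_le hb.2⟩
  -- the opposite points
  have hopp : ∀ c ∈ Ioo 0 b, ∀ x, X c x • G x - deriv G x ∈ V ∧
      N (X c x • G x - deriv G x) = N (W (c, x)) := by
    intro c hc x
    obtain ⟨k1, k2⟩ := h.even (hb1 c hc) (σ x) (hVW c x (hbV c hc x))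
    have e : X c x • G x - deriv G x =
        (-(lam x * deriv σ x)) • γ.hvec (σ x) (κ (σ x) - U c (σ x)) := by
      rw [neg_smul, ← lift_vec hN x]
      have : deriv σ x * (κ (σ x) - U c (σ x) - κ (σ x) / 2) = -X c x := by
        rw [hXdef]
        unfold rU
        ring
      rw [this, neg_smul]
      abel
    obtain ⟨m1, m2⟩ := h.cone (-(lam x * deriv σ x)) (neg_ne_zero.2 (hls x).ne') _ k1
    rw [e]
    refine ⟨m1, ?_⟩
    rw [m2, hWe, (h.cone _ (hls x).ne' _ (hVW c x (hbV c hc x))).2, abs_neg, k2]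
  -- the potential
  set φ : ℝ × ℝ → ℝ := fun q => log (N (W q)) with hφ
  have hφs : ContDiffOn ℝ ∞ φ (Ioo 0 b ×ˢ univ) := by
    have k1 : ContDiffOn ℝ ∞ (fun q => N (W q)) (Ioo 0 b ×ˢ univ) :=
      h.smoothN.comp (hWs.mono (prod_mono (Ioo_subset_Ioo_right hb.2) Subset.rfl))
        fun q hq => hbV q.1 hq.1 q.2
    exact k1.log fun q hq => (h.pos _ (hbV q.1 hq.1 q.2)).ne'
  refine ⟨σ, lam, r, m, b, φ, hN, hS, hN.wr, hb.1, ⟨hb.2, hφs, ?_, ?_⟩⟩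
  · intro c hc t
    show log (N (W (c, t + 1))) = log (N (W (c, t)))
    rw [hWper c (hb1 c hc)]
  · intro c hc t
    obtain ⟨a1, a2, a3⟩ := hS.nxt_spec c t
    have e5 : X c (nxt G 1 X c t) = L1 G (nxt G 1 X c t) t := hS.feq' (hb1 c hc) t
    set s := nxt G 1 X c t with hs
    have hA := hC.dd_pos_right a1 a2
    have hB := hC.dd_pos_left a1 a2
    have k := Pool.Agent.MP_ae5b4e_an_P3.vertex_eq (Γ := G) hA.ne' hB.ne'
    rw [a3, ← e5, neg_neg] at k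
    have k2 : dd G t s * N (W (c, t)) = dd G s t * N (W (c, s)) := by
      have m1 := (h.cone (dd G t s) hA.ne' _ (hbV c hc t)).2
      have m2 := (h.cone (dd G s t) hB.ne' _ (hopp c hc s).1).2
      rw [abs_of_pos hA] at m1
      rw [abs_of_pos hB, (hopp c hc s).2] at m2
      rw [← m1, ← m2]
      exact congrArg N k
    have p1 := h.pos _ (hbV c hc t)
    have p2 := h.pos _ (hbV c hc s)
    have k3 := congrArg log k2
    rw [log_mul hA.ne' p1.ne', log_mul hB.ne' p2.ne'] at k3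
    show log (N (W (c, s))) - log (N (W (c, t))) = dl G t s
    unfold dl
    linarith

/-- three steps in the normal form (compare `P3.GeoQ.three`) -/
theorem three_of_reach {γ : ConvexCurve} {U : ℝ → ℝ → ℝ} {κ : ℝ → ℝ} (h : Sol γ U κ)
    {σ lam r m : ℝ → ℝ} (hN : Normal γ κ σ lam r m) {c : ℝ}
    (hc : c ∈ Ioo (0:ℝ) 1) (h3 : Reach3 γ U c) :
    ∃ t, t + 1 ≤ nxt (lift γ σ lam) 1 (rU κ σ U) c (nxt (lift γ σ lam) 1 (rU κ σ U) c
      (nxt (lift γ σ lam) 1 (rU κ σ U) c t)) := by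
  obtain ⟨t₀, t₁, t₂, t₃, v₁, v₂, v₃, a1, a2, a3, a4, a5, a6, p1, p2, p3, hle⟩ := h3
  have hσm : StrictMono σ := strictMono_of_deriv_pos hN.pos_σ
  have hσs : Function.Surjective σ := by
    set f : ℝ → ℝ := fun s => σ (s / γ.T) with hf
    have hT := γ.T_pos
    have k1 : Continuous f := hN.smooth_σ.continuous.comp (by fun_prop)
    have k2 : ∀ s, f (s + γ.T) = f s + γ.T := fun s => by
      show σ ((s + γ.T) / γ.T) = σ (s / γ.T) + γ.T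
      rw [add_div, div_self hT.ne', hN.per_σ]
    intro t
    obtain ⟨s, hs⟩ := Pool.Agent.MP_ae5b4e_an_total.surjective_of_shift hT k1 k2 t
    exact ⟨s / γ.T, hs⟩
  obtain ⟨x₀, rfl⟩ := hσs t₀
  obtain ⟨x₁, rfl⟩ := hσs t₁
  obtain ⟨x₂, rfl⟩ := hσs t₂
  obtain ⟨x₃, rfl⟩ := hσs t₃
  rw [← hN.per_σ] at a2 a4 a6 hle
  have e1 := Pool.Agent.MP_ae5b4e_an_ALM.nxt_of_det h hN hc (hσm.lt_iff_lt.1 a1)
    (hσm.lt_iff_lt.1 a2) (Pool.Agent.MP_ae5b4e_an_P3.det_of_pt γ p1)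
  have e2 := Pool.Agent.MP_ae5b4e_an_ALM.nxt_of_det h hN hc (hσm.lt_iff_lt.1 a3)
    (hσm.lt_iff_lt.1 a4) (Pool.Agent.MP_ae5b4e_an_P3.det_of_pt γ p2)
  have e3 := Pool.Agent.MP_ae5b4e_an_ALM.nxt_of_det h hN hc (hσm.lt_iff_lt.1 a5)
    (hσm.lt_iff_lt.1 a6) (Pool.Agent.MP_ae5b4e_an_P3.det_of_pt γ p3)
  refine ⟨x₀, ?_⟩
  rw [e1, e2, e3]
  exact hσm.le_iff_le.1 hle

end Pool.Agent.MP_ae5b4e_an_PN
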