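import Mathlib
import Pool.Agent.Lib.MP_ae5b4e_an_PN.Mon
import Pool.Agent.Lib.MP_ae5b4e_an_P3.Core

/-!
# MP_ae5b4e_an, project PN, (C): the leaf of the 3-periodic points
-/

noncomputable section

namespace Pool.Agent.MP_ae5b4e_an_PN

open Set Filter Topology Real MeasureTheory intervalIntegral
open scoped ContDiff
open Pool.Agent.MP_ae5b4e_an_hopf
open Pool.Agent.MP_ae5b4e_an_hopf.Sys (nt nc)
open Pool.Agent.MP_ae5b4e_an_ALT
open Pool.Agent.MP_ae5b4e_an_P3 (vertex_eq det3_smul_left det3_smul_mid det3_smul_right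
  U_pos_of_three)

variable {Γ : ℝ → Fin 3 → ℝ} {T : ℝ} {U : ℝ → ℝ → ℝ} {b : ℝ} {φ : ℝ × ℝ → ℝ}

/-- The data at one tangency point `G` (with the derivative `G1`): `a` and `b` are the two adjacent
vertices of the triangle. -/
structure Cor (G G1 a b : Fin 3 → ℝ) (U r : ℝ) : Prop where
  Upos : 0 < U
  rpos : 0 < r
  hG : G = (r / (2 * U)) • (a + b)
  hG1 : G1 = (r / 2) • (a - b)

namespace Cor

variable {G G1 a b : Fin 3 → ℝ} {U r : ℝ}

lemma of (hU : 0 < U) (hr : 0 < r) (ha : r • a = U • G + G1) (hb : r • b = U • G - G1) :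
    Cor G G1 a b U r where
  Upos := hU
  rpos := hr
  hG := by
    have e : (2 * U) • G = r • (a + b) := by
      rw [smul_add, ha, hb, mul_smul, two_smul]
      abel
    have : G = (1 / (2 * U)) • ((2 * U) • G) := by
      rw [smul_smul]
      have : 1 / (2 * U) * (2 * U) = 1 := by field_simp
      rw [this, one_smul]
    rw [this, e, smul_smul]
    congr 1
    ring
  hG1 := by
    have e : (2:ℝ) • G1 = r • (a - b) := by
      rw [smul_sub, ha, hb, two_smul]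
      abel
    have : G1 = (1 / 2 : ℝ) • ((2:ℝ) • G1) := by
      rw [smul_smul]
      norm_num
    rw [this, e, smul_smul]
    congr 1
    ring

lemma line (h : Cor G G1 a b U r) (V : Fin 3 → ℝ) :
    det3 V G G1 = r ^ 2 / (2 * U) * det3 V b a := by
  have hU := h.Upos.ne'
  rw [h.hG, h.hG1, det3_smul_mid, det3_smul_right]
  have : det3 V (a + b) (a - b) = 2 * det3 V b a := by simp [det3]; ring
  rw [this]
  field_simp

variable {H H1 o : Fin 3 → ℝ} {U' r' : ℝ}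

lemma dd_next (h : Cor G G1 a b U r) (h' : Cor H H1 o a U' r') :
    det3 G H H1 = r * r' ^ 2 / (4 * U * U') * det3 a o b := by
  have hU := h.Upos.ne'
  have hU' := h'.Upos.ne'
  rw [h'.line, h.hG, det3_smul_left]
  have : det3 (a + b) a o = det3 a o b := by simp [det3]; ring
  rw [this]
  field_simp
  ring

lemma dd_prev (h : Cor G G1 a b U r) (h' : Cor H H1 o a U' r') :
    det3 H G G1 = r ^ 2 * r' / (4 * U * U') * det3 a o b := by
  have hU := h.Upos.ne'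
  have hU' := h'.Upos.ne'
  rw [h.line, h'.hG, det3_smul_left]
  have : det3 (o + a) b a = det3 a o b := by simp [det3]; ring
  rw [this]
  field_simp
  ring

end Cor

/-- the Pluecker relation -/
lemma L2_sub (x y z : ℝ) (h1 : dd Γ z x ≠ 0) (h2 : dd Γ y x ≠ 0) :
    L2 Γ z x - L2 Γ y x = Wr Γ x * det3 (Γ x) (Γ y) (Γ z) / (dd Γ z x * dd Γ y x) := by
  unfold L2
  rw [div_sub_div _ _ h1 h2]
  congr 1
  unfold ddy dd Wr det3
  ring

/-- the final algebra -/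
lemma tri_final {X0 X1 X2 r0 r1 r2 Om n0 n1 n2 p0 p1 p2 : ℝ} (hX0 : 0 < X0) (hX1 : 0 < X1)
    (hX2 : 0 < X2) (hr0 : 0 < r0) (hr1 : 0 < r1) (hr2 : 0 < r2) (hOm : 0 < Om) (hn0 : 0 < n0)
    (hn2 : 0 < n2) (hn : n0 * n1 * n2 = 1)
    (E0 : p1 * (4 * X0 * X1 / (r0 ^ 3 * Om)) + p2 * (4 * X0 * X2 / (r0 ^ 3 * Om)) -
      p0 * (n0 * (4 * X0 * X1 / (r1 ^ 3 * Om)) + 4 * X0 * X2 / (r2 ^ 3 * Om) / n2) =
      -2 * X0 + 4 * X0 / (r0 ^ 3 * Om))
    (E1 : p2 * (4 * X1 * X2 / (r1 ^ 3 * Om)) + p0 * (4 * X0 * X1 / (r1 ^ 3 * Om)) -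
      p1 * (n1 * (4 * X1 * X2 / (r2 ^ 3 * Om)) + 4 * X0 * X1 / (r0 ^ 3 * Om) / n0) =
      -2 * X1 + 4 * X1 / (r1 ^ 3 * Om)) :
    ∃ Z > 0, 2 * Z * (p1 * r1 ^ 3 / n0 - p0 * r0 ^ 3) = Om * (r1 ^ 3 - r0 ^ 3) := by
  have hn1' : n1 = 1 / (n0 * n2) := by
    field_simp
    linarith
  set Z := X0 / r0 ^ 3 + n0 * X1 / r1 ^ 3 + X2 / (n2 * r2 ^ 3) with hZ
  have hZpos : 0 < Z := by positivity
  refine ⟨Z, hZpos, ?_⟩
  have m0 : 2 * Z * (p0 * r0 ^ 3) = 2 * (X0 * p0 + X1 * p1 + X2 * p2) - 2 + Om * r0 ^ 3 := by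
    have e : n0 * (4 * X0 * X1 / (r1 ^ 3 * Om)) + 4 * X0 * X2 / (r2 ^ 3 * Om) / n2 =
        4 * X0 / Om * (Z - X0 / r0 ^ 3) := by
      rw [hZ]
      field_simp
      ring
    rw [e] at E0
    field_simp at E0
    have : X0 * (2 * Z * (p0 * r0 ^ 3)) = X0 *
        (2 * (X0 * p0 + X1 * p1 + X2 * p2) - 2 + Om * r0 ^ 3) := by
      nlinarith [E0]
    exact mul_left_cancel₀ hX0.ne' this
  have m1 : 2 * Z * (p1 * r1 ^ 3 / n0) =
      2 * (X0 * p0 + X1 * p1 + X2 * p2) - 2 + Om * r1 ^ 3 := by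
    have e : n1 * (4 * X1 * X2 / (r2 ^ 3 * Om)) + 4 * X0 * X1 / (r0 ^ 3 * Om) / n0 =
        4 * X1 / (n0 * Om) * (Z - n0 * X1 / r1 ^ 3) := by
      rw [hZ, hn1']
      field_simp
      ring
    rw [e] at E1
    field_simp at E1 ⊢
    have : X1 * (2 * Z * (p1 * r1 ^ 3)) = X1 *
        (n0 * (2 * (X0 * p0 + X1 * p1 + X2 * p2) - 2 + Om * r1 ^ 3)) := by
      nlinarith [E1]
    have := mul_left_cancel₀ hX1.ne' this
    linarith
  rw [mul_sub, m0, m1]
  ring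

/-- the derivative in the parameter of the leaf is periodic -/
lemma CB.P1_per (hφ : CB T Γ U b φ) {c : ℝ} (hc : c ∈ Ioo 0 b) (t : ℝ) :
    P1 φ (c, t + T) = P1 φ (c, t) := by
  have hd : ∀ x, DifferentiableAt ℝ φ (c, x) := fun x =>
    ((hφ.smooth.contDiffAt ((isOpen_Ioo.prod isOpen_univ).mem_nhds ⟨hc, mem_univ _⟩))
      ).differentiableAt (by simp)
  have h1 : ∀ x, HasDerivAt (fun r => φ (r, x)) (P1 φ (c, x)) c := fun x => by
    have k := (hd x).hasFDerivAt.comp_hasDerivAt c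
      (((hasDerivAt_id c).prodMk (hasDerivAt_const c x)))
    exact k
  have h2 : (fun r => φ (r, t + T)) =ᶠ[𝓝 c] fun r => φ (r, t) := by
    filter_upwards [isOpen_Ioo.mem_nhds hc] with r hr
    exact hφ.per r hr t
  exact (h1 (t + T)).unique ((h1 t).congr_of_eventuallyEq h2)

/-- the relation at three consecutive tangency points -/
theorem CB.eqE (hφ : CB T Γ U b φ) (h : SSys T Γ U) {c : ℝ} (hc : c ∈ Ioo 0 b) (p : ℝ) :
    pp U φ c (nxt Γ T U c (nxt Γ T U c p)) * KK Γ (nxt Γ T U c (nxt Γ T U c p)) (nxt Γ T U c p) +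
      pp U φ c p * KK Γ p (nxt Γ T U c p) -
      pp U φ c (nxt Γ T U c p) * (nt Γ T U c (nxt Γ T U c p) *
        KK Γ (nxt Γ T U c p) (nxt Γ T U c (nxt Γ T U c p)) +
        KK Γ (nxt Γ T U c p) p / nt Γ T U c p) =
      -2 * U c (nxt Γ T U c p) + L2 Γ p (nxt Γ T U c p) -
        L2 Γ (nxt Γ T U c (nxt Γ T U c p)) (nxt Γ T U c p) := by
  have hc1 : c ∈ Ioo (0:ℝ) 1 := ⟨hc.1, hc.2.trans_le hφ.b1⟩
  set t := nxt Γ T U c p with ht
  set s := nxt Γ T U c t with hs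
  have r1 := hφ.rel_c h hc t
  have r2 := hφ.rel_t h hc t
  have r3 := hφ.rel_c h hc p
  rw [← hs] at r1 r2
  rw [← ht] at r3
  obtain ⟨a1, a2, a3⟩ := h.nxt_spec c t
  obtain ⟨b1, b2, b3⟩ := h.nxt_spec c p
  rw [← hs] at a1 a2 a3
  rw [← ht] at b1 b2 b3
  have b4 : L1 Γ t p = U c t := by
    have := h.feq' hc1 p
    rw [← ht] at this
    exact this.symm
  have n1 := h.nt_pos hc1 t
  have n2 := h.nt_pos hc1 p
  have m1 := h.nc_pos hc1 t
  have m2 := h.nc_pos hc1 p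
  have k1 := h.curve.KK_pos_right a1 a2
  have k2 := h.curve.KK_pos_right b1 b2
  have q1 : nc Γ T U c t * KK Γ t s = -Uc U (c, t) := by
    have : nc Γ T U c t = -(Uc U (c, t)) / KK Γ t s := rfl
    rw [this]
    field_simp
  have q2 : nc Γ T U c p * KK Γ p t = -Uc U (c, p) := by
    have : nc Γ T U c p = -(Uc U (c, p)) / KK Γ p t := rfl
    rw [this]
    field_simp
  have q3 : Uc U (c, s) * nt Γ T U c t = -(KK Γ s t * nc Γ T U c t) := by
    have e1 := h.eq_c hc1 t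
    have e2 := h.eq_t hc1 t
    rw [← hs] at e1 e2
    rw [← e2]
    linear_combination (nt Γ T U c t) * e1
  have q4 : Uc U (c, t) * nt Γ T U c p = -(KK Γ t p * nc Γ T U c p) := by
    have e1 := h.eq_c hc1 p
    have e2 := h.eq_t hc1 p
    rw [← ht] at e1 e2
    rw [← e2]
    linear_combination (nt Γ T U c p) * e1
  have w0 := (h.Uc_neg hc1 p).ne
  have w1 := (h.Uc_neg hc1 t).ne
  have w2 := (h.Uc_neg hc1 s).ne
  have d0 : P1 φ (c, p) = pp U φ c p * Uc U (c, p) := by unfold pp; field_simp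
  have d1 : P1 φ (c, t) = pp U φ c t * Uc U (c, t) := by unfold pp; field_simp
  have d2 : P1 φ (c, s) = pp U φ c s * Uc U (c, s) := by unfold pp; field_simp
  have f1 : KK Γ s t = -(Uc U (c, s) * nt Γ T U c t) / nc Γ T U c t := by
    rw [q3]; field_simp
  have f2 : KK Γ t p = -(Uc U (c, t) * nt Γ T U c p) / nc Γ T U c p := by
    rw [q4]; field_simp
  have f3 : KK Γ t s = -Uc U (c, t) / nc Γ T U c t := by rw [← q1]; field_simp
  have f4 : KK Γ p t = -Uc U (c, p) / nc Γ T U c p := by rw [← q2]; field_simp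
  rw [d1, d2] at r1
  rw [a3] at r2
  rw [d0, d1, b4] at r3
  have g1 : P2 φ (c, s) = (L2 Γ t s - L1 Γ s t) -
      (pp U φ c s * Uc U (c, s) - pp U φ c t * Uc U (c, t)) / nc Γ T U c t := by
    field_simp
    linarith
  have g2 : P2 φ (c, t) = (L2 Γ p t - U c t) -
      (pp U φ c t * Uc U (c, t) - pp U φ c p * Uc U (c, p)) / nc Γ T U c p := by
    field_simp
    linarith
  rw [g1, g2] at r2
  rw [f1, f2, f3, f4]
  have e5 : -(Uc U (c, t) * nt Γ T U c p) / nc Γ T U c p / nt Γ T U c p =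
      -Uc U (c, t) / nc Γ T U c p := by field_simp
  rw [e5]
  have e6 : (L2 Γ t s - L1 Γ s t -
      (pp U φ c s * Uc U (c, s) - pp U φ c t * Uc U (c, t)) / nc Γ T U c t) * nt Γ T U c t =
      (L2 Γ t s - L1 Γ s t) * nt Γ T U c t - pp U φ c s * (Uc U (c, s) * nt Γ T U c t /
        nc Γ T U c t) + pp U φ c t * (nt Γ T U c t * (Uc U (c, t) / nc Γ T U c t)) := by
    field_simp
    ring
  rw [e6] at r2
  have e7 : (pp U φ c t * Uc U (c, t) - pp U φ c p * Uc U (c, p)) / nc Γ T U c p =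
      pp U φ c t * (Uc U (c, t) / nc Γ T U c p) - pp U φ c p * (Uc U (c, p) / nc Γ T U c p) := by
    field_simp
  rw [e7] at r2
  simp only [neg_div]
  linarith

/-- the normalized vertex of the leaf on the tangent line at `x` -/
def vx (Γ : ℝ → Fin 3 → ℝ) (U : ℝ → ℝ → ℝ) (φ : ℝ × ℝ → ℝ) (c x : ℝ) : Fin 3 → ℝ :=
  (exp (φ (c, x)))⁻¹ • (U c x • Γ x + deriv Γ x)

lemma exp_smul_vx (c x : ℝ) : exp (φ (c, x)) • vx Γ U φ c x = U c x • Γ x + deriv Γ x := by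
  rw [vx, smul_smul, mul_inv_cancel₀ (exp_pos _).ne', one_smul]

lemma CB.exp_match (hφ : CB T Γ U b φ) (h : SSys T Γ U) {c : ℝ} (hc : c ∈ Ioo 0 b) (t : ℝ) :
    exp (φ (c, nxt Γ T U c t)) * dd Γ (nxt Γ T U c t) t =
      exp (φ (c, t)) * dd Γ t (nxt Γ T U c t) := by
  obtain ⟨a1, a2, -⟩ := h.nxt_spec c t
  have hA := h.curve.dd_pos_right a1 a2
  have hB := h.curve.dd_pos_left a1 a2
  have e := hφ.rel c hc t
  set s := nxt Γ T U c t
  have e1 : φ (c, s) = φ (c, t) + (log (dd Γ t s) - log (dd Γ s t)) := by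
    unfold dl at e
    linarith
  rw [e1, exp_add, exp_sub, exp_log hA, exp_log hB]
  field_simp

lemma CB.vx_match (hφ : CB T Γ U b φ) (h : SSys T Γ U) {c : ℝ} (hc : c ∈ Ioo 0 b) (t : ℝ) :
    exp (φ (c, nxt Γ T U c t)) • vx Γ U φ c t =
      U c (nxt Γ T U c t) • Γ (nxt Γ T U c t) - deriv Γ (nxt Γ T U c t) := by
  have hc1 : c ∈ Ioo (0:ℝ) 1 := ⟨hc.1, hc.2.trans_le hφ.b1⟩
  obtain ⟨a1, a2, a3⟩ := h.nxt_spec c t
  have e1 : U c (nxt Γ T U c t) = L1 Γ (nxt Γ T U c t) t := h.feq' hc1 t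
  have hA := h.curve.dd_pos_right a1 a2
  have hB := h.curve.dd_pos_left a1 a2
  have k := vertex_eq (Γ := Γ) hA.ne' hB.ne'
  have hm := hφ.exp_match h hc t
  rw [a3, ← e1, neg_neg] at k
  set s := nxt Γ T U c t
  have k3 : U c s • Γ s - deriv Γ s = (dd Γ s t)⁻¹ • (dd Γ t s • (U c t • Γ t + deriv Γ t)) := by
    rw [k, smul_smul, inv_mul_cancel₀ hB.ne', one_smul]
  have p1 := exp_pos (φ (c, t))
  rw [k3, vx, smul_smul, smul_smul]
  congr 1
  field_simp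
  exact hm

lemma CB.cor_nxt (hφ : CB T Γ U b φ) (h : SSys T Γ U) {c : ℝ} (hc : c ∈ Ioo 0 b)
    (hU : ∀ x, 0 < U c x) (t : ℝ) :
    Cor (Γ (nxt Γ T U c t)) (deriv Γ (nxt Γ T U c t)) (vx Γ U φ c (nxt Γ T U c t))
      (vx Γ U φ c t) (U c (nxt Γ T U c t)) (exp (φ (c, nxt Γ T U c t))) :=
  Cor.of (hU _) (exp_pos _) (exp_smul_vx c _) (hφ.vx_match h hc t)

/-- the derivatives of the map along a 3-periodic orbit -/
lemma nt_prod (h : SSys T Γ U) {c : ℝ} (hc : c ∈ Ioo (0:ℝ) 1)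
    (h3 : ∀ t, nxt Γ T U c (nxt Γ T U c (nxt Γ T U c t)) = t + T) (t : ℝ) :
    nt Γ T U c t * nt Γ T U c (nxt Γ T U c t) * nt Γ T U c (nxt Γ T U c (nxt Γ T U c t)) = 1 := by
  have d0 := h.hasDerivAt_nxt_t hc t
  have d1 := (h.hasDerivAt_nxt_t hc (nxt Γ T U c t)).comp t d0
  have d2 := (h.hasDerivAt_nxt_t hc (nxt Γ T U c (nxt Γ T U c t))).comp t d1
  have e : (fun t => nxt Γ T U c t) ∘ (fun t => nxt Γ T U c t) ∘ (fun t => nxt Γ T U c t) =
      fun t => t + T := by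
    funext x
    exact h3 x
  have e2 : (fun t => nxt Γ T U c t) ∘ ((fun t => nxt Γ T U c t) ∘ fun t => nxt Γ T U c t) =
      fun t => t + T := e
  rw [e2] at d2
  have k := d2.unique ((hasDerivAt_id t).add_const T)
  linarith

/-- (C) The pointwise inequality on the leaf of the 3-periodic points.

Proof.  `t 0 = t`, `t (i+1) = nxt (t i)`, `t 3 = t 0 + T`, `X i = U c (t i) > 0`
(`P3.U_pos_of_three`), `p i = pp c (t i)`, `n i = nt (t i)`.  `rel_t` at `t i` and `rel_c` at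
`t (i-1)`, eliminate `φ_t (t i)`:
(E i) `p (i+1) K (i+1, i) + p (i-1) K (i-1, i) - p i (n i K (i, i+1) + K (i, i-1) / n (i-1)) =
  -2 X i + L2 (i-1, i) - L2 (i+1, i)`, and by the Pluecker relation
`L2 (i-1, i) - L2 (i+1, i) = det (Γ 0, Γ 1, Γ 2) / (dd (i+1, i) dd (i-1, i))`.
Let `r i = exp (φ (t i))` (`r (i+1) / r i = exp (δ i) = dd (i, i+1) / dd (i+1, i)`),
`X i Γ i + Γ' i = r i e i`, so `X i Γ i - Γ' i = r i e (i-1)` and
`Γ i = r i (e i + e (i-1)) / (2 X i)`.  With `Ω = det (e)`: `dd (i+1, i) = r (i+1) r i ^ 2 Ω / (4 X i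
X (i+1))`, `dd (i, i+1) = r i r (i+1) ^ 2 Ω / (4 X i X (i+1))`; `tri_final` does the rest. -/
theorem BI_three (h : SSys T Γ U) (hφ : CB T Γ U b φ) (hW : ∀ y, Wr Γ y = 1) {c : ℝ}
    (hc : c ∈ Ioo 0 b) (h3 : ∀ t, nxt Γ T U c (nxt Γ T U c (nxt Γ T U c t)) = t + T) (t : ℝ) :
    BI Γ T U φ c t ≤ 0 := by
  have hc1 : c ∈ Ioo (0:ℝ) 1 := ⟨hc.1, hc.2.trans_le hφ.b1⟩
  have hU := U_pos_of_three h hc1 h3
  have hprod := nt_prod h hc1 h3 t
  have E0' := hφ.eqE h hc (nxt Γ T U c (nxt Γ T U c t))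
  have E1' := hφ.eqE h hc t
  rw [h3 t] at E0'
  have n0 := h.nt_pos hc1 t
  have n1 := h.nt_pos hc1 (nxt Γ T U c t)
  have n2 := h.nt_pos hc1 (nxt Γ T U c (nxt Γ T U c t))
  obtain ⟨a1, a2, -⟩ := h.nxt_spec c t
  have C2 := hφ.cor_nxt h hc hU (nxt Γ T U c t)
  have C1 := hφ.cor_nxt h hc hU t
  have C0 := hφ.cor_nxt h hc hU (nxt Γ T U c (nxt Γ T U c t))
  have hvT : vx Γ U φ c (t + T) = vx Γ U φ c t := by
    unfold vx
    rw [hφ.per c hc, h.per c hc1, h.curve.per, h.curve.per1]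
  have hpT : pp U φ c (nxt Γ T U c t + T) = pp U φ c (nxt Γ T U c t) := by
    unfold pp
    rw [hφ.P1_per hc, h.Uc_per hc1]
  have hpT0 : pp U φ c (t + T) = pp U φ c t := by
    unfold pp
    rw [hφ.P1_per hc, h.Uc_per hc1]
  have hnT : nt Γ T U c (t + T) = nt Γ T U c t := by
    unfold nt
    rw [h.nxt_per hc1, h.curve.L11_per_left, h.curve.L11_per_right, h.Ut_per hc1,
      h.curve.KK_per_left, h.curve.KK_per_right]
  rw [h3 t, hφ.per c hc, h.per c hc1, h.curve.per, h.curve.per1, hvT] at C0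
  rw [h.nxt_per hc1, hpT, hpT0, hnT, h.per c hc1] at E0'
  simp only [h.curve.KK_per_left, h.curve.KK_per_right, h.curve.L2_per_left,
    h.curve.L2_per_right] at E0'
  unfold BI
  set s := nxt Γ T U c t with hs
  set p := nxt Γ T U c s with hp
  set a := vx Γ U φ c t with ha
  set o := vx Γ U φ c s with ho
  set e := vx Γ U φ c p with he
  set r0 := exp (φ (c, t)) with hr0
  set r1 := exp (φ (c, s)) with hr1
  set r2 := exp (φ (c, p)) with hr2
  have q0 := C0.rpos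
  have q1 := C1.rpos
  have q2 := C2.rpos
  have u0 := C0.Upos
  have u1 := C1.Upos
  have u2 := C2.Upos
  set Om := det3 a o e with hOm
  have o1 : det3 o e a = Om := by rw [hOm]; unfold det3; ring
  have o2 : det3 e a o = Om := by rw [hOm]; unfold det3; ring
  have f01 : dd Γ t s = r0 * r1 ^ 2 / (4 * U c t * U c s) * Om := C0.dd_next C1
  have f10 : dd Γ s t = r0 ^ 2 * r1 / (4 * U c t * U c s) * Om := C0.dd_prev C1
  have f12 : dd Γ s p = r1 * r2 ^ 2 / (4 * U c s * U c p) * Om := by rw [← o1]; exact C1.dd_next C2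
  have f21 : dd Γ p s = r1 ^ 2 * r2 / (4 * U c s * U c p) * Om := by rw [← o1]; exact C1.dd_prev C2
  have f20 : dd Γ p t = r2 * r0 ^ 2 / (4 * U c p * U c t) * Om := by rw [← o2]; exact C2.dd_next C0
  have f02 : dd Γ t p = r2 ^ 2 * r0 / (4 * U c p * U c t) * Om := by rw [← o2]; exact C2.dd_prev C0
  have hOmp : 0 < Om := by
    have hA := h.curve.dd_pos_right a1 a2
    rw [f01] at hA
    exact (pos_iff_pos_of_mul_pos hA).1 (by positivity)
  have hdet : det3 (Γ t) (Γ s) (Γ p) =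
      r0 * r1 * r2 / (8 * U c t * U c s * U c p) * (2 * Om) := by
    rw [C0.hG, C1.hG, C2.hG, hOm]
    simp only [det3, Pi.smul_apply, Pi.add_apply, smul_eq_mul]
    field_simp
    ring
  have k01 : KK Γ t s = 4 * U c t * U c s / (r1 ^ 3 * Om) := by
    unfold KK
    rw [hW, f01, f10]
    field_simp
  have k10 : KK Γ s t = 4 * U c t * U c s / (r0 ^ 3 * Om) := by
    unfold KK
    rw [hW, f01, f10]
    field_simp
  have k12 : KK Γ s p = 4 * U c s * U c p / (r2 ^ 3 * Om) := by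
    unfold KK
    rw [hW, f12, f21]
    field_simp
  have k21 : KK Γ p s = 4 * U c s * U c p / (r1 ^ 3 * Om) := by
    unfold KK
    rw [hW, f12, f21]
    field_simp
  have k20 : KK Γ p t = 4 * U c t * U c p / (r0 ^ 3 * Om) := by
    unfold KK
    rw [hW, f20, f02]
    field_simp
  have k02 : KK Γ t p = 4 * U c t * U c p / (r2 ^ 3 * Om) := by
    unfold KK
    rw [hW, f20, f02]
    field_simp
  have nz : ∀ {x : ℝ}, 0 < x → x ≠ 0 := fun hx => hx.ne'
  have l0 : L2 Γ p t - L2 Γ s t = 4 * U c t / (r0 ^ 3 * Om) := by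
    rw [L2_sub t s p (by rw [f20]; positivity) (by rw [f10]; positivity), hW, hdet, f20, f10]
    field_simp
    ring
  have l1 : L2 Γ t s - L2 Γ p s = 4 * U c s / (r1 ^ 3 * Om) := by
    have hdet' : det3 (Γ s) (Γ p) (Γ t) = det3 (Γ t) (Γ s) (Γ p) := by unfold det3; ring
    rw [L2_sub s p t (by rw [f01]; positivity) (by rw [f21]; positivity), hW, hdet', hdet, f21,
      f01]
    field_simp
    ring
  have E0 : pp U φ c s * (4 * U c t * U c s / (r0 ^ 3 * Om)) +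
      pp U φ c p * (4 * U c t * U c p / (r0 ^ 3 * Om)) -
      pp U φ c t * (nt Γ T U c t * (4 * U c t * U c s / (r1 ^ 3 * Om)) +
        4 * U c t * U c p / (r2 ^ 3 * Om) / nt Γ T U c p) =
      -2 * U c t + 4 * U c t / (r0 ^ 3 * Om) := by
    rw [← k01, ← k10, ← k20, ← k02, ← l0]
    linarith
  have E1 : pp U φ c p * (4 * U c s * U c p / (r1 ^ 3 * Om)) +
      pp U φ c t * (4 * U c t * U c s / (r1 ^ 3 * Om)) -
      pp U φ c s * (nt Γ T U c s * (4 * U c s * U c p / (r2 ^ 3 * Om)) +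
        4 * U c t * U c s / (r0 ^ 3 * Om) / nt Γ T U c t) =
      -2 * U c s + 4 * U c s / (r1 ^ 3 * Om) := by
    rw [← k01, ← k10, ← k12, ← k21, ← l1]
    linarith
  obtain ⟨Z, hZ, hF⟩ := tri_final u0 u1 u2 q0 q1 q2 hOmp n0 n2 hprod E0 E1
  have hrel := hφ.rel c hc t
  rw [← hs] at hrel
  have hdl : dl Γ t s = log r1 - log r0 := by
    rw [hr0, hr1, log_exp, log_exp]
    exact hrel.symm
  rw [hdl, k01, k10]
  have e4 : 4 * U c t * U c s / (r1 ^ 3 * Om) * pp U φ c t * nt Γ T U c t -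
      4 * U c t * U c s / (r0 ^ 3 * Om) * pp U φ c s =
      -(4 * U c t * U c s * nt Γ T U c t / (r0 ^ 3 * r1 ^ 3 * Om)) *
        (pp U φ c s * r1 ^ 3 / nt Γ T U c t - pp U φ c t * r0 ^ 3) := by
    field_simp
    ring
  have e5 : pp U φ c s * r1 ^ 3 / nt Γ T U c t - pp U φ c t * r0 ^ 3 =
      Om * (r1 ^ 3 - r0 ^ 3) / (2 * Z) := by
    rw [← hF]
    field_simp
  rw [e4, e5]
  have hc2 : 0 < 4 * U c t * U c s * nt Γ T U c t / (r0 ^ 3 * r1 ^ 3 * Om) * (Om / (2 * Z)) := by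
    positivity
  have e6 : (log r1 - log r0) * (-(4 * U c t * U c s * nt Γ T U c t / (r0 ^ 3 * r1 ^ 3 * Om)) *
      (Om * (r1 ^ 3 - r0 ^ 3) / (2 * Z))) =
      -((4 * U c t * U c s * nt Γ T U c t / (r0 ^ 3 * r1 ^ 3 * Om) * (Om / (2 * Z))) *
        ((log r1 - log r0) * (r1 ^ 3 - r0 ^ 3))) := by ring
  rw [e6]
  have hsgn : 0 ≤ (log r1 - log r0) * (r1 ^ 3 - r0 ^ 3) := by
    rcases le_total r0 r1 with hle | hle
    · have k1 := Real.log_le_log q0 hle
      have k2 : r0 ^ 3 ≤ r1 ^ 3 := pow_le_pow_left₀ q0.le hle 3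
      exact mul_nonneg (by linarith) (by linarith)
    · have k1 := Real.log_le_log q1 hle
      have k2 : r1 ^ 3 ≤ r0 ^ 3 := pow_le_pow_left₀ q1.le hle 3
      exact mul_nonneg_of_nonpos_of_nonpos (by linarith) (by linarith)
  have := mul_nonneg hc2.le hsgn
  linarith

end Pool.Agent.MP_ae5b4e_an_PN
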