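import Mathlib
import Pool.Agent.Lib.MP_ae5b4e_an_PN.Lim
import Pool.Agent.Lib.MP_ae5b4e_an_PN.Tri
import Pool.Agent.Lib.MP_ae5b4e_an_PN.Per
import Pool.Agent.Lib.MP_ae5b4e_an_PN.Red
import Pool.Agent.Lib.MP_ae5b4e_an_P3.Arc
import Pool.Agent.Lib.MP_ae5b4e_an_FA.Fin
import Pool.Agent.Lib.MP_ae5b4e_an_FA.Str

/-!
# MP_ae5b4e_an, project PN, (F): the theorem
-/

noncomputable section

namespace Pool.Agent.MP_ae5b4e_an_PN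

open Set Filter Topology Real MeasureTheory intervalIntegral
open scoped ContDiff
open Pool.Agent.MP_ae5b4e_an_hopf
open Pool.Agent.MP_ae5b4e_an_RG
open Pool.Agent.MP_ae5b4e_an_P3 (Reach3 arc_on_conic)
open Pool.Agent.MP_ae5b4e_an_FA (StrictCurve)
open Pool.Agent.MP_ae5b4e_an_RIG (Normal lift rU)

/-- On a leaf of 3-periodic points the leaf integral is not positive, so the curve is symmetric
below this leaf. -/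
theorem symm_of_three {Γ : ℝ → Fin 3 → ℝ} {T : ℝ} {U : ℝ → ℝ → ℝ} {b : ℝ} {φ : ℝ × ℝ → ℝ}
    (h : Pool.Agent.MP_ae5b4e_an_ALT.SSys T Γ U) (hφ : CB T Γ U b φ) (hW : ∀ y, Wr Γ y = 1)
    {c : ℝ} (hc : c ∈ Ioo 0 b)
    (h3 : ∀ t, nxt Γ T U c (nxt Γ T U c (nxt Γ T U c t)) = t + T) {t s : ℝ} (h1 : t < s)
    (h2 : s < nxt Γ T U c t) : dd Γ t s = dd Γ s t := by
  refine dd_symm h hφ hW hc ?_ h1 h2
  have k := intervalIntegral.integral_nonneg (μ := MeasureTheory.volume) h.T_pos.le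
    (f := fun t => -(BI Γ T U φ c t)) fun t _ => neg_nonneg.2 (BI_three h hφ hW hc h3 t)
  rw [intervalIntegral.integral_neg] at k
  unfold BB
  linarith

/-- An arc of the curve lies on a conic. -/
theorem GeoN.arc {γ : ConvexCurve} {U : ℝ → ℝ → ℝ} {κ : ℝ → ℝ} {V : Set (Fin 3 → ℝ)}
    {N : (Fin 3 → ℝ) → ℝ} (h : GeoN γ U κ V N) {c₁ : ℝ} (hc₁ : c₁ ∈ Ioo (0:ℝ) 1)
    (hV : ∀ c ∈ Ioc 0 c₁, ∀ t, γ.hvec t (U c t) ∈ V) (h3 : Reach3 γ U c₁) :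
    ∃ C : QuadraticForm ℝ (Fin 3 → ℝ), C ≠ 0 ∧ ∃ t₀, ∀ᶠ t in 𝓝 t₀, C (γ.Γ t) = 0 := by
  obtain ⟨σ, lam, r, m, b, φ, hN, hS, hW, hb, hφ⟩ := h.norm hc₁ hV
  obtain ⟨x₀, hx₀⟩ := three_of_reach h.sol hN hc₁ h3
  obtain ⟨c₃, hc₃, h3'⟩ := exists_leaf_three hS hφ hW ⟨hc₁.1, hb⟩ hx₀
  have hc₃' : c₃ ∈ Ioo (0:ℝ) 1 := ⟨hc₃.1, hc₃.2.trans_lt hc₁.2⟩
  have hmono : StrictMono (nxt (lift γ σ lam) 1 (rU κ σ U) c₃) :=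
    strictMono_of_deriv_pos fun t => by
      rw [(hS.hasDerivAt_nxt_t hc₃' t).deriv]
      exact hS.nt_pos hc₃' t
  have hn0 := (hS.nxt_spec c₃ 0).1
  set n₀ := nxt (lift γ σ lam) 1 (rU κ σ U) c₃ 0 with hn₀
  have hβ : 0 < min n₀ (1 / 2) := lt_min hn0 (by norm_num)
  obtain ⟨C, hC, hC'⟩ := arc_on_conic hS.curve (a := 0) (b := min n₀ (1 / 2)) hβ
    (by linarith [min_le_right n₀ (1 / 2)]) fun x hx y hy hxy =>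
      symm_of_three hS hφ hW ⟨hc₃.1, hc₃.2.trans_lt hb⟩ h3' hxy
        ((hy.2.trans_le (min_le_left _ _)).trans (hmono hx.1))
  set β := min n₀ (1 / 2)
  refine ⟨C, hC, σ (β / 2), ?_⟩
  have hσm : StrictMono σ := strictMono_of_deriv_pos hN.pos_σ
  have hmem : σ (β / 2) ∈ Ioo (σ 0) (σ β) := ⟨hσm (by linarith), hσm (by linarith)⟩
  filter_upwards [isOpen_Ioo.mem_nhds hmem] with t ht
  obtain ⟨x, hx, rfl⟩ := intermediate_value_Ioo hβ.le hN.smooth_σ.continuous.continuousOn ht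
  have k := hC' x hx
  unfold lift at k
  rw [QuadraticMap.map_smul, smul_eq_mul] at k
  exact (mul_eq_zero.1 k).resolve_left (mul_pos (hN.pos_lam x) (hN.pos_lam x)).ne'

/-- **Theorem PN.** -/
theorem GeoN.pencil {γ : ConvexCurve} {U : ℝ → ℝ → ℝ} {κ : ℝ → ℝ} {V : Set (Fin 3 → ℝ)}
    {N : (Fin 3 → ℝ) → ℝ} (h : GeoN γ U κ V N) {c₁ : ℝ} (hc₁ : c₁ ∈ Ioo (0:ℝ) 1)
    (hV : ∀ c ∈ Ioc 0 c₁, ∀ t, γ.hvec t (U c t) ∈ V) (h3 : Reach3 γ U c₁) : Pencil γ U := by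
  obtain ⟨C, hC, t₀, hC'⟩ := h.arc hc₁ hV h3
  have hanti := strictAnti_of_deriv h.smooth h.mono
  exact Pool.Agent.MP_ae5b4e_an_FA.conic_all γ ⟨h.smooth.continuousOn, h.per, h.simple,
    fun c hc c' hc' hlt t => hanti t hc hc' hlt, h.lim, h.proj⟩ (Or.inr ⟨h.smooth, h.mono⟩) hC hC'

/-- **Theorem PN**, for strictly convex curves: a smooth foliation which induces projective
involutions on the tangent lines, preserves an area form, and three steps from one point of one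
leaf go around the curve. -/
theorem strict_pencil (γ : StrictCurve) (U : ℝ → ℝ → ℝ) (κ : ℝ → ℝ)
    (hsmooth : ContDiffOn ℝ ∞ (fun q : ℝ × ℝ => U q.1 q.2) (Ioo 0 1 ×ˢ univ))
    (hper : ∀ c ∈ Ioo (0:ℝ) 1, ∀ t, U c (t + γ.T) = U c t)
    (hsimple : ∀ c ∈ Ioo (0:ℝ) 1, ∀ t t', γ.pt t (U c t) = γ.pt t' (U c t') →
      ∃ n : ℤ, t' = t + n * γ.T)
    (hmono : ∀ c ∈ Ioo (0:ℝ) 1, ∀ t, deriv (fun r => U r t) c < 0)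
    (hlim : ∀ t, Tendsto (fun c => U c t) (𝓝[>] 0) atTop)
    (hproj : ∀ c ∈ Ioo (0:ℝ) 1, ∀ t u v, u ≠ v → γ.pt t u ∈ γ.leaf U c →
      γ.pt t v ∈ γ.leaf U c → u + v = κ t)
    (V : Set (Fin 3 → ℝ)) (N : (Fin 3 → ℝ) → ℝ) (hVo : IsOpen V) (hN : ContDiffOn ℝ ∞ N V)
    (hpos : ∀ v ∈ V, 0 < N v) (hcone : ∀ r : ℝ, r ≠ 0 → ∀ v ∈ V, r • v ∈ V ∧ N (r • v) = |r| * N v)
    (hcurve : ∀ t, γ.Γ t ∈ V)
    (hinv : ∀ c ∈ Ioo (0:ℝ) 1, ∀ t u v, u ≠ v → γ.pt t u ∈ γ.leaf U c →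
      γ.pt t v ∈ γ.leaf U c → γ.hvec t u ∈ V →
      γ.hvec t v ∈ V ∧ N (γ.hvec t u) = N (γ.hvec t v))
    {c₁ : ℝ} (hc₁ : c₁ ∈ Ioo (0:ℝ) 1)
    (hV : ∀ c ∈ Ioc 0 c₁, ∀ t, γ.hvec t (U c t) ∈ V)
    {t₀ t₁ t₂ t₃ v₁ v₂ v₃ : ℝ} (h01 : t₀ < t₁) (h01' : t₁ < t₀ + γ.T) (h12 : t₁ < t₂)
    (h12' : t₂ < t₁ + γ.T) (h23 : t₂ < t₃) (h23' : t₃ < t₂ + γ.T)
    (p1 : γ.pt t₀ (U c₁ t₀) = γ.pt t₁ v₁) (p2 : γ.pt t₁ (U c₁ t₁) = γ.pt t₂ v₂)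
    (p3 : γ.pt t₂ (U c₁ t₂) = γ.pt t₃ v₃) (h30 : t₀ + γ.T ≤ t₃) :
    ∃ Q E : QuadraticForm ℝ (Fin 3 → ℝ), E.Nondegenerate ∧
      γ.trace = Pool.Agent.MP_ae5b4e_an_FA.conic E ∧ (∀ t, 0 < Q (γ.Γ t)) ∧
      ∀ c ∈ Ioo (0:ℝ) 1, ∃ ρ : ℝ, (Q - ρ • E).Nondegenerate ∧
        γ.leaf U c = Pool.Agent.MP_ae5b4e_an_FA.conic (Q - ρ • E) := by
  have hcurv : ∀ t, 0 < γ.curv t := γ.curved hsimple hlim hsmooth hmono hproj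
  have hG : GeoN (γ.toConvex hcurv) U κ V N :=
    ⟨hsmooth, hper, hsimple, hmono, hlim, hproj, hVo, hN, hpos, hcone, hcurve, hinv⟩
  exact hG.pencil hc₁ hV
    ⟨t₀, t₁, t₂, t₃, v₁, v₂, v₃, h01, h01', h12, h12', h23, h23', p1, p2, p3, h30⟩

end Pool.Agent.MP_ae5b4e_an_PN
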