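import Mathlib
import Pool.Agent.Lib.MP_ae5b4e_an_PN.Lim
import Pool.Agent.Lib.MP_ae5b4e_an_P3.Core4

/-!
# MP_ae5b4e_an, project PN: curves with a symmetry of order `k`, the leaf of the `k`-periodic points

If `Γ (t + τ) = R (Γ t)` with `k τ = T`, then on a leaf of `k`-periodic points the map is the shift
by `τ`, and the leaf integral vanishes.
-/

noncomputable section

namespace Pool.Agent.MP_ae5b4e_an_PN

open Set Filter Topology Real MeasureTheory intervalIntegral
open scoped ContDiff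
open Pool.Agent.MP_ae5b4e_an_hopf
open Pool.Agent.MP_ae5b4e_an_hopf.Sys (nt nc)
open Pool.Agent.MP_ae5b4e_an_ALT
open Pool.Agent.MP_ae5b4e_an_P3 (nxt_mono nxt_surj)

variable {Γ : ℝ → Fin 3 → ℝ} {T τ : ℝ} {U : ℝ → ℝ → ℝ} {b : ℝ} {φ : ℝ × ℝ → ℝ}
  {R : (Fin 3 → ℝ) →ₗ[ℝ] (Fin 3 → ℝ)} {c : ℝ}

lemma hasDerivAt_lin {f : ℝ → Fin 3 → ℝ} {f' : Fin 3 → ℝ} {t : ℝ} (hf : HasDerivAt f f' t) :
    HasDerivAt (fun s => R (f s)) (R f') t :=
  (LinearMap.toContinuousLinearMap R).hasFDerivAt.comp_hasDerivAt t hf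

section curve

variable (hC : Curve T Γ) (hM : ∀ t, Γ (t + τ) = R (Γ t))
  (hR : ∀ x y z, det3 (R x) (R y) (R z) = det3 x y z)
include hC hM

lemma R_deriv (t : ℝ) : deriv Γ (t + τ) = R (deriv Γ t) := by
  have h1 := (hC.hd0 (t + τ)).comp_add_const t τ
  have h2 := hasDerivAt_lin (R := R) (hC.hd0 t)
  have h3 : (fun s => Γ (s + τ)) = fun s => R (Γ s) := funext hM
  rw [h3] at h1
  exact h1.unique h2

lemma R_deriv2 (t : ℝ) : deriv (deriv Γ) (t + τ) = R (deriv (deriv Γ) t) := by
  have h1 := (hC.hd1 (t + τ)).comp_add_const t τ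
  have h2 := hasDerivAt_lin (R := R) (hC.hd1 t)
  have h3 : (fun s => deriv Γ (s + τ)) = fun s => R (deriv Γ s) := funext (R_deriv hC hM)
  rw [h3] at h1
  exact h1.unique h2

include hR

lemma dd_R (x y : ℝ) : dd Γ (x + τ) (y + τ) = dd Γ x y := by
  unfold dd
  rw [hM, hM, R_deriv hC hM, hR]

lemma L1_R (x y : ℝ) : L1 Γ (x + τ) (y + τ) = L1 Γ x y := by
  unfold L1 ddx
  rw [dd_R hC hM hR, hM, R_deriv hC hM, R_deriv hC hM, hR]

end curve

section leaf

variable (h : SSys T Γ U) (hM : ∀ t, Γ (t + τ) = R (Γ t))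
  (hR : ∀ x y z, det3 (R x) (R y) (R z) = det3 x y z) (hc : c ∈ Ioo (0:ℝ) 1)
include h hM hR

/-- one step of the comparison of a leaf with its image under the symmetry -/
lemma step_R (hc : c ∈ Ioo (0:ℝ) 1) {x : ℝ} (hx : U c (x + τ) < U c x) :
    U c (nxt Γ T U c (x + τ)) < U c (nxt Γ T U c (x + τ) - τ) ∧
      nxt Γ T U c x < nxt Γ T U c (x + τ) - τ := by
  obtain ⟨a1, a2, a3⟩ := h.nxt_spec c x
  obtain ⟨b1, b2, b3⟩ := h.nxt_spec c (x + τ)
  have hmono := fun t => h.curve.strictMono_L1 t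
  set y := nxt Γ T U c (x + τ) - τ with hy
  have hyτ : nxt Γ T U c (x + τ) = y + τ := by rw [hy]; ring
  rw [hyτ] at b1 b2 b3 ⊢
  rw [L1_R h.curve hM hR] at b3
  have hy1 : x < y := by linarith
  have hy2 : y < x + T := by linarith
  have hlt : nxt Γ T U c x < y := by
    refine ((hmono x).lt_iff_lt ⟨a1, a2⟩ ⟨hy1, hy2⟩).1 ?_
    show L1 Γ x _ < L1 Γ x y
    rw [a3, b3]
    linarith
  refine ⟨?_, hlt⟩
  obtain ⟨x', hx'⟩ := nxt_surj h hc y
  have hxx : x < x' := by
    have : nxt Γ T U c x < nxt Γ T U c x' := by rw [hx']; exact hlt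
    exact (nxt_mono h hc).lt_iff_lt.1 this
  obtain ⟨d1, d2, -⟩ := h.nxt_spec c x'
  rw [hx'] at d1 d2
  have e1 : U c (nxt Γ T U c x') = L1 Γ (nxt Γ T U c x') x' := h.feq' hc x'
  have e2 : U c (nxt Γ T U c (x + τ)) = L1 Γ (nxt Γ T U c (x + τ)) (x + τ) := h.feq' hc (x + τ)
  rw [hx'] at e1
  rw [hyτ, L1_R h.curve hM hR] at e2
  rw [e1, e2, ← h.curve.L1_per_right y x, ← h.curve.L1_per_right y x']
  exact (hmono y) ⟨hy2, by linarith⟩ ⟨d2, by linarith⟩ (by linarith)

/-- a leaf of periodic points is symmetric -/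
lemma U_R (hc : c ∈ Ioo (0:ℝ) 1) {k n : ℕ} (hk : 0 < k) (hn : 0 < n) (hτ : k * τ = T)
    (hper : ∀ t, (nxt Γ T U c)^[n] t = t + T) (t : ℝ) : U c (t + τ) = U c t := by
  have key : ∀ x, U c x ≤ U c (x + τ) := by
    intro x₀
    by_contra hneg
    push Not at hneg
    set f := nxt Γ T U c with hf
    have hm : StrictMono f := nxt_mono h hc
    have hj : ∀ j : ℕ, ∃ y, f^[j] (x₀ + τ) = y + τ ∧ U c (y + τ) < U c y ∧ f^[j] x₀ ≤ y ∧
        (0 < j → f^[j] x₀ < y) := by
      intro j
      induction j with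
      | zero => exact ⟨x₀, rfl, hneg, le_rfl, fun h0 => absurd h0 (lt_irrefl _)⟩
      | succ j ih =>
        obtain ⟨y, y1, y2, y3, -⟩ := ih
        obtain ⟨p1, q1⟩ := step_R h hM hR hc y2
        rw [← hf] at p1 q1
        have e : f (y + τ) = f (y + τ) - τ + τ := by ring
        have lt : f^[j + 1] x₀ < f (y + τ) - τ := by
          rw [Function.iterate_succ_apply']
          exact (hm.monotone y3).trans_lt q1
        refine ⟨f (y + τ) - τ, ?_, ?_, lt.le, fun _ => lt⟩
        · rw [Function.iterate_succ_apply', y1]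
          exact e
        · rw [← e]
          exact p1
    obtain ⟨y, y1, -, -, y4⟩ := hj n
    have k1 := y4 hn
    rw [hper] at y1 k1
    linarith
  have hj : ∀ (j : ℕ) x, U c x ≤ U c (x + j * τ) := by
    intro j
    induction j with
    | zero => intro x; simp
    | succ j ih =>
      intro x
      have k1 := ih x
      have k2 := key (x + j * τ)
      have e : x + j * τ + τ = x + ((j + 1 : ℕ) : ℝ) * τ := by push_cast; ring
      rw [e] at k2
      exact k1.trans k2
  have k1 := key t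
  obtain ⟨j, rfl⟩ : ∃ j, k = j + 1 := ⟨k - 1, by omega⟩
  have k2 := hj j (t + τ)
  have e : t + τ + j * τ = t + T := by rw [← hτ]; push_cast; ring
  rw [e, h.per c hc] at k2
  exact le_antisymm k2 k1

/-- the step commutes with the symmetry on a symmetric leaf -/
lemma nxt_R (hU : ∀ t, U c (t + τ) = U c t) (t : ℝ) :
    nxt Γ T U c (t + τ) = nxt Γ T U c t + τ := by
  obtain ⟨a1, a2, a3⟩ := h.nxt_spec c t
  obtain ⟨b1, b2, b3⟩ := h.nxt_spec c (t + τ)
  refine (h.curve.strictMono_L1 (t + τ)).injOn ⟨b1, b2⟩ ⟨by linarith, by linarith⟩ ?_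
  show L1 Γ (t + τ) _ = L1 Γ (t + τ) _
  rw [b3, L1_R h.curve hM hR, a3, hU]

/-- on a leaf of `k`-periodic points the step is the symmetry -/
lemma step_eq_R (hc : c ∈ Ioo (0:ℝ) 1) {k : ℕ} (hk : 0 < k) (hτ : k * τ = T)
    (hper : ∀ t, (nxt Γ T U c)^[k] t = t + T) (t : ℝ) : nxt Γ T U c t = t + τ := by
  have hU := U_R h hM hR hc hk hk hτ hper
  have hns := nxt_R h hM hR hU
  set f := nxt Γ T U c with hf
  have hm : StrictMono f := nxt_mono h hc
  have hshift : ∀ (j : ℕ) x, f (x + j * τ) = f x + j * τ := by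
    intro j
    induction j with
    | zero => intro x; simp
    | succ j ih =>
      intro x
      have e : x + ((j + 1 : ℕ) : ℝ) * τ = x + j * τ + τ := by push_cast; ring
      rw [e, hns, ih]
      push_cast
      ring
  obtain ⟨j, rfl⟩ : ∃ j, k = j + 1 := ⟨k - 1, by omega⟩
  rcases lt_trichotomy (f t) (t + τ) with hlt | heq | hgt
  · exfalso
    have hj : ∀ j : ℕ, f^[j + 1] t < t + ((j + 1 : ℕ) : ℝ) * τ := by
      intro j
      induction j with
      | zero => simpa using hlt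
      | succ j ih =>
        rw [Function.iterate_succ_apply']
        have k1 := hm ih
        rw [hshift] at k1
        have e : f t + ((j + 1 : ℕ) : ℝ) * τ < t + τ + ((j + 1 : ℕ) : ℝ) * τ := by linarith
        refine k1.trans (e.trans_le (le_of_eq ?_))
        push_cast
        ring
    have := hj j
    rw [hper, hτ] at this
    linarith
  · exact heq
  · exfalso
    have hj : ∀ j : ℕ, t + ((j + 1 : ℕ) : ℝ) * τ < f^[j + 1] t := by
      intro j
      induction j with
      | zero => simpa using hgt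
      | succ j ih =>
        rw [Function.iterate_succ_apply']
        have k1 := hm ih
        rw [hshift] at k1
        have e : t + τ + ((j + 1 : ℕ) : ℝ) * τ < f t + ((j + 1 : ℕ) : ℝ) * τ := by linarith
        refine (le_of_eq ?_).trans_lt (e.trans k1)
        push_cast
        ring
    have := hj j
    rw [hper, hτ] at this
    linarith

end leaf

/-- **The leaf integral vanishes on a leaf of `k`-periodic points of a curve with a symmetry of
order `k`.** -/
theorem BB_rot (h : SSys T Γ U) (hφ : CB T Γ U b φ) (hM : ∀ t, Γ (t + τ) = R (Γ t))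
    (hR : ∀ x y z, det3 (R x) (R y) (R z) = det3 x y z) (hc : c ∈ Ioo 0 b) {k : ℕ} (hk : 0 < k)
    (hτ : k * τ = T) (hper : ∀ t, (nxt Γ T U c)^[k] t = t + T) : BB Γ T U φ c = 0 := by
  have hc1 : c ∈ Ioo (0:ℝ) 1 := ⟨hc.1, hc.2.trans_le hφ.b1⟩
  have hstep := step_eq_R h hM hR hc1 hk hτ hper
  have hdl : ∀ t, dl Γ t (t + τ) = 0 := by
    intro t
    have hdd : ∀ x, dl Γ (x + τ) (x + τ + τ) = dl Γ x (x + τ) := fun x => by
      unfold dl
      rw [dd_R h.curve hM hR, dd_R h.curve hM hR]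
    have hconst : ∀ j : ℕ, dl Γ (t + j * τ) (t + j * τ + τ) = dl Γ t (t + τ) := by
      intro j
      induction j with
      | zero => simp
      | succ j ih =>
        have e : t + ((j + 1 : ℕ) : ℝ) * τ = t + j * τ + τ := by push_cast; ring
        rw [e, hdd, ih]
    have hsum : ∀ j : ℕ, φ (c, t + j * τ) - φ (c, t) = j * dl Γ t (t + τ) := by
      intro j
      induction j with
      | zero => simp
      | succ j ih =>
        have r := hφ.rel c hc (t + j * τ)
        rw [hstep, hconst] at r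
        have e : t + ((j + 1 : ℕ) : ℝ) * τ = t + j * τ + τ := by push_cast; ring
        rw [e]
        push_cast
        linarith
    have k1 := hsum k
    rw [hτ, hφ.per c hc, sub_self] at k1
    have hk' : (k:ℝ) ≠ 0 := by exact_mod_cast hk.ne'
    exact (mul_eq_zero.1 k1.symm).resolve_left hk'
  unfold BB
  have e : ∀ t, BI Γ T U φ c t = 0 := by
    intro t
    unfold BI
    rw [hstep, hdl, zero_mul]
  simp only [e]
  simp

end Pool.Agent.MP_ae5b4e_an_PN
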