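import Mathlib
import Pool.Agent.Lib.MP_ae5b4e_an_PN.RotN
import Pool.Agent.Lib.MP_ae5b4e_an_P3.Red

/-!
# MP_ae5b4e_an, project PN: the normal form of a curve with a symmetry of order `k`
-/

noncomputable section

namespace Pool.Agent.MP_ae5b4e_an_PN

open Set Filter Topology Real
open scoped ContDiff
open Pool.Agent.MP_ae5b4e_an_hopf
open Pool.Agent.MP_ae5b4e_an_RIG (Normal lift rU)

variable {γ : ConvexCurve} {κ σ lam r m : ℝ → ℝ} {ϑ : ℝ} {R : (Fin 3 → ℝ) →ₗ[ℝ] (Fin 3 → ℝ)}

/-- the parameter is surjective -/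
lemma surj_σ (hN : Normal γ κ σ lam r m) : Function.Surjective σ := by
  set f : ℝ → ℝ := fun s => σ (s / γ.T) with hf
  have hT := γ.T_pos
  have k1 : Continuous f := hN.smooth_σ.continuous.comp (by fun_prop)
  have k2 : ∀ s, f (s + γ.T) = f s + γ.T := fun s => by
    show σ ((s + γ.T) / γ.T) = σ (s / γ.T) + γ.T
    rw [add_div, div_self hT.ne', hN.per_σ]
  intro t
  obtain ⟨s, hs⟩ := Pool.Agent.MP_ae5b4e_an_total.surjective_of_shift hT k1 k2 t
  exact ⟨s / γ.T, hs⟩

/-- the determinant of the normalized lift -/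
lemma Wr_lift (hN : Normal γ κ σ lam r m) (x : ℝ) :
    (lam x * deriv σ x) ^ 3 * Wr γ.Γ (σ x) = 1 := by
  have hC := γ.isCurve
  have hσd : ∀ x, HasDerivAt σ (deriv σ x) x := fun x =>
    (hN.smooth_σ.differentiable (by simp) x).hasDerivAt
  have hσ2 : HasDerivAt (deriv σ) (deriv (deriv σ) x) x :=
    (((contDiff_infty_iff_deriv.1 hN.smooth_σ).2).differentiable (by simp) x).hasDerivAt
  have hld : ∀ x, HasDerivAt lam (deriv lam x) x := fun x =>
    (hN.smooth_lam.differentiable (by simp) x).hasDerivAt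
  have hl2 : HasDerivAt (deriv lam) (deriv (deriv lam) x) x :=
    (((contDiff_infty_iff_deriv.1 hN.smooth_lam).2).differentiable (by simp) x).hasDerivAt
  have e1 : ∀ x, deriv (lift γ σ lam) x =
      deriv lam x • γ.Γ (σ x) + (lam x * deriv σ x) • deriv γ.Γ (σ x) := by
    intro x
    apply HasDerivAt.deriv
    have k2 := (hC.hd0 (σ x)).scomp x (hσd x)
    refine ((hld x).smul k2).congr_deriv ?_
    funext i
    simp only [Function.comp, Pi.add_apply, Pi.smul_apply, smul_eq_mul]
    ring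
  have e2 : deriv (deriv (lift γ σ lam)) x =
      deriv (deriv lam) x • γ.Γ (σ x) + (2 * deriv lam x * deriv σ x + lam x *
        deriv (deriv σ) x) • deriv γ.Γ (σ x) +
        (lam x * deriv σ x ^ 2) • deriv (deriv γ.Γ) (σ x) := by
    have e3 : deriv (lift γ σ lam) = fun x =>
        deriv lam x • γ.Γ (σ x) + (lam x * deriv σ x) • deriv γ.Γ (σ x) := funext e1
    rw [e3]
    apply HasDerivAt.deriv
    have k1 := (hC.hd0 (σ x)).scomp x (hσd x)
    have k2 := (hC.hd1 (σ x)).scomp x (hσd x)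
    refine ((hl2.smul k1).add (((hld x).mul hσ2).smul k2)).congr_deriv ?_
    funext i
    simp only [Function.comp, Pi.add_apply, Pi.smul_apply, smul_eq_mul, Pi.mul_apply]
    ring
  have hw := hN.wr x
  rw [e1, e2] at hw
  unfold lift at hw
  rw [← hw]
  unfold Wr det3
  simp only [Pi.add_apply, Pi.smul_apply, smul_eq_mul]
  ring

/-- **The normal form of a curve with a symmetry of order `k` is symmetric.** -/
theorem normal_shift (hN : Normal γ κ σ lam r m) {k : ℕ} (hk : 0 < k) (hϑ : k * ϑ = γ.T)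
    (hM : ∀ t, γ.Γ (t + ϑ) = R (γ.Γ t)) (hR : ∀ x y z, det3 (R x) (R y) (R z) = det3 x y z)
    (hκ : ∀ t, κ (t + ϑ) = κ t) (x : ℝ) :
    σ (x + 1 / k) = σ x + ϑ ∧ lam (x + 1 / k) = lam x := by
  have hC := γ.isCurve
  have hσm : StrictMono σ := strictMono_of_deriv_pos hN.pos_σ
  have hσs := surj_σ hN
  set e : ℝ ≃o ℝ := hσm.orderIsoOfSurjective σ hσs with he
  have he1 : ∀ x, e x = σ x := fun _ => rfl
  have hes : ∀ y, σ (e.symm y) = y := fun y => by rw [← he1, e.apply_symm_apply]
  set g : ℝ → ℝ := fun x => e.symm (σ x + ϑ) with hg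
  have hσg : ∀ x, σ (g x) = σ x + ϑ := fun x => hes _
  have hWr : ∀ t, Wr γ.Γ (t + ϑ) = Wr γ.Γ t := fun t => by
    unfold Wr
    rw [hM, R_deriv hC hM, R_deriv2 hC hM, hR]
  have hσd : ∀ x, HasDerivAt σ (deriv σ x) x := fun x =>
    (hN.smooth_σ.differentiable (by simp) x).hasDerivAt
  have hld : ∀ x, HasDerivAt lam (deriv lam x) x := fun x =>
    (hN.smooth_lam.differentiable (by simp) x).hasDerivAt
  -- the derivative of the shift
  have hgd : ∀ x, HasDerivAt g (deriv σ x / deriv σ (g x)) x := by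
    intro x
    have k1 : HasDerivAt e.symm (deriv σ (g x))⁻¹ (σ x + ϑ) :=
      HasDerivAt.of_local_left_inverse (f := σ) e.symm.continuous.continuousAt (hσd (g x))
        (hN.pos_σ _).ne' (Eventually.of_forall hes)
    have k2 := k1.comp x ((hσd x).add_const ϑ)
    refine k2.congr_deriv ?_
    ring
  have hls : ∀ x, lam (g x) * deriv σ (g x) = lam x * deriv σ x := by
    intro x
    have k1 := Wr_lift hN (g x)
    have k2 := Wr_lift hN x
    rw [hσg, hWr] at k1
    have hW := hC.Wr_pos (σ x)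
    have k3 : (lam (g x) * deriv σ (g x)) ^ 3 = (lam x * deriv σ x) ^ 3 :=
      mul_right_cancel₀ hW.ne' (k1.trans k2.symm)
    exact (pow_left_inj₀ (mul_pos (hN.pos_lam _) (hN.pos_σ _)).le
      (mul_pos (hN.pos_lam _) (hN.pos_σ _)).le three_ne_zero).1 k3
  -- the ratio of the factors is constant
  have hconst : ∀ x, lam (g x) / lam x = lam (g 0) / lam 0 := by
    intro x
    have hd : ∀ x, HasDerivAt (fun x => lam (g x) / lam x) 0 x := by
      intro x
      have k1 := (hld (g x)).comp x (hgd x)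
      refine (k1.div (hld x) (hN.pos_lam x).ne').congr_deriv ?_
      rw [hN.eq_lam, hN.eq_lam, hσg, hκ]
      have h1 := (hN.pos_lam x).ne'
      have h2 := (hN.pos_σ (g x)).ne'
      simp only [Function.comp]
      field_simp
      ring
    exact is_const_of_deriv_eq_zero (fun x => (hd x).differentiableAt) (fun x => (hd x).deriv) x 0
  set C := lam (g 0) / lam 0 with hCdef
  have hCp : 0 < C := div_pos (hN.pos_lam _) (hN.pos_lam _)
  have hgC : ∀ x, HasDerivAt g C x := by
    intro x
    refine (hgd x).congr_deriv ?_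
    rw [← hconst x, div_eq_div_iff (hN.pos_σ _).ne' (hN.pos_lam _).ne']
    have := hls x
    linarith
  have hglin : ∀ x, g x = C * x + g 0 := by
    intro x
    have hd : ∀ x, HasDerivAt (fun x => g x - C * x) 0 x := fun x => by
      have := (hgC x).sub ((hasDerivAt_id x).const_mul C)
      refine this.congr_deriv ?_
      ring
    have k := is_const_of_deriv_eq_zero (fun x => (hd x).differentiableAt)
      (fun x => (hd x).deriv) x 0
    simp only [mul_zero, sub_zero] at k
    linarith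
  have hg1 : ∀ x, g (x + 1) = g x + 1 := by
    intro x
    refine hσm.injective ?_
    rw [hσg, hN.per_σ, hN.per_σ, hσg]
    ring
  have hC1 : C = 1 := by
    have k1 := hg1 0
    rw [hglin, hglin 0] at k1
    linarith
  have hgK : ∀ x, g x = x + g 0 := fun x => by rw [hglin, hC1, one_mul]
  have hit : ∀ (j : ℕ) x, σ (x + j * g 0) = σ x + j * ϑ := by
    intro j
    induction j with
    | zero => intro x; simp
    | succ j ih =>
      intro x
      have e1 : x + ((j + 1 : ℕ) : ℝ) * g 0 = g (x + j * g 0) := by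
        rw [hgK (x + j * g 0)]
        push_cast
        ring
      rw [e1, hσg, ih]
      push_cast
      ring
  have hk' : (k:ℝ) ≠ 0 := by exact_mod_cast hk.ne'
  have hK : g 0 = 1 / k := by
    have k1 := hit k 0
    rw [hϑ, zero_add, ← hN.per_σ, zero_add] at k1
    have k2 := hσm.injective k1
    field_simp
    linarith
  have hgx : g x = x + 1 / k := by rw [hgK, hK]
  refine ⟨by rw [← hgx, hσg], ?_⟩
  have k1 := hconst x
  rw [hC1, hgx, div_eq_one_iff_eq (hN.pos_lam _).ne'] at k1
  exact k1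

/-- The normalized lift is symmetric. -/
theorem lift_shift (hN : Normal γ κ σ lam r m) {k : ℕ} (hk : 0 < k) (hϑ : k * ϑ = γ.T)
    (hM : ∀ t, γ.Γ (t + ϑ) = R (γ.Γ t)) (hR : ∀ x y z, det3 (R x) (R y) (R z) = det3 x y z)
    (hκ : ∀ t, κ (t + ϑ) = κ t) (x : ℝ) :
    lift γ σ lam (x + 1 / k) = R (lift γ σ lam x) := by
  obtain ⟨h1, h2⟩ := normal_shift hN hk hϑ hM hR hκ x
  unfold lift
  rw [h1, h2, hM, map_smul]

end Pool.Agent.MP_ae5b4e_an_PN
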