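import Mathlib
import Pool.Agent.Lib.MP_ae5b4e_an_P3.Quad

/-!
# MP_ae5b4e_an, project PN: the rotations of the plane
-/

noncomputable section

namespace Pool.Agent.MP_ae5b4e_an_PN

open Set Filter Topology Real
open Pool.Agent.MP_ae5b4e_an_hopf
open Pool.Agent.MP_ae5b4e_an_P3 (Mc)

/-- The rotation of the plane by the angle `a` about the origin, as a linear map of `ℝ ^ 3`. -/
def rot (a : ℝ) : (Fin 3 → ℝ) →ₗ[ℝ] (Fin 3 → ℝ) where
  toFun v := ![cos a * v 0 - sin a * v 1, sin a * v 0 + cos a * v 1, v 2]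
  map_add' v w := by
    funext i
    fin_cases i <;> simp <;> ring
  map_smul' s v := by
    funext i
    fin_cases i <;> simp <;> ring

lemma rot_apply (a : ℝ) (v : Fin 3 → ℝ) :
    rot a v = ![cos a * v 0 - sin a * v 1, sin a * v 0 + cos a * v 1, v 2] := rfl

lemma det3_rot (a : ℝ) (x y z : Fin 3 → ℝ) : det3 (rot a x) (rot a y) (rot a z) = det3 x y z := by
  have h := sin_sq_add_cos_sq a
  rw [rot_apply, rot_apply, rot_apply]
  unfold det3
  simp only [Matrix.cons_val_zero, Matrix.cons_val_one, Matrix.cons_val]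
  linear_combination ((x 0 * y 1 - x 1 * y 0) * z 2 - (x 0 * z 1 - x 1 * z 0) * y 2 +
    (y 0 * z 1 - y 1 * z 0) * x 2) * h

lemma rot_pi (v : Fin 3 → ℝ) : rot π v = Mc v := by
  rw [rot_apply]
  funext i
  fin_cases i <;> simp [Mc]

/-- the least multiple of `k` which is at least three -/
lemma cases_least {k m : ℕ} (hk : 0 < k) (hm : IsLeast {n | 3 ≤ n ∧ k ∣ n} m) :
    m = 3 ∨ m = 4 ∧ k = 2 ∨ 3 ≤ m ∧ m = k := by
  obtain ⟨⟨h3, hd⟩, hmin⟩ := hm
  rcases (by omega : k = 1 ∨ k = 2 ∨ 3 ≤ k) with rfl | rfl | hk3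
  · left
    have := hmin (⟨le_rfl, one_dvd _⟩ : (3:ℕ) ∈ {n | 3 ≤ n ∧ 1 ∣ n})
    omega
  · right; left
    have := hmin (⟨by norm_num, by norm_num⟩ : (4:ℕ) ∈ {n | 3 ≤ n ∧ 2 ∣ n})
    refine ⟨by omega, rfl⟩
  · right; right
    have h1 := hmin (⟨hk3, dvd_rfl⟩ : k ∈ {n | 3 ≤ n ∧ k ∣ n})
    have h2 := Nat.le_of_dvd (by omega) hd
    exact ⟨h3, le_antisymm h1 h2⟩

end Pool.Agent.MP_ae5b4e_an_PN
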