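import Mathlib
import Pool.Agent.Lib.MP_ae5b4e_an_PN.Tri
import Pool.Agent.Lib.MP_ae5b4e_an_P3.Core4

/-!
# MP_ae5b4e_an, project PN: centrally symmetric curves, the leaf of the 4-periodic points
-/

noncomputable section

namespace Pool.Agent.MP_ae5b4e_an_PN

open Set Filter Topology Real MeasureTheory intervalIntegral
open scoped ContDiff
open Pool.Agent.MP_ae5b4e_an_hopf
open Pool.Agent.MP_ae5b4e_an_hopf.Sys (nt nc)
open Pool.Agent.MP_ae5b4e_an_ALT
open Pool.Agent.MP_ae5b4e_an_P3 (Mc Mc_Mc Mc_smul Mc_eq Mc_add nv det3_Mc M_deriv M_deriv2 dd_M KK_M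
  U_pos_of_four U_symm nxt_symm two_steps nt_symm)

variable {Γ : ℝ → Fin 3 → ℝ} {T τ : ℝ} {U : ℝ → ℝ → ℝ} {b : ℝ} {φ : ℝ × ℝ → ℝ}

lemma L2_M (hC : Curve T Γ) (hM : ∀ t, Γ (t + τ) = Mc (Γ t)) (x y : ℝ) :
    L2 Γ (x + τ) (y + τ) = L2 Γ x y := by
  unfold L2 ddy
  rw [dd_M hC hM, hM, hM, M_deriv2 hC hM, det3_Mc]

/-- The algebra on a leaf of 4-periodic points of a centrally symmetric curve: `P` is a symmetric
function which satisfies the relation `CB.eqE` of the derivative `pp` of the potential. -/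
theorem four_gen (h : SSys T Γ U) (hφ : CB T Γ U b φ) (hW : ∀ y, Wr Γ y = 1) {c : ℝ}
    (hc : c ∈ Ioo 0 b) (hτ : τ + τ = T) (hM : ∀ t, Γ (t + τ) = Mc (Γ t))
    (h4 : ∀ t, nxt Γ T U c (nxt Γ T U c (nxt Γ T U c (nxt Γ T U c t))) = t + T) {P : ℝ → ℝ}
    (hpp : ∀ t, P (t + τ) = P t)
    (hE : ∀ p, P (nxt Γ T U c (nxt Γ T U c p)) *
        KK Γ (nxt Γ T U c (nxt Γ T U c p)) (nxt Γ T U c p) +
      P p * KK Γ p (nxt Γ T U c p) -
      P (nxt Γ T U c p) * (nt Γ T U c (nxt Γ T U c p) *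
        KK Γ (nxt Γ T U c p) (nxt Γ T U c (nxt Γ T U c p)) +
        KK Γ (nxt Γ T U c p) p / nt Γ T U c p) =
      -2 * U c (nxt Γ T U c p) + L2 Γ p (nxt Γ T U c p) -
        L2 Γ (nxt Γ T U c (nxt Γ T U c p)) (nxt Γ T U c p)) (t : ℝ) :
    dl Γ t (nxt Γ T U c t) * (KK Γ t (nxt Γ T U c t) * P t * nt Γ T U c t -
      KK Γ (nxt Γ T U c t) t * P (nxt Γ T U c t)) ≤ 0 := by
  have hC := h.curve
  have hc1 : c ∈ Ioo (0:ℝ) 1 := ⟨hc.1, hc.2.trans_le hφ.b1⟩
  have hU := U_pos_of_four h hc1 h4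
  have hUs := U_symm h hτ hM hc1 h4
  have h2s := two_steps h hτ hM hc1 h4
  have hns := nxt_symm h hM hUs
  have hnt := nt_symm h hM hc1 hUs
  -- the potential is symmetric on the leaf
  have hdd : ∀ x y, dl Γ (x + τ) (y + τ) = dl Γ x y := fun x y => by
    unfold dl
    rw [dd_M hC hM, dd_M hC hM]
  have hφs : ∀ x, φ (c, x + τ) = φ (c, x) := by
    intro x
    have r0 := hφ.rel c hc x
    have r1 := hφ.rel c hc (nxt Γ T U c x)
    have r2 := hφ.rel c hc (x + τ)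
    have r3 := hφ.rel c hc (nxt Γ T U c x + τ)
    rw [h2s x] at r1
    rw [hns x, hdd] at r2
    rw [hns, h2s x] at r3
    have e1 : x + τ + τ = x + T := by rw [← hτ]; ring
    have e2 : dl Γ (nxt Γ T U c x + τ) (x + τ + τ) = dl Γ (nxt Γ T U c x) (x + τ) := hdd _ _
    rw [e2, e1, hφ.per c hc] at r3
    linarith
  -- two steps
  have hn01 : nt Γ T U c t * nt Γ T U c (nxt Γ T U c t) = 1 := by
    have d0 := h.hasDerivAt_nxt_t hc1 t
    have d1 := (h.hasDerivAt_nxt_t hc1 (nxt Γ T U c t)).comp t d0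
    have e : (fun t => nxt Γ T U c t) ∘ (fun t => nxt Γ T U c t) = fun t => t + τ := by
      funext x
      exact h2s x
    rw [e] at d1
    have k := d1.unique ((hasDerivAt_id t).add_const τ)
    linarith
  have E1 := hE t
  have E0 := hE (nxt Γ T U c t)
  rw [h2s t] at E0 E1
  rw [hns t] at E0
  rw [hpp, hpp, hnt, hUs, KK_M hC hM, KK_M hC hM, L2_M hC hM] at E0
  rw [hpp] at E1
  obtain ⟨a1, a2, -⟩ := h.nxt_spec c t
  obtain ⟨b1, b2, -⟩ := h.nxt_spec c (nxt Γ T U c t)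
  rw [h2s t] at b1 b2
  have n0 := h.nt_pos hc1 t
  have n1 := h.nt_pos hc1 (nxt Γ T U c t)
  have C1 := hφ.cor_nxt h hc hU t
  have C2 := hφ.cor_nxt h hc hU (nxt Γ T U c t)
  rw [h2s t] at C2
  have m1 := hφ.exp_match h hc t
  have m2 := hφ.exp_match h hc (nxt Γ T U c t)
  rw [h2s t, hφs] at m2
  have hrel := hφ.rel c hc t
  have A1 := hC.dd_pos_right a1 a2
  have A2 := hC.dd_pos_left a1 a2
  have B1 := hC.dd_pos_right b1 b2
  have B2 := hC.dd_pos_left b1 b2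
  have u0 := hU t
  have u1 := hU (nxt Γ T U c t)
  have K0 := hC.KK_pos_right a1 a2
  have K2 := hC.KK_pos_left b1 b2
  set s := nxt Γ T U c t with hs
  -- the third coordinates
  have hz1 : Γ s 2 = exp (φ (c, s)) / (2 * U c s) * (vx Γ U φ c s 2 + vx Γ U φ c t 2) := by
    have := congrFun C1.hG 2
    simpa using this
  have hvM : vx Γ U φ c (t + τ) 2 = vx Γ U φ c t 2 := by
    unfold vx
    rw [hφs, hUs, hM, M_deriv hC hM]
    simp [Mc]
  have hz0 : Γ t 2 = exp (φ (c, t)) / (2 * U c t) * (vx Γ U φ c t 2 + vx Γ U φ c s 2) := by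
    have k := congrFun C2.hG 2
    simp only [Pi.smul_apply, Pi.add_apply, smul_eq_mul] at k
    rw [hvM, hφs, hUs, hM] at k
    have e : Mc (Γ t) 2 = Γ t 2 := by simp [Mc]
    rw [e] at k
    exact k
  -- the two differences
  set g := det3 (Γ t) (Γ s) nv with hg
  have l0 : L2 Γ s (t + τ) - L2 Γ s t = 2 * Γ s 2 * g / (dd Γ s (t + τ) * dd Γ s t) := by
    have e1 : L2 Γ s t = L2 Γ (s + τ) (t + τ) := (L2_M hC hM s t).symm
    have e2 : dd Γ s t = dd Γ (s + τ) (t + τ) := (dd_M hC hM s t).symm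
    rw [e1, e2, L2_sub (t + τ) (s + τ) s B1.ne' (by rw [dd_M hC hM]; exact A2.ne'), hW]
    congr 1
    have e3 : Γ s = Mc (Mc (Γ s)) := (Mc_Mc _).symm
    rw [hM, hM]
    have e4 : det3 (Mc (Γ t)) (Mc (Γ s)) (Γ s) = det3 (Γ t) (Γ s) (Mc (Γ s)) := by
      conv_lhs => rw [e3]
      rw [Mc_Mc, ← det3_Mc (Γ t) (Γ s) (Mc (Γ s)), Mc_Mc]
    rw [e4, Mc_eq, hg]
    simp only [det3, Pi.add_apply, Pi.neg_apply, Pi.smul_apply, smul_eq_mul]
    ring
  have l1 : L2 Γ t s - L2 Γ (t + τ) s = 2 * Γ t 2 * g / (dd Γ t s * dd Γ (t + τ) s) := by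
    rw [L2_sub s (t + τ) t A1.ne' B2.ne', hW]
    congr 1
    rw [hM, Mc_eq, hg]
    simp only [det3, Pi.add_apply, Pi.neg_apply, Pi.smul_apply, smul_eq_mul]
    ring
  set r0 := exp (φ (c, t)) with hr0
  set r1 := exp (φ (c, s)) with hr1
  have q0 : 0 < r0 := exp_pos _
  have q1 : 0 < r1 := exp_pos _
  have hdl : dl Γ t s = log r1 - log r0 := by
    rw [hr0, hr1, log_exp, log_exp]
    exact hrel.symm
  -- the coefficients
  have k10 : KK Γ s t = r1 ^ 3 / r0 ^ 3 * KK Γ t s := by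
    unfold KK
    rw [hW, hW, one_mul, one_mul]
    have e : dd Γ t s = r1 * dd Γ s t / r0 := by field_simp; linarith
    rw [e]
    field_simp
  have k12 : KK Γ s (t + τ) = r1 ^ 3 / r0 ^ 3 * KK Γ (t + τ) s := by
    unfold KK
    rw [hW, hW, one_mul, one_mul]
    have e : dd Γ (t + τ) s = r1 * dd Γ s (t + τ) / r0 := by field_simp; linarith
    rw [e]
    field_simp
  set L0 := L2 Γ s (t + τ) - L2 Γ s t with hL0
  set L1' := L2 Γ t s - L2 Γ (t + τ) s with hL1'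
  have hLL : L0 * U c s * r0 ^ 3 = L1' * U c t * r1 ^ 3 := by
    rw [l0, l1]
    have e1 : dd Γ t s = r1 * dd Γ s t / r0 := by field_simp; linarith
    have e2 : dd Γ (t + τ) s = r1 * dd Γ s (t + τ) / r0 := by field_simp; linarith
    have e3 : Γ s 2 * U c s * r0 = Γ t 2 * U c t * r1 := by
      rw [hz0, hz1]
      field_simp
      ring
    rw [e1, e2]
    have e4 : 2 * Γ s 2 * g / (dd Γ s (t + τ) * dd Γ s t) * U c s * r0 ^ 3 =
        (Γ s 2 * U c s * r0) * (2 * g * r0 ^ 2 / (dd Γ s (t + τ) * dd Γ s t)) := by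
      field_simp
    rw [e4, e3]
    field_simp
  clear_value L0 L1'
  have hn1 : nt Γ T U c s = 1 / nt Γ T U c t := by
    field_simp
    linarith
  have E0' : P s * (r1 ^ 3 / r0 ^ 3 * KK Γ t s) +
      P s * (r1 ^ 3 / r0 ^ 3 * KK Γ (t + τ) s) -
      P t * (nt Γ T U c t * KK Γ t s + KK Γ (t + τ) s * nt Γ T U c t) =
      -2 * U c t + L0 := by
    rw [hn1, k10, k12] at E0
    rw [hL0]
    have e : KK Γ (t + τ) s / (1 / nt Γ T U c t) = KK Γ (t + τ) s * nt Γ T U c t := by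
      field_simp
    rw [e] at E0
    linarith
  have E1' : P t * KK Γ (t + τ) s + P t * KK Γ t s -
      P s * (1 / nt Γ T U c t * (r1 ^ 3 / r0 ^ 3 * KK Γ (t + τ) s) +
        r1 ^ 3 / r0 ^ 3 * KK Γ t s / nt Γ T U c t) = -2 * U c s + L1' := by
    rw [hn1, k10, k12] at E1
    rw [hL1']
    linarith
  rw [hdl, k10]
  set n := nt Γ T U c t
  set p0 := P t
  set p1 := P s
  set K := KK Γ t s
  set K' := KK Γ (t + τ) s
  set X0 := U c t
  set X1 := U c s
  set κ := r1 ^ 3 / r0 ^ 3 with hκ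
  have hκp : 0 < κ := by positivity
  have f0 : (κ * p1 - p0 * n) * (K + K') = L0 - 2 * X0 := by linarith
  have f1 : (κ * p1 - p0 * n) * (K + K') = -(n * (L1' - 2 * X1)) := by
    have e : n * (-2 * X1 + L1') = p0 * (K + K') * n - p1 * κ * (K + K') := by
      rw [← E1']
      field_simp
      ring
    linarith
  have f2 : L0 * X1 = κ * X0 * L1' := by
    rw [hκ]
    field_simp
    linarith
  have f3 : (κ * p1 - p0 * n) * (K + K') * (κ * X0 + n * X1) = 2 * n * X0 * X1 * (κ - 1) := by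
    have e0 : L0 - 2 * X0 = -(n * (L1' - 2 * X1)) := by rw [← f0, f1]
    have e1 : L0 * (κ * X0 + n * X1) = κ * X0 * (2 * X0 + 2 * n * X1) := by
      calc L0 * (κ * X0 + n * X1) = κ * X0 * L0 + n * (L0 * X1) := by ring
        _ = κ * X0 * (L0 + n * L1') := by rw [f2]; ring
        _ = _ := by
          have : L0 + n * L1' = 2 * X0 + 2 * n * X1 := by linarith
          rw [this]
    rw [f0, sub_mul, e1]
    ring
  have hden : 0 < (K + K') * (κ * X0 + n * X1) := by positivity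
  have f4 : K * p0 * n - κ * K * p1 =
      -(K * (2 * n * X0 * X1) / ((K + K') * (κ * X0 + n * X1)) * (κ - 1)) := by
    have : κ * p1 - p0 * n = 2 * n * X0 * X1 * (κ - 1) / ((K + K') * (κ * X0 + n * X1)) := by
      rw [eq_div_iff hden.ne', ← f3]
      ring
    have e : K * p0 * n - κ * K * p1 = -(K * (κ * p1 - p0 * n)) := by ring
    rw [e, this]
    ring
  rw [f4]
  have hsgn : 0 ≤ (log r1 - log r0) * (κ - 1) := by
    rcases le_total r0 r1 with hle | hle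
    · have k1 := Real.log_le_log q0 hle
      have k2 : r0 ^ 3 ≤ r1 ^ 3 := pow_le_pow_left₀ q0.le hle 3
      have k3 : 1 ≤ κ := by rw [hκ, le_div_iff₀ (by positivity)]; linarith
      exact mul_nonneg (by linarith) (by linarith)
    · have k1 := Real.log_le_log q1 hle
      have k2 : r1 ^ 3 ≤ r0 ^ 3 := pow_le_pow_left₀ q1.le hle 3
      have k3 : κ ≤ 1 := by rw [hκ, div_le_one (by positivity)]; exact k2
      exact mul_nonneg_of_nonpos_of_nonpos (by linarith) (by linarith)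
  have hc2 : 0 ≤ K * (2 * n * X0 * X1) / ((K + K') * (κ * X0 + n * X1)) := by positivity
  have e6 : (log r1 - log r0) *
      -(K * (2 * n * X0 * X1) / ((K + K') * (κ * X0 + n * X1)) * (κ - 1)) =
      -(K * (2 * n * X0 * X1) / ((K + K') * (κ * X0 + n * X1)) *
        ((log r1 - log r0) * (κ - 1))) := by ring
  rw [e6]
  have := mul_nonneg hc2 hsgn
  linarith

/-- **The pointwise inequality on a leaf of 4-periodic points of a centrally symmetric curve**, for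
a symmetric potential. -/
theorem BI_four (h : SSys T Γ U) (hφ : CB T Γ U b φ) (hW : ∀ y, Wr Γ y = 1) {c : ℝ}
    (hc : c ∈ Ioo 0 b) (hτ : τ + τ = T) (hM : ∀ t, Γ (t + τ) = Mc (Γ t))
    (h4 : ∀ t, nxt Γ T U c (nxt Γ T U c (nxt Γ T U c (nxt Γ T U c t))) = t + T)
    (hpp : ∀ t, pp U φ c (t + τ) = pp U φ c t) (t : ℝ) :
    BI Γ T U φ c t ≤ 0 :=
  four_gen h hφ hW hc hτ hM h4 hpp (fun p => hφ.eqE h hc p) t

/-- **The pointwise inequality on a leaf of 4-periodic points of a centrally symmetric curve**, for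
an arbitrary potential. -/
theorem BI_four_add (h : SSys T Γ U) (hφ : CB T Γ U b φ) (hW : ∀ y, Wr Γ y = 1) {c : ℝ}
    (hc : c ∈ Ioo 0 b) (hτ : τ + τ = T) (hM : ∀ t, Γ (t + τ) = Mc (Γ t))
    (h4 : ∀ t, nxt Γ T U c (nxt Γ T U c (nxt Γ T U c (nxt Γ T U c t))) = t + T) (t : ℝ) :
    BI Γ T U φ c t + BI Γ T U φ c (t + τ) ≤ 0 := by
  have hC := h.curve
  have hc1 : c ∈ Ioo (0:ℝ) 1 := ⟨hc.1, hc.2.trans_le hφ.b1⟩
  have hUs := U_symm h hτ hM hc1 h4
  have hns := nxt_symm h hM hUs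
  have hnt := nt_symm h hM hc1 hUs
  have hdd : ∀ x y, dl Γ (x + τ) (y + τ) = dl Γ x y := fun x y => by
    unfold dl
    rw [dd_M hC hM, dd_M hC hM]
  have hpT : ∀ x, pp U φ c (x + τ + τ) = pp U φ c x := by
    intro x
    have e : x + τ + τ = x + T := by rw [← hτ]; ring
    rw [e]
    unfold pp
    rw [hφ.P1_per hc, h.Uc_per hc1]
  have k := four_gen h hφ hW hc hτ hM h4 (P := fun t => (pp U φ c t + pp U φ c (t + τ)) / 2)
    (fun t => by simp only [hpT]; ring) (fun p => by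
      have E1 := hφ.eqE h hc p
      have E2 := hφ.eqE h hc (p + τ)
      rw [hns p, hns (nxt Γ T U c p), hnt, hnt, hUs, KK_M hC hM, KK_M hC hM, KK_M hC hM,
        KK_M hC hM, L2_M hC hM, L2_M hC hM] at E2
      linear_combination (E1 + E2) / 2) t
  have e : BI Γ T U φ c t + BI Γ T U φ c (t + τ) = 2 * (dl Γ t (nxt Γ T U c t) *
      (KK Γ t (nxt Γ T U c t) * ((pp U φ c t + pp U φ c (t + τ)) / 2) * nt Γ T U c t -
        KK Γ (nxt Γ T U c t) t *
          ((pp U φ c (nxt Γ T U c t) + pp U φ c (nxt Γ T U c t + τ)) / 2))) := by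
    unfold BI
    rw [hns, hnt, hdd, KK_M hC hM, KK_M hC hM]
    ring
  rw [e]
  linarith

end Pool.Agent.MP_ae5b4e_an_PN
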