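import Mathlib
import Pool.Agent.Lib.MP_ae5b4e_an_PN.Lim
import Pool.Agent.Lib.MP_ae5b4e_an_PN.Tri
import Pool.Agent.Lib.MP_ae5b4e_an_PN.Sym
import Pool.Agent.Lib.MP_ae5b4e_an_PN.RotN
import Pool.Agent.Lib.MP_ae5b4e_an_PN.NormSym
import Pool.Agent.Lib.MP_ae5b4e_an_PN.Ang
import Pool.Agent.Lib.MP_ae5b4e_an_PN.Rot
import Pool.Agent.Lib.MP_ae5b4e_an_P3.Arc
import Pool.Agent.Lib.MP_ae5b4e_an_FA.Fin
import Pool.Agent.Lib.MP_ae5b4e_an_FA.Str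

/-!
# MP_ae5b4e_an, project PN+, the theorem

A smooth foliation with projective involutions, an angle function on an open collar, a leaf with a
rotation number at least `1 / m`; the curve and the involutions are invariant under the rotation by
`2 π / k` (`k = 1`: no condition), and `m` is the least multiple of `k` with `m ≥ 3`.
-/

noncomputable section

namespace Pool.Agent.MP_ae5b4e_an_PN

open Set Filter Topology Real MeasureTheory intervalIntegral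
open scoped ContDiff
open Pool.Agent.MP_ae5b4e_an_hopf
open Pool.Agent.MP_ae5b4e_an_hopf.Sys (nt nc)
open Pool.Agent.MP_ae5b4e_an_RG
open Pool.Agent.MP_ae5b4e_an_ALT (SSys)
open Pool.Agent.MP_ae5b4e_an_P3 (arc_on_conic Mc exists_iter)
open Pool.Agent.MP_ae5b4e_an_FA (StrictCurve)
open Pool.Agent.MP_ae5b4e_an_RIG (Sol Normal lift rU)

section

variable {Γ : ℝ → Fin 3 → ℝ} {T : ℝ} {U : ℝ → ℝ → ℝ} {b : ℝ} {φ : ℝ × ℝ → ℝ}

/-- If `n` steps from one point of the leaf `c₁` go around the curve, then all points of some leaf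
`c ≤ c₁` are `n`-periodic. -/
theorem exists_leaf_reach (h : SSys T Γ U) (hφ : CB T Γ U b φ) (hW : ∀ y, Wr Γ y = 1) {c₁ : ℝ}
    (hc₁ : c₁ ∈ Ioo 0 b) {n : ℕ} {t₀ : ℝ} (hn : t₀ + T ≤ (nxt Γ T U c₁)^[n] t₀) :
    ∃ c ∈ Ioc 0 c₁, ∀ t, (nxt Γ T U c)^[n] t = t + T := by
  have hc₁1 : c₁ ∈ Ioo (0:ℝ) 1 := ⟨hc₁.1, hc₁.2.trans_le hφ.b1⟩
  obtain ⟨c, hc, he⟩ := exists_iter (f := nxt Γ T U) h.T_pos
    h.continuousOn_nxt.snd (fun c hc =>
      (strictMono_of_hasDerivAt_pos (h.hasDerivAt_nxt_t hc) (h.nt_pos hc)).monotone)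
    h.tendsto_nxt_zero n hc₁1 hn
  exact ⟨c, hc, fun t => leaf_iter h hφ hW ⟨hc.1, hc.2.trans_lt hc₁.2⟩ he t⟩

/-- the leaf integral of a leaf of 3-periodic points -/
theorem BB_three (h : SSys T Γ U) (hφ : CB T Γ U b φ) (hW : ∀ y, Wr Γ y = 1) {c : ℝ}
    (hc : c ∈ Ioo 0 b) (h3 : ∀ t, nxt Γ T U c (nxt Γ T U c (nxt Γ T U c t)) = t + T) :
    BB Γ T U φ c ≤ 0 := by
  have k := intervalIntegral.integral_nonneg (μ := MeasureTheory.volume) h.T_pos.le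
    (f := fun t => -(BI Γ T U φ c t)) fun t _ => neg_nonneg.2 (BI_three h hφ hW hc h3 t)
  rw [intervalIntegral.integral_neg] at k
  unfold BB
  linarith

/-- the leaf integral of a leaf of 4-periodic points of a centrally symmetric curve -/
theorem BB_four (h : SSys T Γ U) (hφ : CB T Γ U b φ) (hW : ∀ y, Wr Γ y = 1) {c : ℝ}
    (hc : c ∈ Ioo 0 b) {τ : ℝ} (hτ : τ + τ = T) (hM : ∀ t, Γ (t + τ) = Mc (Γ t))
    (h4 : ∀ t, nxt Γ T U c (nxt Γ T U c (nxt Γ T U c (nxt Γ T U c t))) = t + T) :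
    BB Γ T U φ c ≤ 0 := by
  have hT := h.T_pos
  have hc1 : c ∈ Ioo (0:ℝ) 1 := ⟨hc.1, hc.2.trans_le hφ.b1⟩
  have hcont := continuous_BI h hφ hc
  have hper : Function.Periodic (fun t => BI Γ T U φ c t) T := by
    intro t
    show BI Γ T U φ c (t + T) = BI Γ T U φ c t
    unfold BI pp
    rw [h.nxt_per hc1, Pool.Agent.MP_ae5b4e_an_P3.Mn.nt_per h hc1, hφ.P1_per hc, hφ.P1_per hc,
      h.Uc_per hc1, h.Uc_per hc1, h.curve.KK_per_left, h.curve.KK_per_right,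
      h.curve.KK_per_left, h.curve.KK_per_right, h.curve.dl_per_left, h.curve.dl_per_right]
  have e1 : ∫ t in (0)..T, BI Γ T U φ c (t + τ) = ∫ t in (0)..T, BI Γ T U φ c t := by
    rw [intervalIntegral.integral_comp_add_right (fun t => BI Γ T U φ c t) τ]
    have := hper.intervalIntegral_add_eq τ 0
    rw [zero_add] at this ⊢
    rw [← this]
    congr 1
    ring
  have k := intervalIntegral.integral_nonneg (μ := MeasureTheory.volume) hT.le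
    (f := fun t => -(BI Γ T U φ c t + BI Γ T U φ c (t + τ))) fun t _ =>
      neg_nonneg.2 (BI_four_add h hφ hW hc hτ hM h4 t)
  have hcont2 : Continuous fun t => BI Γ T U φ c (t + τ) :=
    hcont.comp (continuous_id.add continuous_const)
  rw [intervalIntegral.integral_neg, intervalIntegral.integral_add
    (hcont.intervalIntegrable _ _) (hcont2.intervalIntegrable _ _), e1] at k
  unfold BB
  linarith

end

/-- If the leaf integral of one leaf is not positive, then an arc of the curve lies on a conic. -/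
theorem conic_of_BB {γ : ConvexCurve} {U : ℝ → ℝ → ℝ} {κ : ℝ → ℝ} {σ lam r m : ℝ → ℝ} {b : ℝ}
    {φ : ℝ × ℝ → ℝ} (hN : Normal γ κ σ lam r m) (hS : SSys 1 (lift γ σ lam) (rU κ σ U))
    (hW : ∀ x, Wr (lift γ σ lam) x = 1) (hφ : CB 1 (lift γ σ lam) (rU κ σ U) b φ) {c₃ : ℝ}
    (hc₃ : c₃ ∈ Ioo 0 b) (hB : BB (lift γ σ lam) 1 (rU κ σ U) φ c₃ ≤ 0) :
    ∃ C : QuadraticForm ℝ (Fin 3 → ℝ), C ≠ 0 ∧ ∃ t₀, ∀ᶠ t in 𝓝 t₀, C (γ.Γ t) = 0 := by
  have hc₃' : c₃ ∈ Ioo (0:ℝ) 1 := ⟨hc₃.1, hc₃.2.trans_le hφ.b1⟩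
  have hmono : StrictMono (nxt (lift γ σ lam) 1 (rU κ σ U) c₃) :=
    strictMono_of_deriv_pos fun t => by
      rw [(hS.hasDerivAt_nxt_t hc₃' t).deriv]
      exact hS.nt_pos hc₃' t
  have hn0 := (hS.nxt_spec c₃ 0).1
  set n₀ := nxt (lift γ σ lam) 1 (rU κ σ U) c₃ 0 with hn₀
  have hβ : 0 < min n₀ (1 / 2) := lt_min hn0 (by norm_num)
  obtain ⟨C, hC, hC'⟩ := arc_on_conic hS.curve (a := 0) (b := min n₀ (1 / 2)) hβ
    (by linarith [min_le_right n₀ (1 / 2)]) fun x hx y hy hxy =>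
      dd_symm hS hφ hW hc₃ hB hxy
        ((hy.2.trans_le (min_le_left _ _)).trans (hmono hx.1))
  set β := min n₀ (1 / 2)
  refine ⟨C, hC, σ (β / 2), ?_⟩
  have hσm : StrictMono σ := strictMono_of_deriv_pos hN.pos_σ
  have hmem : σ (β / 2) ∈ Ioo (σ 0) (σ β) := ⟨hσm (by linarith), hσm (by linarith)⟩
  filter_upwards [isOpen_Ioo.mem_nhds hmem] with t ht
  obtain ⟨x, hx, rfl⟩ := intermediate_value_Ioo hβ.le hN.smooth_σ.continuous.continuousOn ht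
  have k := hC' x hx
  unfold lift at k
  rw [QuadraticMap.map_smul, smul_eq_mul] at k
  exact (mul_eq_zero.1 k).resolve_left (mul_pos (hN.pos_lam x) (hN.pos_lam x)).ne'

/-- The curve and the field of the involutions are invariant under the rotation by `2 π / k` about
the origin. -/
structure RotKap (T : ℝ) (Γ : ℝ → Fin 3 → ℝ) (κ : ℝ → ℝ) (k : ℕ) : Prop where
  curve : ∀ t, Γ (t + T / k) = rot (2 * π / k) (Γ t)
  field : ∀ t, κ (t + T / k) = κ t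

/-- **The theorem in the normal form**: if `n` steps from one point of one leaf go around the
curve, then an arc of the curve lies on a conic. -/
theorem arc_of_steps {γ : ConvexCurve} {U : ℝ → ℝ → ℝ} {κ : ℝ → ℝ} {σ lam r m : ℝ → ℝ} {b : ℝ}
    {φ : ℝ × ℝ → ℝ} (hN : Normal γ κ σ lam r m) (hS : SSys 1 (lift γ σ lam) (rU κ σ U))
    (hW : ∀ x, Wr (lift γ σ lam) x = 1) (hφ : CB 1 (lift γ σ lam) (rU κ σ U) b φ) {c₁ : ℝ}
    (hc₁ : c₁ ∈ Ioo 0 b) {n : ℕ}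
    (hn : n = 3 ∨ n = 4 ∧ RotKap γ.T γ.Γ κ 2 ∨ 3 ≤ n ∧ RotKap γ.T γ.Γ κ n) {x₀ : ℝ}
    (hx₀ : x₀ + 1 ≤ (nxt (lift γ σ lam) 1 (rU κ σ U) c₁)^[n] x₀) :
    ∃ C : QuadraticForm ℝ (Fin 3 → ℝ), C ≠ 0 ∧ ∃ t₀, ∀ᶠ t in 𝓝 t₀, C (γ.Γ t) = 0 := by
  obtain ⟨c₃, hc₃, hper⟩ := exists_leaf_reach hS hφ hW hc₁ hx₀
  have hc₃b : c₃ ∈ Ioo 0 b := ⟨hc₃.1, hc₃.2.trans_lt hc₁.2⟩
  refine conic_of_BB hN hS hW hφ hc₃b ?_
  rcases hn with rfl | ⟨rfl, hs⟩ | ⟨h5, hs⟩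
  · exact BB_three hS hφ hW hc₃b hper
  · have e2 : (2 * π / ((2:ℕ):ℝ)) = π := by push_cast; ring
    have hL := lift_shift hN (k := 2) (by norm_num) (by push_cast; ring) hs.curve (det3_rot _)
      hs.field
    have hτ : (1:ℝ) / ((2:ℕ):ℝ) + 1 / ((2:ℕ):ℝ) = 1 := by push_cast; norm_num
    have hL' : ∀ t, lift γ σ lam (t + 1 / ((2:ℕ):ℝ)) = Mc (lift γ σ lam t) := fun t => by
      rw [hL, e2, rot_pi]
    exact BB_four hS hφ hW hc₃b hτ hL' hper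
  · have hn0 : 0 < n := by omega
    have hnr : (n:ℝ) ≠ 0 := by exact_mod_cast hn0.ne'
    have hL := lift_shift hN (k := n) hn0 (by field_simp) hs.curve (det3_rot _) hs.field
    exact (BB_rot hS hφ hL (det3_rot _) hc₃b hn0 (by field_simp) hper).le

/-- **Theorem PN+ with symmetries** (curves of positive curvature). -/
theorem GeoH.pencil {γ : ConvexCurve} {U : ℝ → ℝ → ℝ} {κ : ℝ → ℝ} {b : ℝ} {h : ℝ → ℝ → ℝ}
    {ρ : ℝ → ℝ} (hG : GeoH γ U κ b h ρ) {c₁ : ℝ} (hc₁ : c₁ ∈ Ioo 0 b) {n : ℕ}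
    (hn : n = 3 ∨ n = 4 ∧ RotKap γ.T γ.Γ κ 2 ∨ 3 ≤ n ∧ RotKap γ.T γ.Γ κ n)
    (hρ : 1 / (n:ℝ) ≤ ρ c₁) : Pencil γ U := by
  obtain ⟨σ, lam, r, m, hN, hS, hW, hA, hφ⟩ := hG.norm
  have hn0 : 0 < n := by rcases hn with h | h | h <;> omega
  obtain ⟨C, hC, t₀, hC'⟩ := arc_of_steps hN hS hW hφ hc₁ hn (hA.reach hc₁ hn0 hρ 0)
  have hanti := strictAnti_of_deriv hG.smooth hG.mono
  exact Pool.Agent.MP_ae5b4e_an_FA.conic_all γ ⟨hG.smooth.continuousOn, hG.per, hG.simple,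
    fun c hc c' hc' hlt t => hanti t hc hc' hlt, hG.lim, hG.proj⟩ (Or.inr ⟨hG.smooth, hG.mono⟩)
    hC hC'

/-- **Theorem PN+ with symmetries**, for strictly convex curves: a smooth foliation which induces
projective involutions on the tangent lines and has an angle function on an open collar; the curve
and the involutions are invariant under the rotation by `2 π / k`, and the rotation number of one
leaf is at least `1 / m`, where `m` is the least multiple of `k` with `m ≥ 3`. -/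
theorem strict_pencil_ang (γ : StrictCurve) (U : ℝ → ℝ → ℝ) (κ : ℝ → ℝ)
    (hsmooth : ContDiffOn ℝ ∞ (fun q : ℝ × ℝ => U q.1 q.2) (Ioo 0 1 ×ˢ univ))
    (hper : ∀ c ∈ Ioo (0:ℝ) 1, ∀ t, U c (t + γ.T) = U c t)
    (hsimple : ∀ c ∈ Ioo (0:ℝ) 1, ∀ t t', γ.pt t (U c t) = γ.pt t' (U c t') →
      ∃ n : ℤ, t' = t + n * γ.T)
    (hmono : ∀ c ∈ Ioo (0:ℝ) 1, ∀ t, deriv (fun r => U r t) c < 0)
    (hlim : ∀ t, Tendsto (fun c => U c t) (𝓝[>] 0) atTop)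
    (hproj : ∀ c ∈ Ioo (0:ℝ) 1, ∀ t u v, u ≠ v → γ.pt t u ∈ γ.leaf U c →
      γ.pt t v ∈ γ.leaf U c → u + v = κ t)
    {b : ℝ} (hb : b ≤ 1) (h : ℝ → ℝ → ℝ) (ρ : ℝ → ℝ)
    (hh : ContDiffOn ℝ ∞ (fun q : ℝ × ℝ => h q.1 q.2) (Ioo 0 b ×ˢ univ))
    (hpos : ∀ c ∈ Ioo 0 b, ∀ t, 0 < deriv (h c) t)
    (hturn : ∀ c ∈ Ioo 0 b, ∀ t, h c (t + γ.T) = h c t + 1)
    (hrot : ∀ c ∈ Ioo 0 b, ∀ t s v, t < s → s < t + γ.T → γ.pt t (U c t) = γ.pt s v →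
      h c s = h c t + ρ c)
    {k m : ℕ} (hk : 0 < k) (hsym : RotKap γ.T γ.Γ κ k) (hm : IsLeast {n | 3 ≤ n ∧ k ∣ n} m)
    {c₁ : ℝ} (hc₁ : c₁ ∈ Ioo 0 b) (hρ : 1 / (m:ℝ) ≤ ρ c₁) :
    ∃ Q E : QuadraticForm ℝ (Fin 3 → ℝ), E.Nondegenerate ∧
      γ.trace = Pool.Agent.MP_ae5b4e_an_FA.conic E ∧ (∀ t, 0 < Q (γ.Γ t)) ∧
      ∀ c ∈ Ioo (0:ℝ) 1, ∃ ρ : ℝ, (Q - ρ • E).Nondegenerate ∧
        γ.leaf U c = Pool.Agent.MP_ae5b4e_an_FA.conic (Q - ρ • E) := by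
  have hcurv : ∀ t, 0 < γ.curv t := γ.curved hsimple hlim hsmooth hmono hproj
  have hG : GeoH (γ.toConvex hcurv) U κ b h ρ :=
    ⟨hsmooth, hper, hsimple, hmono, hlim, hproj, hb, hh, hpos, hturn, hrot⟩
  refine hG.pencil hc₁ ?_ hρ
  rcases cases_least hk hm with h3 | ⟨h4, rfl⟩ | ⟨h3, rfl⟩
  · exact Or.inl h3
  · exact Or.inr (Or.inl ⟨h4, hsym⟩)
  · exact Or.inr (Or.inr ⟨h3, hsym⟩)

end Pool.Agent.MP_ae5b4e_an_PN
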