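import Mathlib
import Pool.Agent.Lib.MP_ae5b4e_an_PN.FinH
import Pool.Agent.Lib.MP_ae5b4e_an_PN.Red

/-!
# MP_ae5b4e_an, project PN: area forms given by a potential, with symmetries

The version of `FinH` for an area form `N ^ (-3)` which is smooth in a neighbourhood of the curve and
of the leaves `c ≤ c₁`; `m` steps from one point of one leaf go around the curve.
-/

noncomputable section

namespace Pool.Agent.MP_ae5b4e_an_PN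

open Set Filter Topology Real MeasureTheory intervalIntegral
open scoped ContDiff
open Pool.Agent.MP_ae5b4e_an_hopf
open Pool.Agent.MP_ae5b4e_an_RG
open Pool.Agent.MP_ae5b4e_an_ALT (SSys)
open Pool.Agent.MP_ae5b4e_an_FA (StrictCurve)
open Pool.Agent.MP_ae5b4e_an_RIG (Sol Normal lift rU)

/-- `m` steps of the map of the leaf `c` from some point go around the curve. -/
def Reach (γ : ConvexCurve) (U : ℝ → ℝ → ℝ) (c : ℝ) (m : ℕ) : Prop :=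
  ∃ t v : ℕ → ℝ, (∀ i < m, t i < t (i + 1) ∧ t (i + 1) < t i + γ.T ∧
    γ.pt (t i) (U c (t i)) = γ.pt (t (i + 1)) (v i)) ∧ t 0 + γ.T ≤ t m

/-- the steps in the normal form -/
theorem iter_of_reach {γ : ConvexCurve} {U : ℝ → ℝ → ℝ} {κ : ℝ → ℝ} (h : Sol γ U κ)
    {σ lam r m : ℝ → ℝ} (hN : Normal γ κ σ lam r m) {c : ℝ}
    (hc : c ∈ Ioo (0:ℝ) 1) {n : ℕ} (hn : Reach γ U c n) :
    ∃ x, x + 1 ≤ (nxt (lift γ σ lam) 1 (rU κ σ U) c)^[n] x := by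
  obtain ⟨t, v, hs, hle⟩ := hn
  have hσm : StrictMono σ := strictMono_of_deriv_pos hN.pos_σ
  choose x hx using fun i => surj_σ hN (t i)
  have key : ∀ j ≤ n, (nxt (lift γ σ lam) 1 (rU κ σ U) c)^[j] (x 0) = x j := by
    intro j
    induction j with
    | zero => intro _; rfl
    | succ j ih =>
      intro hj
      rw [Function.iterate_succ_apply', ih (by omega)]
      obtain ⟨a1, a2, p⟩ := hs j (by omega)
      rw [← hx j, ← hx (j + 1)] at a1 a2 p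
      rw [← hN.per_σ] at a2
      exact Pool.Agent.MP_ae5b4e_an_ALM.nxt_of_det h hN hc (hσm.lt_iff_lt.1 a1)
        (hσm.lt_iff_lt.1 a2) (Pool.Agent.MP_ae5b4e_an_P3.det_of_pt γ p)
  refine ⟨x 0, ?_⟩
  rw [key n le_rfl]
  rw [← hx 0, ← hx n, ← hN.per_σ] at hle
  exact hσm.le_iff_le.1 hle

/-- **Theorem PN with symmetries** (curves of positive curvature). -/
theorem GeoN.pencil_sym {γ : ConvexCurve} {U : ℝ → ℝ → ℝ} {κ : ℝ → ℝ} {V : Set (Fin 3 → ℝ)}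
    {N : (Fin 3 → ℝ) → ℝ} (h : GeoN γ U κ V N) {c₁ : ℝ} (hc₁ : c₁ ∈ Ioo (0:ℝ) 1)
    (hV : ∀ c ∈ Ioc 0 c₁, ∀ t, γ.hvec t (U c t) ∈ V) {n : ℕ}
    (hn : n = 3 ∨ n = 4 ∧ RotKap γ.T γ.Γ κ 2 ∨ 3 ≤ n ∧ RotKap γ.T γ.Γ κ n)
    (hR : Reach γ U c₁ n) : Pencil γ U := by
  obtain ⟨σ, lam, r, m, b, φ, hN, hS, hW, hb, hφ⟩ := h.norm hc₁ hV
  obtain ⟨x₀, hx₀⟩ := iter_of_reach h.sol hN hc₁ hR
  obtain ⟨C, hC, t₀, hC'⟩ := arc_of_steps hN hS hW hφ ⟨hc₁.1, hb⟩ hn hx₀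
  have hanti := strictAnti_of_deriv h.smooth h.mono
  exact Pool.Agent.MP_ae5b4e_an_FA.conic_all γ ⟨h.smooth.continuousOn, h.per, h.simple,
    fun c hc c' hc' hlt t => hanti t hc hc' hlt, h.lim, h.proj⟩ (Or.inr ⟨h.smooth, h.mono⟩) hC hC'

/-- **Theorem PN with symmetries**, for strictly convex curves: a smooth foliation which induces
projective involutions on the tangent lines and preserves an area form, the curve and the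
involutions are invariant under the rotation by `2 π / k`, and `m` steps from one point of one leaf
go around the curve, where `m` is the least multiple of `k` with `m ≥ 3`. -/
theorem strict_pencil_sym (γ : StrictCurve) (U : ℝ → ℝ → ℝ) (κ : ℝ → ℝ)
    (hsmooth : ContDiffOn ℝ ∞ (fun q : ℝ × ℝ => U q.1 q.2) (Ioo 0 1 ×ˢ univ))
    (hper : ∀ c ∈ Ioo (0:ℝ) 1, ∀ t, U c (t + γ.T) = U c t)
    (hsimple : ∀ c ∈ Ioo (0:ℝ) 1, ∀ t t', γ.pt t (U c t) = γ.pt t' (U c t') →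
      ∃ n : ℤ, t' = t + n * γ.T)
    (hmono : ∀ c ∈ Ioo (0:ℝ) 1, ∀ t, deriv (fun r => U r t) c < 0)
    (hlim : ∀ t, Tendsto (fun c => U c t) (𝓝[>] 0) atTop)
    (hproj : ∀ c ∈ Ioo (0:ℝ) 1, ∀ t u v, u ≠ v → γ.pt t u ∈ γ.leaf U c →
      γ.pt t v ∈ γ.leaf U c → u + v = κ t)
    (V : Set (Fin 3 → ℝ)) (N : (Fin 3 → ℝ) → ℝ) (hVo : IsOpen V) (hN : ContDiffOn ℝ ∞ N V)
    (hpos : ∀ v ∈ V, 0 < N v) (hcone : ∀ r : ℝ, r ≠ 0 → ∀ v ∈ V, r • v ∈ V ∧ N (r • v) = |r| * N v)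
    (hcurve : ∀ t, γ.Γ t ∈ V)
    (hinv : ∀ c ∈ Ioo (0:ℝ) 1, ∀ t u v, u ≠ v → γ.pt t u ∈ γ.leaf U c →
      γ.pt t v ∈ γ.leaf U c → γ.hvec t u ∈ V →
      γ.hvec t v ∈ V ∧ N (γ.hvec t u) = N (γ.hvec t v))
    {c₁ : ℝ} (hc₁ : c₁ ∈ Ioo (0:ℝ) 1)
    (hV : ∀ c ∈ Ioc 0 c₁, ∀ t, γ.hvec t (U c t) ∈ V) {k m : ℕ} (hk : 0 < k)
    (hsym : RotKap γ.T γ.Γ κ k) (hm : IsLeast {n | 3 ≤ n ∧ k ∣ n} m)
    (t v : ℕ → ℝ) (hstep : ∀ i < m, t i < t (i + 1) ∧ t (i + 1) < t i + γ.T ∧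
      γ.pt (t i) (U c₁ (t i)) = γ.pt (t (i + 1)) (v i)) (hgo : t 0 + γ.T ≤ t m) :
    ∃ Q E : QuadraticForm ℝ (Fin 3 → ℝ), E.Nondegenerate ∧
      γ.trace = Pool.Agent.MP_ae5b4e_an_FA.conic E ∧ (∀ t, 0 < Q (γ.Γ t)) ∧
      ∀ c ∈ Ioo (0:ℝ) 1, ∃ ρ : ℝ, (Q - ρ • E).Nondegenerate ∧
        γ.leaf U c = Pool.Agent.MP_ae5b4e_an_FA.conic (Q - ρ • E) := by
  have hcurv : ∀ t, 0 < γ.curv t := γ.curved hsimple hlim hsmooth hmono hproj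
  have hG : GeoN (γ.toConvex hcurv) U κ V N :=
    ⟨hsmooth, hper, hsimple, hmono, hlim, hproj, hVo, hN, hpos, hcone, hcurve, hinv⟩
  refine hG.pencil_sym hc₁ hV ?_ ⟨t, v, hstep, hgo⟩
  rcases cases_least hk hm with h3 | ⟨h4, rfl⟩ | ⟨h3, rfl⟩
  · exact Or.inl h3
  · exact Or.inr (Or.inl ⟨h4, hsym⟩)
  · exact Or.inr (Or.inr ⟨h3, hsym⟩)

end Pool.Agent.MP_ae5b4e_an_PN
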