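import Mathlib
import Pool.Agent.Lib.MP_ae5b4e_an_PN.FinH

/-!
# MP_ae5b4e_an, project PN+: the theorem for strictly convex curves

There is an angle function on an open collar and a leaf with a rotation number at least `1 / m`.
-/

noncomputable section

namespace Pool.Agent.MP_ae5b4e_an_PN

open Set Filter Topology Real
open scoped ContDiff
open Pool.Agent.MP_ae5b4e_an_hopf
open Pool.Agent.MP_ae5b4e_an_RG
open Pool.Agent.MP_ae5b4e_an_FA (StrictCurve)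

/-- **Theorem PN+**, for strictly convex curves. -/
theorem strict_pencil_angle (γ : StrictCurve) (U : ℝ → ℝ → ℝ) (κ : ℝ → ℝ)
    (hsmooth : ContDiffOn ℝ ∞ (fun q : ℝ × ℝ => U q.1 q.2) (Ioo 0 1 ×ˢ univ))
    (hper : ∀ c ∈ Ioo (0:ℝ) 1, ∀ t, U c (t + γ.T) = U c t)
    (hsimple : ∀ c ∈ Ioo (0:ℝ) 1, ∀ t t', γ.pt t (U c t) = γ.pt t' (U c t') →
      ∃ n : ℤ, t' = t + n * γ.T)
    (hmono : ∀ c ∈ Ioo (0:ℝ) 1, ∀ t, deriv (fun r => U r t) c < 0)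
    (hlim : ∀ t, Tendsto (fun c => U c t) (𝓝[>] 0) atTop)
    (hproj : ∀ c ∈ Ioo (0:ℝ) 1, ∀ t u v, u ≠ v → γ.pt t u ∈ γ.leaf U c →
      γ.pt t v ∈ γ.leaf U c → u + v = κ t)
    {b : ℝ} (hb : b ≤ 1) (h : ℝ → ℝ → ℝ) (ρ : ℝ → ℝ)
    (hh : ContDiffOn ℝ ∞ (fun q : ℝ × ℝ => h q.1 q.2) (Ioo 0 b ×ˢ univ))
    (hpos : ∀ c ∈ Ioo 0 b, ∀ t, 0 < deriv (h c) t)
    (hturn : ∀ c ∈ Ioo 0 b, ∀ t, h c (t + γ.T) = h c t + 1)
    (hrot : ∀ c ∈ Ioo 0 b, ∀ t s v, t < s → s < t + γ.T → γ.pt t (U c t) = γ.pt s v →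
      h c s = h c t + ρ c)
    {k m : ℕ} (hk : 0 < k)
    (hsym : 1 < k → ∀ t, γ.x (t + γ.T / k) = cos (2 * π / k) * γ.x t - sin (2 * π / k) * γ.y t ∧
      γ.y (t + γ.T / k) = sin (2 * π / k) * γ.x t + cos (2 * π / k) * γ.y t ∧
      κ (t + γ.T / k) = κ t)
    (hm : IsLeast {n | 3 ≤ n ∧ k ∣ n} m) {c₁ : ℝ} (hc₁ : c₁ ∈ Ioo 0 b)
    (hρ : 1 / (m : ℝ) ≤ ρ c₁) :
    ∃ Q E : QuadraticForm ℝ (Fin 3 → ℝ), E.Nondegenerate ∧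
      γ.trace = Pool.Agent.MP_ae5b4e_an_FA.conic E ∧ (∀ t, 0 < Q (γ.Γ t)) ∧
      ∀ c ∈ Ioo (0:ℝ) 1, ∃ r : ℝ, (Q - r • E).Nondegenerate ∧
        γ.leaf U c = Pool.Agent.MP_ae5b4e_an_FA.conic (Q - r • E) := by
  have hcurv : ∀ t, 0 < γ.curv t := γ.curved hsimple hlim hsmooth hmono hproj
  have hG : GeoH (γ.toConvex hcurv) U κ b h ρ :=
    ⟨hsmooth, hper, hsimple, hmono, hlim, hproj, hb, hh, hpos, hturn, hrot⟩
  have hR : 1 < k → RotKap γ.T γ.Γ κ k := fun h1 => by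
    refine ⟨fun t => ?_, fun t => (hsym h1 t).2.2⟩
    obtain ⟨e1, e2, -⟩ := hsym h1 t
    rw [rot_apply]
    funext i
    fin_cases i
    · exact e1
    · exact e2
    · rfl
  refine hG.pencil hc₁ ?_ hρ
  rcases cases_least hk hm with h3 | ⟨h4, rfl⟩ | ⟨h3, rfl⟩
  · exact Or.inl h3
  · exact Or.inr (Or.inl ⟨h4, hR (by norm_num)⟩)
  · exact Or.inr (Or.inr ⟨h3, hR (by omega)⟩)

end Pool.Agent.MP_ae5b4e_an_PN
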