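import Mathlib
import Pool.Agent.Lib.MP_ae5b4e_an_PN.Fin

/-!
# MP_ae5b4e_an, project PN: the area form of a quadratic form

The involutions of a quadratic form `Q` preserve the area form with `N = |Q| ^ (1/2)`, on the cone
`Q ≠ 0`.
-/

noncomputable section

namespace Pool.Agent.MP_ae5b4e_an_PN

open Set Filter Topology Real
open scoped ContDiff
open Pool.Agent.MP_ae5b4e_an_FA (StrictCurve)

lemma contDiff_quad (Q : QuadraticForm ℝ (Fin 3 → ℝ)) : ContDiff ℝ ∞ (fun v => Q v) := by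
  have e : (fun v => Q v) = fun v : Fin 3 → ℝ =>
      (LinearMap.toContinuousBilinearMap (QuadraticMap.polarBilin Q)) v v / 2 := by
    funext v
    rw [LinearMap.toContinuousBilinearMap_apply, QuadraticMap.polarBilin_apply_apply]
    exact Pool.Agent.MP_ae5b4e_an_P3.Q_eq_polar v
  rw [e]
  exact (((LinearMap.toContinuousBilinearMap (QuadraticMap.polarBilin Q)).contDiff).clm_apply
    contDiff_id).div_const 2

/-- The case of a quadratic form (theorem P3), as a special case of theorem PN. -/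
theorem strict_pencil_form (γ : StrictCurve) (Q : QuadraticForm ℝ (Fin 3 → ℝ))
    (hQ : ∀ t, Q (γ.Γ t) ≠ 0) (U : ℝ → ℝ → ℝ)
    (hsmooth : ContDiffOn ℝ ∞ (fun q : ℝ × ℝ => U q.1 q.2) (Ioo 0 1 ×ˢ univ))
    (hper : ∀ c ∈ Ioo (0:ℝ) 1, ∀ t, U c (t + γ.T) = U c t)
    (hsimple : ∀ c ∈ Ioo (0:ℝ) 1, ∀ t t', γ.pt t (U c t) = γ.pt t' (U c t') →
      ∃ n : ℤ, t' = t + n * γ.T)
    (hmono : ∀ c ∈ Ioo (0:ℝ) 1, ∀ t, deriv (fun r => U r t) c < 0)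
    (hlim : ∀ t, Tendsto (fun c => U c t) (𝓝[>] 0) atTop)
    (hproj : ∀ c ∈ Ioo (0:ℝ) 1, ∀ t u v, u ≠ v → γ.pt t u ∈ γ.leaf U c →
      γ.pt t v ∈ γ.leaf U c → Q (γ.hvec t u) = Q (γ.hvec t v))
    {c₁ : ℝ} (hc₁ : c₁ ∈ Ioo (0:ℝ) 1)
    (hne : ∀ c ∈ Ioc 0 c₁, ∀ t, Q (γ.hvec t (U c t)) ≠ 0)
    {t₀ t₁ t₂ t₃ v₁ v₂ v₃ : ℝ} (h01 : t₀ < t₁) (h01' : t₁ < t₀ + γ.T) (h12 : t₁ < t₂)
    (h12' : t₂ < t₁ + γ.T) (h23 : t₂ < t₃) (h23' : t₃ < t₂ + γ.T)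
    (p1 : γ.pt t₀ (U c₁ t₀) = γ.pt t₁ v₁) (p2 : γ.pt t₁ (U c₁ t₁) = γ.pt t₂ v₂)
    (p3 : γ.pt t₂ (U c₁ t₂) = γ.pt t₃ v₃) (h30 : t₀ + γ.T ≤ t₃) :
    ∃ Q' E : QuadraticForm ℝ (Fin 3 → ℝ), E.Nondegenerate ∧
      γ.trace = Pool.Agent.MP_ae5b4e_an_FA.conic E ∧ (∀ t, 0 < Q' (γ.Γ t)) ∧
      ∀ c ∈ Ioo (0:ℝ) 1, ∃ ρ : ℝ, (Q' - ρ • E).Nondegenerate ∧
        γ.leaf U c = Pool.Agent.MP_ae5b4e_an_FA.conic (Q' - ρ • E) := by
  have hv : ∀ t u, Q (γ.hvec t u) = u ^ 2 * Q (γ.Γ t) +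
      u * QuadraticMap.polar Q (γ.Γ t) ![deriv γ.x t, deriv γ.y t, 0] +
      Q ![deriv γ.x t, deriv γ.y t, 0] := by
    intro t u
    have h := Pool.Agent.MP_ae5b4e_an_P3.Q_smul_add (Q := Q) u 1 (γ.Γ t)
      ![deriv γ.x t, deriv γ.y t, 0]
    have e : γ.hvec t u = u • γ.Γ t + (1:ℝ) • ![deriv γ.x t, deriv γ.y t, 0] := by
      funext i
      fin_cases i <;> simp [StrictCurve.hvec, StrictCurve.Γ]
    rw [e, h]
    ring
  have hκ : ∀ c ∈ Ioo (0:ℝ) 1, ∀ t u v, u ≠ v → γ.pt t u ∈ γ.leaf U c →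
      γ.pt t v ∈ γ.leaf U c → u + v =
        -(QuadraticMap.polar Q (γ.Γ t) ![deriv γ.x t, deriv γ.y t, 0] / Q (γ.Γ t)) := by
    intro c hc t u v huv hu hv'
    have h1 := hproj c hc t u v huv hu hv'
    rw [hv, hv] at h1
    have h2 : (u - v) * ((u + v) * Q (γ.Γ t) +
        QuadraticMap.polar Q (γ.Γ t) ![deriv γ.x t, deriv γ.y t, 0]) = 0 := by
      linear_combination h1
    have h3 := (mul_eq_zero.1 h2).resolve_left (sub_ne_zero.2 huv)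
    have h4 := hQ t
    field_simp
    linarith
  have hcont : Continuous fun v => Q v := (contDiff_quad Q).continuous
  refine strict_pencil γ U _ hsmooth hper hsimple hmono hlim hκ {v | Q v ≠ 0}
    (fun v => √|Q v|) (isOpen_ne_fun hcont continuous_const) ?_ ?_ ?_ hQ ?_ hc₁ hne h01 h01' h12
    h12' h23 h23' p1 p2 p3 h30
  · intro v hv0
    have hv1 : Q v ≠ 0 := hv0
    have h1 : ContDiffAt ℝ ∞ (fun v => |Q v|) v :=
      ((contDiffAt_abs hv1).comp v (contDiff_quad Q).contDiffAt)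
    exact (h1.sqrt (abs_pos.2 hv1).ne').contDiffWithinAt
  · intro v hv0
    exact Real.sqrt_pos.2 (abs_pos.2 hv0)
  · intro r hr v hv0
    have e : Q (r • v) = r * r * Q v := by
      rw [QuadraticMap.map_smul, smul_eq_mul]
    refine ⟨?_, ?_⟩
    · show Q (r • v) ≠ 0
      rw [e]
      exact mul_ne_zero (mul_ne_zero hr hr) hv0
    · show √|Q (r • v)| = |r| * √|Q v|
      rw [e, abs_mul, abs_mul, Real.sqrt_mul (by positivity), Real.sqrt_mul_self (abs_nonneg r)]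
  · intro c hc t u v huv hu hv' hu'
    have h1 := hproj c hc t u v huv hu hv'
    refine ⟨?_, ?_⟩
    · show Q (γ.hvec t v) ≠ 0
      rw [← h1]
      exact hu'
    · show √|Q (γ.hvec t u)| = √|Q (γ.hvec t v)|
      rw [h1]

end Pool.Agent.MP_ae5b4e_an_PN
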