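import Mathlib
import Pool.Agent.Lib.MP_ae5b4e_an_PN.Per
import Pool.Agent.Lib.MP_ae5b4e_an_P3.ReachN
import Pool.Agent.Lib.MP_ae5b4e_an_P3.Lim

/-!
# MP_ae5b4e_an, project PN+, (R1): leaves of periodic points arbitrarily near the curve
-/

noncomputable section

namespace Pool.Agent.MP_ae5b4e_an_PN

open Set Filter Topology Real MeasureTheory intervalIntegral
open scoped ContDiff
open Pool.Agent.MP_ae5b4e_an_hopf
open Pool.Agent.MP_ae5b4e_an_hopf.Sys (nt nc)
open Pool.Agent.MP_ae5b4e_an_ALT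

variable {Γ : ℝ → Fin 3 → ℝ} {T : ℝ} {U : ℝ → ℝ → ℝ} {b : ℝ} {φ : ℝ × ℝ → ℝ}

/-- The iterates of a lift with a positive step go around the circle. -/
lemma exists_around {f : ℝ → ℝ} {T : ℝ} (hT : 0 < T) (hf : Continuous f)
    (hper : ∀ x, f (x + T) = f x + T) (hlt : ∀ x, x < f x) (x : ℝ) : ∃ n : ℕ, x + T ≤ f^[n] x := by
  have hc : Continuous fun x => f x - x := hf.sub continuous_id
  obtain ⟨z, -, hz⟩ := (isCompact_Icc (a := (0:ℝ)) (b := T)).exists_isMinOn
    (nonempty_Icc.2 hT.le) hc.continuousOn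
  set δ : ℝ := f z - z with hδ
  have hδp : 0 < δ := by have := hlt z; linarith
  have hmin : ∀ x, x + δ ≤ f x := by
    intro x
    have hp : Function.Periodic (fun x => f x - x) T := fun x => by
      show f (x + T) - (x + T) = f x - x
      rw [hper]
      ring
    obtain ⟨y, hy, hy'⟩ := hp.exists_mem_Ico₀ hT x
    have k : f x - x = f y - y := hy'
    have k2 : δ ≤ f y - y := (isMinOn_iff.1 hz) y ⟨hy.1, hy.2.le⟩
    linarith
  have hit : ∀ n : ℕ, x + n * δ ≤ f^[n] x := by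
    intro n
    induction n with
    | zero => simp
    | succ n ih =>
      rw [Function.iterate_succ_apply']
      have := hmin (f^[n] x)
      push_cast
      linarith
  obtain ⟨n, hn⟩ := exists_nat_ge (T / δ)
  refine ⟨n, ?_⟩
  have k := hit n
  rw [div_le_iff₀ hδp] at hn
  linarith

/-- If one point of a leaf is `n`-periodic then all points of this leaf are. -/
theorem leaf_n (h : SSys T Γ U) (hφ : CB T Γ U b φ) (hW : ∀ y, Wr Γ y = 1) {c : ℝ}
    (hc : c ∈ Ioo 0 b) {n : ℕ} {t₀ : ℝ} (h3 : (nxt Γ T U c)^[n] t₀ = t₀ + T) (t : ℝ) :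
    (nxt Γ T U c)^[n] t = t + T := by
  have hc1 : c ∈ Ioo (0:ℝ) 1 := ⟨hc.1, hc.2.trans_le hφ.b1⟩
  refine Pool.Agent.MP_ae5b4e_an_P3.n_periodic (w := dens U φ c) (h.hasDerivAt_nxt_t hc1)
    (continuous_dens h hφ hc) (fun t => dens_pos h hc1 t) (fun t => ?_)
    (fun t => dens_inv h hφ hW hc t) h3 t
  unfold dens
  rw [h.Uc_per hc1, hφ.per c hc]

/-- (R1) Near the curve there are leaves all of whose points are periodic with rotation number
`1 / q`. -/
theorem exists_leaf_q (h : SSys T Γ U) (hφ : CB T Γ U b φ) (hW : ∀ y, Wr Γ y = 1) (hb : 0 < b)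
    {ε : ℝ} (hε : 0 < ε) {a : ℝ} (ha : 0 < a) :
    ∃ q : ℕ, 0 < q ∧ ∃ c ∈ Ioo 0 b, c < a ∧ (∀ t, nxt Γ T U c t < t + ε) ∧
      ∀ t, (nxt Γ T U c)^[q] t = t + T := by
  have hT := h.T_pos
  obtain ⟨c0, hc0, hcl⟩ := Pool.Agent.MP_ae5b4e_an_P3.Mn.exists_close h
    (ε := min ε (T / 2)) (lt_min hε (by positivity))
    ((min_le_right _ _).trans_lt (by linarith))
  -- a leaf below `b`, `a` and `c0`
  set c1 : ℝ := min c0 (min (b / 2) (a / 2)) with hc1d
  have hc1p : 0 < c1 := lt_min hc0.1 (lt_min (by positivity) (by positivity))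
  have hc1c0 : c1 ≤ c0 := min_le_left _ _
  have hc1b : c1 < b :=
    ((min_le_right _ _).trans (min_le_left _ _)).trans_lt (by linarith)
  have hc1a : c1 < a :=
    ((min_le_right _ _).trans (min_le_right _ _)).trans_lt (by linarith)
  have hc11 : c1 ∈ Ioo (0:ℝ) 1 := ⟨hc1p, hc1c0.trans_lt hc0.2⟩
  obtain ⟨n, hn⟩ := exists_around hT (h.continuous_nxt hc11) (fun x => h.nxt_per hc11 x)
    (fun x => (h.nxt_spec c1 x).1) 0
  obtain ⟨c, hc, he⟩ := Pool.Agent.MP_ae5b4e_an_P3.exists_iter (f := nxt Γ T U) h.T_pos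
    h.continuousOn_nxt.snd (fun c hc =>
      (strictMono_of_hasDerivAt_pos (h.hasDerivAt_nxt_t hc) (h.nt_pos hc)).monotone)
    h.tendsto_nxt_zero n hc11 hn
  have hcb : c ∈ Ioo 0 b := ⟨hc.1, hc.2.trans_lt hc1b⟩
  have hc' : c ∈ Ioo (0:ℝ) 1 := ⟨hc.1, hc.2.trans_lt hc11.2⟩
  refine ⟨n, ?_, c, hcb, hc.2.trans_lt hc1a, fun t => ?_, leaf_n h hφ hW hcb he⟩
  · rcases Nat.eq_zero_or_pos n with h0 | h0
    · exfalso
      rw [h0] at he
      simp only [Function.iterate_zero, id_eq] at he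
      linarith
    · exact h0
  · rcases (hc.2.trans hc1c0).eq_or_lt with h0 | h0
    · rw [h0]
      exact (hcl t).trans_le (by linarith [min_le_left ε (T / 2)])
    · refine (Pool.Agent.MP_ae5b4e_an_P3.Mn.nxt_strictMono h hc' hc0 h0 t).trans ?_
      exact (hcl t).trans_le (by linarith [min_le_left ε (T / 2)])

end Pool.Agent.MP_ae5b4e_an_PN
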