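import Mathlib
import Pool.Agent.Lib.MP_ae5b4e_an_PN.Red

/-!
# MP_ae5b4e_an, project PN: the fields of a quadratic form are a special case

If the involutions permute the zeros of a quadratic form `Q` then `N = √|Q|` is preserved.
-/

noncomputable section

namespace Pool.Agent.MP_ae5b4e_an_PN

open Set Filter Topology Real
open scoped ContDiff
open Pool.Agent.MP_ae5b4e_an_hopf
open Pool.Agent.MP_ae5b4e_an_P3 (GeoQ kq)

/-- quadratic forms are smooth -/
lemma contDiff_quad (Q : QuadraticForm ℝ (Fin 3 → ℝ)) : ContDiff ℝ ∞ fun v => Q v := by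
  have h3 : (fun v => Q v) = fun v =>
      (LinearMap.toContinuousBilinearMap (QuadraticMap.polarBilin Q)) v v / 2 :=
    funext fun v => Pool.Agent.MP_ae5b4e_an_P3.Q_eq_polar v
  rw [h3]
  exact ((((LinearMap.toContinuousBilinearMap (QuadraticMap.polarBilin Q)).contDiff.comp
    contDiff_id).clm_apply contDiff_id)).div_const 2

/-- the data with a quadratic form -/
theorem GeoN.of_quad {γ : ConvexCurve} {Q : QuadraticForm ℝ (Fin 3 → ℝ)} {U : ℝ → ℝ → ℝ}
    (h : GeoQ γ Q U) : GeoN γ U (kq γ Q) {v | Q v ≠ 0} (fun v => √|Q v|) where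
  smooth := h.smooth
  per := h.per
  simple := h.simple
  mono := h.mono
  lim := h.lim
  proj := h.sol.proj
  isOpen := isOpen_ne_fun (contDiff_quad Q).continuous continuous_const
  smoothN := by
    intro v hv
    have k : ContDiffAt ℝ ∞ (fun v => Q v) v := (contDiff_quad Q).contDiffAt
    exact ((k.abs hv).sqrt (abs_ne_zero.2 hv)).contDiffWithinAt
  pos := fun v hv => Real.sqrt_pos.2 (abs_pos.2 hv)
  cone := by
    intro r hr v hv
    have e : Q (r • v) = r ^ 2 * Q v := by
      rw [QuadraticMap.map_smul, smul_eq_mul]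
      ring
    refine ⟨?_, ?_⟩
    · show Q (r • v) ≠ 0
      rw [e]
      exact mul_ne_zero (pow_ne_zero 2 hr) hv
    · show √|Q (r • v)| = |r| * √|Q v|
      rw [e, abs_mul, Real.sqrt_mul (abs_nonneg _), abs_pow, Real.sqrt_sq (abs_nonneg r)]
  curve := h.hQ
  inv := by
    intro c hc t u v huv hu hv hm
    have k := h.proj c hc t u v huv hu hv
    refine ⟨?_, ?_⟩
    · show Q (γ.hvec t v) ≠ 0
      rw [← k]
      exact hm
    · show √|Q (γ.hvec t u)| = √|Q (γ.hvec t v)|
      rw [k]

end Pool.Agent.MP_ae5b4e_an_PN
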