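import Mathlib
import Pool.Agent.Lib.MP_ae5b4e_an_PN.Red
import Pool.Agent.Lib.MP_ae5b4e_an_PN.NormSym

/-!
# MP_ae5b4e_an, project PN: the formula for the potential of the normal form
-/

noncomputable section

namespace Pool.Agent.MP_ae5b4e_an_PN

open Set Filter Topology Real MeasureTheory intervalIntegral
open scoped ContDiff
open Pool.Agent.MP_ae5b4e_an_hopf
open Pool.Agent.MP_ae5b4e_an_RG
open Pool.Agent.MP_ae5b4e_an_ALT (SSys)
open Pool.Agent.MP_ae5b4e_an_RIG (Sol Normal lift rU)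

/-- (E) The normal form, with the formula for the potential. -/
theorem GeoN.norm_phi {γ : ConvexCurve} {U : ℝ → ℝ → ℝ} {κ : ℝ → ℝ} {V : Set (Fin 3 → ℝ)}
    {N : (Fin 3 → ℝ) → ℝ} (h : GeoN γ U κ V N) {c₁ : ℝ} (hc₁ : c₁ ∈ Ioo (0:ℝ) 1)
    (hV : ∀ c ∈ Ioc 0 c₁, ∀ t, γ.hvec t (U c t) ∈ V) :
    ∃ (σ lam r m : ℝ → ℝ) (b : ℝ) (φ : ℝ × ℝ → ℝ), Normal γ κ σ lam r m ∧
      SSys 1 (lift γ σ lam) (rU κ σ U) ∧ (∀ x, Wr (lift γ σ lam) x = 1) ∧ c₁ < b ∧
      CB 1 (lift γ σ lam) (rU κ σ U) b φ ∧ b ≤ 1 ∧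
      (∀ c ∈ Ioo 0 b, ∀ x, rU κ σ U c x • lift γ σ lam x + deriv (lift γ σ lam) x ∈ V) ∧
      ∀ q : ℝ × ℝ, φ q = log (N (rU κ σ U q.1 q.2 • lift γ σ lam q.2 +
        deriv (lift γ σ lam) q.2)) := by
  obtain ⟨σ, lam, r, m, hN⟩ := h.sol.exists_normal
  have hS := Pool.Agent.MP_ae5b4e_an_ALT.ssys_of_sol h.sol h.smooth h.mono hN
  have hC := hS.curve
  set G := lift γ σ lam with hGdef
  set X := rU κ σ U with hXdef
  have hls : ∀ x, 0 < lam x * deriv σ x := fun x => mul_pos (hN.pos_lam x) (hN.pos_σ x)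
  have hXpos : ∀ c ∈ Ioo (0:ℝ) 1, ∀ x, 0 < X c x := fun c hc x =>
    Pool.Agent.MP_ae5b4e_an_ALT.rU_pos h.sol hN hc x
  -- the points of the leaves
  set W : ℝ × ℝ → Fin 3 → ℝ := fun q => X q.1 q.2 • G q.2 + deriv G q.2 with hW
  have hWe : ∀ c x, W (c, x) = (lam x * deriv σ x) • γ.hvec (σ x) (U c (σ x)) := fun c x =>
    lift_vec hN x (U c (σ x))
  have hWs : ContDiffOn ℝ ∞ W (Ioo 0 1 ×ˢ univ) :=
    (hS.smooth.smul (hC.smooth.comp contDiff_snd).contDiffOn).add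
      (hC.smooth1.comp contDiff_snd).contDiffOn
  have hWper : ∀ c ∈ Ioo (0:ℝ) 1, ∀ t, W (c, t + 1) = W (c, t) := by
    intro c hc t
    show X c (t + 1) • G (t + 1) + deriv G (t + 1) = X c t • G t + deriv G t
    rw [hS.per c hc, hC.per, hC.per1]
  have hWV : ∀ c x, γ.hvec (σ x) (U c (σ x)) ∈ V → W (c, x) ∈ V := fun c x hv => by
    rw [hWe]
    exact (h.cone _ (hls x).ne' _ hv).1
  have hVW : ∀ c x, W (c, x) ∈ V → γ.hvec (σ x) (U c (σ x)) ∈ V := fun c x hv => by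
    have k := (h.cone (lam x * deriv σ x)⁻¹ (inv_ne_zero (hls x).ne') _ hv).1
    rwa [hWe, smul_smul, inv_mul_cancel₀ (hls x).ne', one_smul] at k
  obtain ⟨b, hb, hbV⟩ := exists_larger_mem h.isOpen hWs.continuousOn hWper hc₁
    fun c hc t => hWV c t (hV c hc (σ t))
  have hb1 : ∀ c ∈ Ioo 0 b, c ∈ Ioo (0:ℝ) 1 := fun c hc => ⟨hc.1, hc.2.trans_le hb.2⟩
  -- the opposite points
  have hopp : ∀ c ∈ Ioo 0 b, ∀ x, X c x • G x - deriv G x ∈ V ∧
      N (X c x • G x - deriv G x) = N (W (c, x)) := by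
    intro c hc x
    obtain ⟨k1, k2⟩ := h.even (hb1 c hc) (σ x) (hVW c x (hbV c hc x))
    have e : X c x • G x - deriv G x =
        (-(lam x * deriv σ x)) • γ.hvec (σ x) (κ (σ x) - U c (σ x)) := by
      rw [neg_smul, ← lift_vec hN x]
      have : deriv σ x * (κ (σ x) - U c (σ x) - κ (σ x) / 2) = -X c x := by
        rw [hXdef]
        unfold rU
        ring
      rw [this, neg_smul]
      abel
    obtain ⟨m1, m2⟩ := h.cone (-(lam x * deriv σ x)) (neg_ne_zero.2 (hls x).ne') _ k1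
    rw [e]
    refine ⟨m1, ?_⟩
    rw [m2, hWe, (h.cone _ (hls x).ne' _ (hVW c x (hbV c hc x))).2, abs_neg, k2]
  -- the potential
  set φ : ℝ × ℝ → ℝ := fun q => log (N (W q)) with hφ
  have hφs : ContDiffOn ℝ ∞ φ (Ioo 0 b ×ˢ univ) := by
    have k1 : ContDiffOn ℝ ∞ (fun q => N (W q)) (Ioo 0 b ×ˢ univ) :=
      h.smoothN.comp (hWs.mono (prod_mono (Ioo_subset_Ioo_right hb.2) Subset.rfl))
        fun q hq => hbV q.1 hq.1 q.2
    exact k1.log fun q hq => (h.pos _ (hbV q.1 hq.1 q.2)).ne'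
  refine ⟨σ, lam, r, m, b, φ, hN, hS, hN.wr, hb.1, ⟨hb.2, hφs, ?_, ?_⟩, hb.2,
    fun c hc x => hbV c hc x, fun q => rfl⟩
  · intro c hc t
    show log (N (W (c, t + 1))) = log (N (W (c, t)))
    rw [hWper c (hb1 c hc)]
  · intro c hc t
    obtain ⟨a1, a2, a3⟩ := hS.nxt_spec c t
    have e5 : X c (nxt G 1 X c t) = L1 G (nxt G 1 X c t) t := hS.feq' (hb1 c hc) t
    set s := nxt G 1 X c t with hs
    have hA := hC.dd_pos_right a1 a2
    have hB := hC.dd_pos_left a1 a2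
    have k := Pool.Agent.MP_ae5b4e_an_P3.vertex_eq (Γ := G) hA.ne' hB.ne'
    rw [a3, ← e5, neg_neg] at k
    have k2 : dd G t s * N (W (c, t)) = dd G s t * N (W (c, s)) := by
      have m1 := (h.cone (dd G t s) hA.ne' _ (hbV c hc t)).2
      have m2 := (h.cone (dd G s t) hB.ne' _ (hopp c hc s).1).2
      rw [abs_of_pos hA] at m1
      rw [abs_of_pos hB, (hopp c hc s).2] at m2
      rw [← m1, ← m2]
      exact congrArg N k
    have p1 := h.pos _ (hbV c hc t)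
    have p2 := h.pos _ (hbV c hc s)
    have k3 := congrArg log k2
    rw [log_mul hA.ne' p1.ne', log_mul hB.ne' p2.ne'] at k3
    show log (N (W (c, s))) - log (N (W (c, t))) = dl G t s
    unfold dl
    linarith

/-- The derivative of the potential in the coordinate is symmetric on a symmetric leaf. -/
theorem pp_symm {Γ : ℝ → Fin 3 → ℝ} {T τ : ℝ} {X : ℝ → ℝ → ℝ} {V : Set (Fin 3 → ℝ)}
    {N : (Fin 3 → ℝ) → ℝ} {b : ℝ} {φ : ℝ × ℝ → ℝ} {R : (Fin 3 → ℝ) →ₗ[ℝ] (Fin 3 → ℝ)}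
    (h : SSys T Γ X) (hφ : CB T Γ X b φ) (hVo : IsOpen V) (hNs : ContDiffOn ℝ ∞ N V)
    (hpos : ∀ v ∈ V, 0 < N v)
    (hV : ∀ c ∈ Ioo 0 b, ∀ x, X c x • Γ x + deriv Γ x ∈ V)
    (hf : ∀ q : ℝ × ℝ, φ q = log (N (X q.1 q.2 • Γ q.2 + deriv Γ q.2)))
    (hM : ∀ t, Γ (t + τ) = R (Γ t)) (hNR : ∀ v ∈ V, R v ∈ V ∧ N (R v) = N v) {c : ℝ}
    (hc : c ∈ Ioo 0 b) (hX : ∀ t, X c (t + τ) = X c t) (t : ℝ) :
    pp X φ c (t + τ) = pp X φ c t := by
  have hc1 : c ∈ Ioo (0:ℝ) 1 := ⟨hc.1, hc.2.trans_le hφ.b1⟩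
  have hM' := R_deriv h.curve hM
  -- the potential on a line
  have hline : ∀ x, HasDerivAt (fun u => log (N (u • Γ x + deriv Γ x)))
      (pp X φ c x) (X c x) := by
    intro x
    have d1 : HasDerivAt (fun r => φ (r, x)) (P1 φ (c, x)) c := by
      have k := Pool.Agent.MP_ae5b4e_an_P3.Mn.comp2 (isOpen_Ioo.prod isOpen_univ) hφ.smooth
        (hasDerivAt_id c) (hasDerivAt_const c x) ⟨hc, mem_univ _⟩
      simpa using k
    have dX : HasDerivAt (fun r => X r x) (Uc X (c, x)) c := h.hasDerivAt_c hc1 x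
    have hU := h.Uc_neg hc1 x
    have dg : DifferentiableAt ℝ (fun u => log (N (u • Γ x + deriv Γ x))) (X c x) := by
      have k1 : DifferentiableAt ℝ N (X c x • Γ x + deriv Γ x) :=
        ((hNs.contDiffAt (hVo.mem_nhds (hV c hc x)))).differentiableAt (by simp)
      have k2 : DifferentiableAt ℝ (fun u : ℝ => u • Γ x + deriv Γ x) (X c x) := by fun_prop
      exact (DifferentiableAt.comp (f := fun u : ℝ => u • Γ x + deriv Γ x) (X c x) k1 k2).log
        (hpos _ (hV c hc x)).ne'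
    have k3 := dg.hasDerivAt.comp c dX
    have e : ((fun u => log (N (u • Γ x + deriv Γ x))) ∘ fun r => X r x) = fun r => φ (r, x) := by
      funext r
      exact (hf (r, x)).symm
    rw [e] at k3
    have k4 := d1.unique k3
    have k5 : pp X φ c x = deriv (fun u => log (N (u • Γ x + deriv Γ x))) (X c x) := by
      unfold pp
      rw [k4, mul_div_assoc, div_self hU.ne, mul_one]
    rw [k5]
    exact dg.hasDerivAt
  have k1 := hline (t + τ)
  have k2 := hline t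
  rw [hX] at k1
  refine k1.unique (k2.congr_of_eventuallyEq ?_)
  have hmem : ∀ᶠ u in 𝓝 (X c t), u • Γ t + deriv Γ t ∈ V :=
    ((by fun_prop : Continuous fun u : ℝ => u • Γ t + deriv Γ t).continuousAt).preimage_mem_nhds
      (hVo.mem_nhds (hV c hc t))
  filter_upwards [hmem] with u hu
  have e : u • Γ (t + τ) + deriv Γ (t + τ) = R (u • Γ t + deriv Γ t) := by
    rw [hM, hM', map_add, map_smul]
  rw [e, (hNR _ hu).2]

end Pool.Agent.MP_ae5b4e_an_PN
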