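import Mathlib
import Pool.Agent.Lib.MP_ae5b4e_an_PN.Ang
import Pool.Agent.Lib.MP_ae5b4e_an_PN.RotN

/-!
# MP_ae5b4e_an, project PN: if the curve and the leaves are symmetric then the involutions are
-/

noncomputable section

namespace Pool.Agent.MP_ae5b4e_an_PN

open Set Filter Topology Real
open scoped ContDiff
open Pool.Agent.MP_ae5b4e_an_hopf
open Pool.Agent.MP_ae5b4e_an_RIG (Sol)

variable {γ : ConvexCurve} {U : ℝ → ℝ → ℝ} {κ : ℝ → ℝ} {τ : ℝ}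
  {R : (Fin 3 → ℝ) →ₗ[ℝ] (Fin 3 → ℝ)}

/-- the points of the tangent lines under a symmetry -/
lemma hvec_shift (hM : ∀ t, γ.Γ (t + τ) = R (γ.Γ t)) (t u : ℝ) :
    γ.hvec (t + τ) u = R (γ.hvec t u) := by
  rw [γ.hvec_eq, γ.hvec_eq, hM, R_deriv γ.isCurve hM, map_add, map_smul]

lemma pt_shift (hM : ∀ t, γ.Γ (t + τ) = R (γ.Γ t)) {t s u v : ℝ} (he : γ.pt t u = γ.pt s v) :
    γ.pt (t + τ) u = γ.pt (s + τ) v := by
  unfold ConvexCurve.pt at he ⊢
  rw [Projectivization.mk_eq_mk_iff'] at he ⊢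
  obtain ⟨a, ha⟩ := he
  refine ⟨a, ?_⟩
  rw [hvec_shift hM, hvec_shift hM, ← map_smul, ha]

/-- If the curve and the leaves are symmetric then the field of the involutions is symmetric. -/
theorem kappa_shift (hs : Sol γ U κ) (hM : ∀ t, γ.Γ (t + τ) = R (γ.Γ t))
    (hU : ∀ c ∈ Ioo (0:ℝ) 1, ∀ t, U c (t + τ) = U c t) (y : ℝ) : κ (y + τ) = κ y := by
  have hc : (1 / 2 : ℝ) ∈ Ioo (0:ℝ) 1 := by constructor <;> norm_num
  set c : ℝ := 1 / 2
  obtain ⟨t, rfl⟩ := hs.lsys.surj_nxt hc y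
  obtain ⟨hts, hst, hL⟩ := hs.lsys.nxt_spec c t
  have hC := γ.isCurve
  have n1 := (hC.dd_pos_right hts hst).ne'
  have n2 := (hC.dd_pos_left hts hst).ne'
  have h1 := γ.pt_inter n1 n2 hL
  have h2 := hs.lsys.feq' hc t
  have h5 := Pool.Agent.MP_ae5b4e_an_ALT.sol_two hs hc (nxt γ.Γ γ.T U c t)
  set s := nxt γ.Γ γ.T U c t
  have h3 : κ s - U c s = -L1 γ.Γ s t := by linarith
  rw [← h3] at h1
  have h6 : U c s + (κ s - U c s) = κ (s + τ) := by
    refine hs.proj c hc (s + τ) (U c s) (κ s - U c s) (fun he => h5 (by linarith)) ?_ ?_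
    · refine ⟨s + τ, ?_⟩
      show γ.pt (s + τ) (U c (s + τ)) = _
      rw [hU c hc]
    · refine ⟨t + τ, ?_⟩
      show γ.pt (t + τ) (U c (t + τ)) = _
      rw [hU c hc]
      exact (pt_shift hM h1).symm
  linarith

end Pool.Agent.MP_ae5b4e_an_PN
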